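import Pool.Agent.Lib.MP_cd53cf_al.PP

set_option autoImplicit false

/-!
Algebraically compact modules: saturation and extension of maps; reduced products.
-/

namespace Pool.Agent.RZ

/-- algebraic compactness, exactly as in the frozen statement -/
def AC (R M : Type) [Ring R] [AddCommGroup M] [Module R M] : Prop :=
  ∀ (I J : Type) (a : J → I →₀ R) (b : J → M),
      (∀ F : Finset J, ∃ x : I → M, ∀ j ∈ F, ((a j).sum fun i r => r • x i) = b j) →
      ∃ x : I → M, ∀ j, ((a j).sum fun i r => r • x i) = b j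

section

variable {R : Type} [Ring R] {M : Type} [AddCommGroup M] [Module R M]
  {N : Type} [AddCommGroup N] [Module R N]

theorem ev_sumElim {I Z : Type} (x : I → M) (c : Z → M) (T : (I ⊕ Z) →₀ R) :
    ev (Sum.elim x c) T =
      ev x (Finsupp.comapDomain Sum.inl T Sum.inl_injective.injOn) +
      ev c (Finsupp.comapDomain Sum.inr T Sum.inr_injective.injOn) := by
  induction T using Finsupp.induction_linear with
  | zero => simp
  | add f g hf hg =>
    rw [ev_add, hf, hg, Finsupp.comapDomain_add_of_injective Sum.inl_injective,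
      Finsupp.comapDomain_add_of_injective Sum.inr_injective, ev_add, ev_add]
    abel
  | single z r =>
    cases z with
    | inl i =>
      have h1 : (Finsupp.comapDomain Sum.inl (Finsupp.single (Sum.inl i : I ⊕ Z) r)
        Sum.inl_injective.injOn) = Finsupp.single i r := by
        rw [Finsupp.comapDomain_single]
      have h2 : (Finsupp.comapDomain Sum.inr (Finsupp.single (Sum.inl i : I ⊕ Z) r)
        Sum.inr_injective.injOn) = 0 := by
        ext j; simp [Finsupp.comapDomain_apply]
      rw [h1, h2]; simp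
    | inr i =>
      have h1 : (Finsupp.comapDomain Sum.inr (Finsupp.single (Sum.inr i : I ⊕ Z) r)
        Sum.inr_injective.injOn) = Finsupp.single i r := by
        rw [Finsupp.comapDomain_single]
      have h2 : (Finsupp.comapDomain Sum.inl (Finsupp.single (Sum.inr i : I ⊕ Z) r)
        Sum.inl_injective.injOn) = 0 := by
        ext j; simp [Finsupp.comapDomain_apply]
      rw [h1, h2]; simp

/-- algebraic compactness for homogeneous systems with parameters -/
theorem AC.solve (hM : AC R M) {I J Z : Type} (c : Z → M) (T : J → ((I ⊕ Z) →₀ R))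
    (h : ∀ F : Finset J, ∃ x : I → M, ∀ j ∈ F, ev (Sum.elim x c) (T j) = 0) :
    ∃ x : I → M, ∀ j, ev (Sum.elim x c) (T j) = 0 := by
  obtain ⟨x, hx⟩ := hM I J
    (fun j => Finsupp.comapDomain Sum.inl (T j) Sum.inl_injective.injOn)
    (fun j => - ev c (Finsupp.comapDomain Sum.inr (T j) Sum.inr_injective.injOn)) (by
      intro F
      obtain ⟨x, hx⟩ := h F
      refine ⟨x, fun j hj => ?_⟩
      have := hx j hj
      rw [ev_sumElim] at this
      rw [← ev_def]
      exact eq_neg_of_add_eq_zero_left this)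
  refine ⟨x, fun j => ?_⟩
  have := hx j
  rw [← ev_def] at this
  rw [ev_sumElim, this]
  abel

/-- saturation -/
theorem AC.saturate (hM : AC R M) {X Z : Type} (c : Z → M) (S : Set (PP R (X ⊕ Z)))
    (h : ∀ F : Finset (PP R (X ⊕ Z)), (↑F : Set (PP R (X ⊕ Z))) ⊆ S →
      ∃ x : X → M, ∀ φ ∈ F, sat φ (Sum.elim x c)) :
    ∃ x : X → M, ∀ φ ∈ S, sat φ (Sum.elim x c) := by
  classical
  -- unknowns `X ⊕ (S × ℕ)`, equations pairs `(φ, e)`
  let J := Σ φ : S, {e : ((X ⊕ Z) ⊕ ℕ) →₀ R // e ∈ φ.1}
  let g : S → ((X ⊕ Z) ⊕ ℕ) → ((X ⊕ (S × ℕ)) ⊕ Z) := fun φ t =>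
    match t with
    | Sum.inl (Sum.inl x) => Sum.inl (Sum.inl x)
    | Sum.inl (Sum.inr z) => Sum.inr z
    | Sum.inr n => Sum.inl (Sum.inr (φ, n))
  have hg : ∀ (φ : S) (x : X ⊕ (S × ℕ) → M),
      (Sum.elim x c : _ → M) ∘ g φ =
      Sum.elim (Sum.elim (fun t => x (Sum.inl t)) c) (fun n => x (Sum.inr (φ, n))) := by
    intro φ x
    funext t
    rcases t with (t | t) | t <;> rfl
  obtain ⟨x, hx⟩ := hM.solve c (I := X ⊕ (S × ℕ)) (J := J)
    (fun j => Finsupp.mapDomain (g j.1) j.2.1) (by
      intro F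
      obtain ⟨x, hx⟩ := h (F.image (fun j => j.1.1)) (by
        intro φ hφ
        simp only [Finset.coe_image, Set.mem_image] at hφ
        obtain ⟨j, _, rfl⟩ := hφ
        exact j.1.2)
      have hx' : ∀ φ : PP R (X ⊕ Z), ∃ y : ℕ → M, φ ∈ F.image (fun j => j.1.1) →
          ∀ e ∈ φ, ev (Sum.elim (Sum.elim x c) y) e = 0 := by
        intro φ
        by_cases hφ : φ ∈ F.image (fun j => j.1.1)
        · obtain ⟨y, hy⟩ := hx φ hφ
          exact ⟨y, fun _ => hy⟩
        · exact ⟨0, fun h => (hφ h).elim⟩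
      choose y hy using hx'
      refine ⟨Sum.elim x (fun p => y p.1.1 p.2), fun j hj => ?_⟩
      rw [ev_mapDomain, hg]
      have := hy j.1.1 (Finset.mem_image_of_mem _ hj) j.2.1 j.2.2
      exact this)
  refine ⟨fun t => x (Sum.inl t), fun φ hφ => ⟨fun n => x (Sum.inr (⟨φ, hφ⟩, n)), fun e he => ?_⟩⟩
  have := hx ⟨⟨φ, hφ⟩, ⟨e, he⟩⟩
  simp only [ev_mapDomain] at this
  rw [hg] at this
  exact this

/-- extension of partial homomorphisms to homomorphisms -/
theorem AC.extend (hN : AC R N) {X : Type} (v : X → M) (w : X → N)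
    (h : ∀ φ : PP R X, sat φ v → sat φ w) : ∃ f : M →ₗ[R] N, ∀ x, f (v x) = w x := by
  classical
  let J := (M × M) ⊕ (R × M) ⊕ X
  let T : J → ((M ⊕ X) →₀ R) := fun j =>
    match j with
    | Sum.inl (m, m') => Finsupp.single (Sum.inl (m + m')) 1 - Finsupp.single (Sum.inl m) 1
        - Finsupp.single (Sum.inl m') 1
    | Sum.inr (Sum.inl (r, m)) => Finsupp.single (Sum.inl (r • m)) 1
        - Finsupp.single (Sum.inl m) r
    | Sum.inr (Sum.inr x) => Finsupp.single (Sum.inl (v x)) 1 - Finsupp.single (Sum.inr x) 1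
  obtain ⟨f, hf⟩ := hN.solve w (I := M) (J := J) T (by
    intro F
    obtain ⟨φ, hφ⟩ := exists_of_list (R := R) (X := X) (I := M)
      (F.toList.map (fun j => Finsupp.mapDomain Sum.swap (T j)))
    have hv : sat φ v := by
      rw [hφ]
      refine ⟨id, fun e he => ?_⟩
      obtain ⟨j, _, rfl⟩ := List.mem_map.1 he
      rw [ev_mapDomain]
      rcases j with ⟨m, m'⟩ | ⟨r, m⟩ | x
      · simp [T]
      · simp [T]
      · simp [T]
    obtain ⟨y, hy⟩ := (hφ N w).1 (h φ hv)
    refine ⟨y, fun j hj => ?_⟩
    have := hy _ (List.mem_map_of_mem (Finset.mem_toList.2 hj))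
    rw [ev_mapDomain] at this
    convert this using 2
    funext z; cases z <;> rfl)
  refine ⟨{ toFun := f, map_add' := fun m m' => ?_, map_smul' := fun r m => ?_ }, fun x => ?_⟩
  · have := hf (Sum.inl (m, m'))
    simp only [T, ev_sub, ev_single, Sum.elim_inl, one_smul] at this
    rw [sub_sub, sub_eq_zero] at this
    exact this
  · have := hf (Sum.inr (Sum.inl (r, m)))
    simp only [T, ev_sub, ev_single, Sum.elim_inl, one_smul, sub_eq_zero] at this
    exact this
  · have := hf (Sum.inr (Sum.inr x))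
    simp only [T, ev_sub, ev_single, Sum.elim_inl, Sum.elim_inr, one_smul, sub_eq_zero] at this
    exact this

/-- direct summands (retracts) of algebraically compact modules are algebraically compact -/
theorem AC.retract (hM : AC R M) (i : N →ₗ[R] M) (p : M →ₗ[R] N) (h : ∀ x, p (i x) = x) :
    AC R N := by
  intro I J a b hfin
  obtain ⟨x, hx⟩ := hM I J a (fun j => i (b j)) (by
    intro F
    obtain ⟨x, hx⟩ := hfin F
    refine ⟨fun t => i (x t), fun j hj => ?_⟩
    rw [← ev_def, ev_map, ev_def, hx j hj])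
  refine ⟨fun t => p (x t), fun j => ?_⟩
  rw [← ev_def, ev_map, ev_def, hx j, h]

end

/-! ### Reduced products -/

section redprod

variable {R : Type} [Ring R] {I : Type} (l : Filter I) (M : I → Type)
  [∀ i, AddCommGroup (M i)] [∀ i, Module R (M i)]

/-- the submodule of families vanishing eventually -/
def redSub (R : Type) [Ring R] {I : Type} (l : Filter I) (M : I → Type)
    [∀ i, AddCommGroup (M i)] [∀ i, Module R (M i)] : Submodule R (∀ i, M i) where
  carrier := {x | ∀ᶠ i in l, x i = 0}
  add_mem' := by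
    intro a b ha hb
    filter_upwards [ha, hb] with i h1 h2
    simp [h1, h2]
  zero_mem' := by simp
  smul_mem' := by
    intro c x hx
    filter_upwards [hx] with i h1
    simp [h1]

/-- reduced product -/
abbrev RedProd (R : Type) [Ring R] {I : Type} (l : Filter I) (M : I → Type)
    [∀ i, AddCommGroup (M i)] [∀ i, Module R (M i)] : Type :=
  (∀ i, M i) ⧸ redSub R l M

theorem sat_redProd {X : Type} (φ : PP R X) (v : X → ∀ i, M i) :
    sat φ (fun x => (Submodule.Quotient.mk (v x) : RedProd R l M)) ↔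
      ∀ᶠ i in l, sat φ (fun x => v x i) := by
  classical
  have key : ∀ (y : ℕ → ∀ i, M i) (e : (X ⊕ ℕ) →₀ R) (i : I),
      (ev (Sum.elim v y) e) i = ev (Sum.elim (fun x => v x i) (fun n => y n i)) e := by
    intro y e i
    have := ev_map (R := R) (LinearMap.proj i : (∀ i, M i) →ₗ[R] M i) (Sum.elim v y) e
    rw [show (ev (Sum.elim v y) e) i = (LinearMap.proj i : (∀ i, M i) →ₗ[R] M i)
      (ev (Sum.elim v y) e) from rfl, ← this]
    congr 1
    funext z; cases z <;> rfl
  have key2 : ∀ (y : ℕ → ∀ i, M i) (e : (X ⊕ ℕ) →₀ R),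
      ev (Sum.elim (fun x => (Submodule.Quotient.mk (v x) : RedProd R l M))
        (fun n => Submodule.Quotient.mk (y n))) e = Submodule.Quotient.mk (ev (Sum.elim v y) e) := by
    intro y e
    have := ev_map (R := R) (redSub R l M).mkQ (Sum.elim v y) e
    rw [Submodule.mkQ_apply] at this
    rw [← this]
    congr 1
    funext z; cases z <;> rfl
  constructor
  · rintro ⟨y, hy⟩
    choose y' hy' using fun n => Submodule.Quotient.mk_surjective _ (y n)
    have h1 : ∀ e ∈ φ, ∀ᶠ i in l, ev (Sum.elim (fun x => v x i) (fun n => y' n i)) e = 0 := by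
      intro e he
      have := hy e he
      rw [show y = fun n => Submodule.Quotient.mk (y' n) from funext fun n => (hy' n).symm,
        key2, Submodule.Quotient.mk_eq_zero] at this
      filter_upwards [this] with i hi
      rw [← key]
      exact hi
    have h2 : ∀ᶠ i in l, ∀ e ∈ φ, ev (Sum.elim (fun x => v x i) (fun n => y' n i)) e = 0 := by
      have := (Filter.eventually_all_finset (l := l) φ.toFinset
        (p := fun e i => ev (Sum.elim (fun x => v x i) (fun n => y' n i)) e = 0)).2
        (fun e he => h1 e (List.mem_toFinset.1 he))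
      filter_upwards [this] with i hi e he
      exact hi e (List.mem_toFinset.2 he)
    filter_upwards [h2] with i hi
    exact ⟨fun n => y' n i, hi⟩
  · intro h
    have h' : ∀ i, ∃ y : ℕ → M i, sat φ (fun x => v x i) →
        ∀ e ∈ φ, ev (Sum.elim (fun x => v x i) y) e = 0 := by
      intro i
      by_cases hs : sat φ (fun x => v x i)
      · obtain ⟨y, hy⟩ := hs
        exact ⟨y, fun _ => hy⟩
      · exact ⟨0, fun h => (hs h).elim⟩
    choose y hy using h'
    refine ⟨fun n => Submodule.Quotient.mk (fun i => y i n), fun e he => ?_⟩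
    rw [key2, Submodule.Quotient.mk_eq_zero]
    change ∀ᶠ i in l, _ = 0
    filter_upwards [h] with i hi
    rw [key]
    exact hy i hi e he

end redprod

end Pool.Agent.RZ
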