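import Pool.Agent.Lib.MP_cd53cf_al.Closure

set_option autoImplicit false

/-!
The case where the lattice of pp definable subgroups has no minimal pairs is impossible.
-/

namespace Pool.Agent.RZ

theorem sat_congr {R : Type} [Ring R] {M : Type} [AddCommGroup M] [Module R M] {X : Type}
    (φ : PP R X) {v w : X → M} (h : ∀ e ∈ φ, ∀ x, Sum.inl x ∈ e.support → v x = w x)
    (hv : sat φ v) : sat φ w := by
  obtain ⟨y, hy⟩ := hv
  refine ⟨y, fun e he => ?_⟩
  rw [← hy e he]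
  apply ev_congr
  intro z hz
  cases z with
  | inl x => exact (h e he x hz).symm
  | inr n => rfl

theorem exists_rename {R : Type} [Ring R] {X Z : Type} (φ : PP R X) (g : X → Z) :
    ∃ χ : PP R Z, ∀ (M : Type) [AddCommGroup M] [Module R M] (v : Z → M),
      sat χ v ↔ sat φ (fun x => v (g x)) := by
  obtain ⟨χ, hχ⟩ := exists_subst φ (fun x => Finsupp.single (g x) (1:R))
  refine ⟨χ, fun M _ _ v => ?_⟩
  rw [hχ]
  simp

section

variable {R : Type} [Ring R] {R₀ : Subring R} {N : Type} [AddCommGroup N] [Module R N]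

theorem sat1_liftPP {M : Type} [AddCommGroup M] [Module R M] (φ : PP R₀ Unit) (x : M) :
    sat1 (liftPP φ) x ↔ sat1 φ x := sat_liftPP φ _

/-- multiplication by a central element -/
def mulC (M : Type) [AddCommGroup M] [Module R M] (c : R) (hc : ∀ r : R, c * r = r * c) :
    M →ₗ[R₀] M where
  toFun x := c • x
  map_add' x y := smul_add c x y
  map_smul' r x := by
    change c • ((r : R) • x) = (r : R) • (c • x)
    rw [← mul_smul, hc, mul_smul]

theorem InD.descend {X : Type} {φ₀ ψ₀ : PP R₀ X} (h : InD (liftPP φ₀) (liftPP ψ₀) N) :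
    InD φ₀ ψ₀ N := by
  intro v hv
  rw [← sat_liftPP] at hv ⊢
  exact h v hv

/-- existence of `b` -/
theorem exists_b {X : Type} [Finite X] {φ₀ ψ₀ : PP R X} (hN : Setting R φ₀ ψ₀ N)
    (R₀ : Subring R) :
    ∃ b : N, b ≠ 0 ∧ (∀ h : Module.End R N, ¬ IsUnit h → h b = 0) ∧
      ∀ β : PP R₀ Unit, ¬ sat1 β b → ∃ α : PP R₀ Unit, sat1 α b ∧
        ∀ x : N, sat1 α x → sat1 β x → x = 0 := by
  classical
  let 𝒯 : Set (Set (PP R₀ Unit)) := {q | ∀ F : Finset (PP R₀ Unit), (↑F : Set (PP R₀ Unit)) ⊆ q →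
    ∃ x : N, x ≠ 0 ∧ ∀ φ ∈ F, sat1 φ x}
  obtain ⟨x0, hx0⟩ : ∃ x : N, x ≠ 0 := by
    have := hN.indec.1
    exact exists_ne 0
  obtain ⟨q, hq⟩ := zorn_subset 𝒯 (by
    intro c hc hchain
    by_cases hne : c.Nonempty
    · refine ⟨⋃₀ c, ?_, fun s hs => Set.subset_sUnion_of_mem hs⟩
      intro F hF
      have hex : ∃ T ∈ c, (↑F : Set (PP R₀ Unit)) ⊆ T := by
        induction F using Finset.induction_on with
        | empty =>
          obtain ⟨T, hT⟩ := hne
          exact ⟨T, hT, by simp⟩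
        | insert φ F hφ ih =>
          obtain ⟨T, hT, hTF⟩ := ih (fun ψ hψ => hF (Finset.mem_coe.2
            (Finset.mem_insert_of_mem (Finset.mem_coe.1 hψ))))
          obtain ⟨T', hT', hφT'⟩ := hF (Finset.mem_coe.2 (Finset.mem_insert_self φ F))
          rcases hchain.total hT hT' with h | h
          · refine ⟨T', hT', ?_⟩
            rw [Finset.coe_insert]
            exact Set.insert_subset hφT' (hTF.trans h)
          · refine ⟨T, hT, ?_⟩
            rw [Finset.coe_insert]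
            exact Set.insert_subset (h hφT') hTF
      obtain ⟨T, hT, hTF⟩ := hex
      exact hc hT F hTF
    · refine ⟨∅, ?_, fun s hs => absurd ⟨s, hs⟩ hne⟩
      intro F hF
      refine ⟨x0, hx0, fun φ hφ => absurd (hF (Finset.mem_coe.2 hφ)) (Set.notMem_empty φ)⟩)
  obtain ⟨ζ, hζ⟩ := exists_zero1 (R := R)
  obtain ⟨b, hbI, hbq, hbmax⟩ := hN.realize' (liftPP '' q) {ζ} ⟨ζ, rfl⟩ (by
    rintro _ rfl _ rfl
    exact ⟨_, rfl, fun x y hx hy => sat1_add _ hx hy⟩) (by
    rintro F hF _ rfl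
    -- pull back `F`
    have : ∃ F' : Finset (PP R₀ Unit), (↑F' : Set (PP R₀ Unit)) ⊆ q ∧ F'.image liftPP = F := by
      obtain ⟨F', hF', hF''⟩ := Finset.subset_set_image_iff.1 hF
      exact ⟨F', hF', hF''⟩
    obtain ⟨F', hF', rfl⟩ := this
    obtain ⟨x, hx, hx'⟩ := hq.1 F' hF'
    refine ⟨x, fun φ hφ => ?_, fun h => hx ((hζ N x).1 h)⟩
    obtain ⟨φ', hφ', rfl⟩ := Finset.mem_image.1 hφ
    rw [sat1_liftPP]
    exact hx' φ' hφ')
  have hb0 : b ≠ 0 := fun h => hbI ζ rfl ((hζ N b).2 h)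
  refine ⟨b, hb0, fun h hh => ?_, fun β hβ => ?_⟩
  · rw [← hζ N]
    refine hN.indec.nonunit_of_max hN.ac ζ b (fun h => hb0 ((hζ N b).1 h)) (fun χ hχ => ?_) h hh
    obtain ⟨α, hα, γ, hγ, h2⟩ := hbmax χ hχ
    rw [Set.mem_singleton_iff.1 hγ] at h2
    exact ⟨α, hα, h2⟩
  · have hβq : β ∉ q := by
      intro h
      apply hβ
      rw [← sat1_liftPP]
      exact hbq _ ⟨β, h, rfl⟩
    have hnot : insert β q ∉ 𝒯 := by
      intro h
      exact hβq (hq.2 h (Set.subset_insert β q) (Set.mem_insert β q))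
    simp only [𝒯, Set.mem_ofPred_eq, not_forall] at hnot
    obtain ⟨F, hF, hF'⟩ := hnot
    obtain ⟨α, hα⟩ := exists_conj (F.filter (fun φ => φ ≠ β)).toList
    refine ⟨α, ?_, fun x hx hβx => ?_⟩
    · unfold sat1
      rw [hα]
      intro φ hφ
      have h1 := Finset.mem_filter.1 (Finset.mem_toList.1 hφ)
      have h2 := hF (Finset.mem_coe.2 h1.1)
      rcases h2 with h2 | h2
      · exact absurd h2 h1.2
      · have := hbq _ ⟨φ, h2, rfl⟩
        rw [sat1_liftPP] at this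
        exact this
    · by_contra hx0
      apply hF'
      refine ⟨x, hx0, fun φ hφ => ?_⟩
      by_cases h : φ = β
      · rw [h]; exact hβx
      · exact (hα N _).1 hx φ (Finset.mem_toList.2 (Finset.mem_filter.2 ⟨hφ, h⟩))

/-- the key statement -/
theorem key_star {X : Type} [Finite X] {φ₀ ψ₀ : PP R₀ X}
    (hN : Setting R (liftPP φ₀) (liftPP ψ₀) N) (hflat : FlatIn R₀) (b : N) (hb : b ≠ 0)
    (θ : PP R₀ Unit) (a : N) (ha : ∀ h : Module.End R N, ¬ IsUnit h → sat1 θ (h a)) :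
    ∃ ρ : PP R₀ (Unit ⊕ {c : R // ∀ r : R, c * r = r * c}),
      sat ρ (Sum.elim (fun _ => a) (fun c => c.1 • b)) ∧
      ∀ x : N, sat ρ (Sum.elim (fun _ => x) (fun _ => 0)) → sat1 θ x := by
  classical
  by_contra hcon
  push Not at hcon
  let Z := {c : R // ∀ r : R, c * r = r * c}
  let ι := {ρ : PP R₀ (Unit ⊕ Z) // sat ρ (Sum.elim (fun _ => a) (fun c => c.1 • b))}
  have hcon' : ∀ ρ : ι, ∃ x : N, sat ρ.1 (Sum.elim (fun _ => x) (fun _ => 0)) ∧ ¬ sat1 θ x :=
    fun ρ => hcon ρ.1 ρ.2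
  choose x hx hxθ using hcon'
  let le : ι → ι → Prop := fun ρ ρ' => ∀ x : N, sat ρ'.1 (Sum.elim (fun _ => x) (fun _ => 0)) →
    sat ρ.1 (Sum.elim (fun _ => x) (fun _ => 0))
  have hdir : ∀ i j : ι, ∃ k : ι, le i k ∧ le j k := by
    intro i j
    obtain ⟨χ, hχ⟩ := exists_and i.1 j.1
    exact ⟨⟨χ, (hχ N _).2 ⟨i.2, j.2⟩⟩, fun x hx => ((hχ N _).1 hx).1, fun x hx => ((hχ N _).1 hx).2⟩
  let i0 : ι := ⟨[], ⟨fun _ => 0, fun _ he => absurd he List.not_mem_nil⟩⟩
  let l : Filter ι := ⨅ i : ι, Filter.principal {j | le i j}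
  have hlmem : ∀ s : Set ι, s ∈ l ↔ ∃ i, {j | le i j} ⊆ s := by
    intro s
    have : Nonempty ι := ⟨i0⟩
    rw [Filter.mem_iInf_of_directed]
    · simp [Filter.mem_principal]
    · intro i j
      obtain ⟨k, h1, h2⟩ := hdir i j
      refine ⟨k, ?_, ?_⟩
      · change Filter.principal _ ≤ Filter.principal _
        rw [Filter.le_principal_iff, Filter.mem_principal]
        intro m hm x hx
        exact h1 x (hm x hx)
      · change Filter.principal _ ≤ Filter.principal _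
        rw [Filter.le_principal_iff, Filter.mem_principal]
        intro m hm x hx
        exact h2 x (hm x hx)
  let M := RedProd R₀ l (fun _ : ι => N)
  let c' : M := Submodule.Quotient.mk x
  have hMD : InD φ₀ ψ₀ M := InD.redProd _ _ (fun _ => hN.inD.descend)
  have hc'θ : ¬ sat1 θ c' := by
    intro h
    have h1 : ∀ᶠ i in l, sat θ (fun _ : Unit => x i) :=
      (sat_redProd l (fun _ : ι => N) θ (fun _ => x)).1 h
    obtain ⟨i, hi⟩ := (hlmem _).1 h1
    exact hxθ i (hi (fun x hx => hx))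
  have hc'ρ : ∀ ρ : PP R₀ (Unit ⊕ Z), sat ρ (Sum.elim (fun _ => a) (fun c => c.1 • b)) →
      sat ρ (Sum.elim (fun _ => c') (fun _ => 0)) := by
    intro ρ hρ
    have h1 := (sat_redProd l (fun _ : ι => N) ρ
      (Sum.elim (fun _ => x) (fun _ => fun _ => 0))).2 (by
      change _ ∈ l
      rw [hlmem]
      refine ⟨⟨ρ, hρ⟩, fun j hj => ?_⟩
      have h2 := hj (x j) (hx j)
      change sat ρ _
      convert h2 using 2 with t
      cases t <;> rfl)
    convert h1 using 2 with t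
    cases t <;> rfl
  -- embed
  obtain ⟨g, hg⟩ := (DD.ac (R := R₀) (M := M)).extend (M := N)
    (Sum.elim (fun _ => a) (fun c : Z => c.1 • b))
    (Sum.elim (fun _ : Unit => DD.iota R₀ M c') (fun _ : Z => 0)) (by
      intro ρ hρ
      have := sat_map ρ (DD.iota R₀ M) (hc'ρ ρ hρ)
      convert this using 2 with t
      cases t with
      | inl _ => rfl
      | inr _ => simp)
  have hga : g a = DD.iota R₀ M c' := hg (Sum.inl ())
  have hgb : ∀ c : R, (∀ r : R, c * r = r * c) → g (c • b) = 0 := fun c hc => hg (Sum.inr ⟨c, hc⟩)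
  -- the coinduced module
  let f : N →ₗ[R] Coind R₀ (DD M) :=
    { toFun := fun n => Coind.mk (fun r => g (r • n)) (fun r s => by rw [add_smul, map_add])
        (fun r₀ s => by
          rw [mul_smul]
          exact map_smul g r₀ (s • n))
      map_add' := by
        intro m n
        apply Coind.ext
        intro r
        simp [smul_add]
      map_smul' := by
        intro s n
        apply Coind.ext
        intro r
        simp [mul_smul] }
  have hf : ∀ n r, (f n).app r = g (r • n) := fun n r => rfl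
  have hfb : f b = 0 := by
    apply Coind.ext
    intro r
    rw [hf, Coind.zero_app]
    obtain ⟨q, c, w, hc, _, hz⟩ := hflat Unit Finset.univ [] (by simp) (fun _ => r) (by simp)
    have hr : r = _ := hz () (Finset.mem_univ _)
    rw [hr, Finset.sum_smul, map_sum]
    apply Finset.sum_eq_zero
    intro μ _
    rw [hc μ, mul_smul]
    have : g ((w μ () : R) • (c μ • b)) = (w μ ()) • g (c μ • b) := map_smul g (w μ ()) (c μ • b)
    rw [this, hgb _ (hc μ), smul_zero]
  have hfa : ¬ sat1 (liftPP θ) (f a) := by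
    intro h
    rw [sat1_liftPP] at h
    have h1 := sat1_map θ (Coind.evalC (P := DD M) (1:R) (by simp)) h
    have h2 : (Coind.evalC (R₀ := R₀) (P := DD M) (1:R) (by simp)) (f a) = DD.iota R₀ M c' := by
      change (f a).app 1 = _
      rw [hf, one_smul, hga]
    rw [h2] at h1
    exact hc'θ (DD.pure θ _ h1)
  have hQD : InD (liftPP φ₀) (liftPP ψ₀) (Coind R₀ (DD M)) :=
    Coind.inD hflat DD.ac φ₀ ψ₀ (DD.imp φ₀ ψ₀ hMD)
  obtain ⟨a', ha'θ, ha', _⟩ := hN.realize {liftPP θ} ⟨_, rfl⟩ (by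
    rintro _ rfl _ rfl
    exact ⟨_, rfl, fun M _ _ _ x y hx hy => sat1_add _ hx hy⟩) (Coind R₀ (DD M)) hQD (f a) (by
    rintro _ rfl
    exact hfa)
  obtain ⟨g', hg'⟩ := hN.ac.extend1 (f a) a' ha'
  have hnu : ¬ IsUnit (g' ∘ₗ f : Module.End R N) := by
    rintro ⟨u, hu⟩
    apply hb
    have h1 : ((u⁻¹ : (Module.End R N)ˣ) : Module.End R N) ((u : Module.End R N) b) = b := by
      have : ((u⁻¹ : (Module.End R N)ˣ) : Module.End R N) * (u : Module.End R N) = 1 := by simp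
      exact DFunLike.congr_fun this b
    rw [hu, LinearMap.comp_apply, hfb, map_zero, map_zero] at h1
    exact h1.symm
  have := ha _ hnu
  rw [LinearMap.comp_apply, hg'] at this
  apply ha'θ _ rfl
  rw [sat1_liftPP]
  exact this

/-- The decomposition. -/
theorem decompose {X : Type} [Finite X] {φ₀ ψ₀ : PP R₀ X}
    (hN : Setting R (liftPP φ₀) (liftPP ψ₀) N) (hflat : FlatIn R₀) (b : N) (hb : b ≠ 0)
    (hbmax : ∀ β : PP R₀ Unit, ¬ sat1 β b → ∃ α : PP R₀ Unit, sat1 α b ∧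
        ∀ x : N, sat1 α x → sat1 β x → x = 0)
    (θ : PP R₀ Unit) (a : N) (ha : ∀ h : Module.End R N, ¬ IsUnit h → sat1 θ (h a)) :
    ∃ (T : Type) (_ : Fintype T) (c : T → R) (a' : T → N) (ρ : T → PP R₀ (Unit ⊕ Unit)),
      (∀ j, ∀ r : R, c j * r = r * c j) ∧ (∀ j, sat2 (ρ j) (a' j) b) ∧
      (∀ j, ∀ x : N, sat2 (ρ j) x 0 → sat1 θ x) ∧ sat1 θ (a - ∑ j, c j • a' j) := by
  classical
  -- the property to be minimised
  let Q : ℕ → Prop := fun n => ∃ (T : Type) (_ : Fintype T) (_ : Fintype.card T = n) (c : T → R)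
    (ρ : PP R₀ (Unit ⊕ T)), (∀ j, ∀ r : R, c j * r = r * c j) ∧
      sat ρ (Sum.elim (fun _ => a) (fun j => c j • b)) ∧
      ∀ x : N, sat ρ (Sum.elim (fun _ => x) (fun _ => 0)) → sat1 θ x
  have hQ : ∃ n, Q n := by
    obtain ⟨ρ, hρ1, hρ2⟩ := key_star hN hflat b hb θ a ha
    -- the finite set of central elements used
    let Z := {c : R // ∀ r : R, c * r = r * c}
    let T : Finset Z := (ρ.toFinset.biUnion fun e => e.support).preimage
      (fun z : Z => (Sum.inl (Sum.inr z) : (Unit ⊕ Z) ⊕ ℕ)) (by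
        intro x _ y _ h
        simpa using h)
    have hT : ∀ e ∈ ρ, ∀ z : Z, Sum.inl (Sum.inr z) ∈ e.support → z ∈ T := by
      intro e he z hz
      exact Finset.mem_preimage.2 (Finset.mem_biUnion.2 ⟨e, List.mem_toFinset.2 he, hz⟩)
    obtain ⟨ρ', hρ'⟩ := exists_subst (Z := Unit ⊕ T) ρ (Sum.elim
      (fun _ => Finsupp.single (Sum.inl ()) (1 : R₀))
      (fun z => if h : z ∈ T then Finsupp.single (Sum.inr ⟨z, h⟩) (1 : R₀) else 0))
    have hev : ∀ (x : N) (v : Z → N),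
        sat ρ' (Sum.elim (fun _ => x) (fun z => v z.1)) ↔ sat ρ (Sum.elim (fun _ => x) v) := by
      intro x v
      rw [hρ']
      have hag : ∀ e ∈ ρ, ∀ t, Sum.inl t ∈ e.support →
          ev (Sum.elim (fun _ => x) (fun z => v z.1) : Unit ⊕ T → N) ((Sum.elim
          (fun _ => Finsupp.single (Sum.inl ()) (1 : R₀))
          (fun z => if h : z ∈ T then Finsupp.single (Sum.inr ⟨z, h⟩) (1 : R₀) else 0)) t :
            (Unit ⊕ T) →₀ R₀) = Sum.elim (fun _ => x) v t := by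
        intro e he t ht
        cases t with
        | inl _ => simp
        | inr z =>
          have := hT e he z ht
          simp [this]
      constructor
      · exact sat_congr ρ hag
      · exact sat_congr ρ (fun e he t ht => (hag e he t ht).symm)
    refine ⟨Fintype.card T, T, inferInstance, rfl, fun j => j.1.1, ρ', fun j r => j.1.2 r, ?_, ?_⟩
    · exact (hev a (fun z => z.1 • b)).2 hρ1
    · intro x hx
      exact hρ2 x ((hev x (fun _ => 0)).1 hx)
  obtain ⟨T, i1, hcard, c, ρ, hc, hρ1, hρ2⟩ := Nat.find_spec hQ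
  have hmin := fun m (h : m < Nat.find hQ) => Nat.find_min hQ h
  -- independence
  have hind : ∀ (j : T) (τ : PP R₀ T), sat τ (fun i => c i • b) →
      sat τ (fun i => if i = j then b else 0) := by
    intro j τ hτ
    by_contra hcon
    obtain ⟨β, hβ⟩ := exists_subst (Z := Unit) τ
      (fun i => if i = j then Finsupp.single () (1 : R₀) else 0)
    have hβ' : ∀ y : N, sat1 β y ↔ sat τ (fun i => if i = j then y else 0) := by
      intro y
      unfold sat1
      rw [hβ]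
      have : (fun i => ev (fun _ : Unit => y) (if i = j then Finsupp.single () (1 : R₀) else 0)) =
          fun i => if i = j then y else 0 := by
        funext i
        by_cases h : i = j <;> simp [h]
      rw [this]
    obtain ⟨α, hα, hαβ⟩ := hbmax β (by rw [hβ']; exact hcon)
    let T' := {i : T // i ≠ j}
    -- renamings into `(Unit ⊕ T') ⊕ Unit`
    let gT : T → ((Unit ⊕ T') ⊕ Unit) := fun i =>
      if h : i = j then Sum.inr () else Sum.inl (Sum.inr ⟨i, h⟩)
    obtain ⟨ρ1, hρ1'⟩ := exists_rename ρ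
      (Sum.elim (fun _ => Sum.inl (Sum.inl ())) gT : Unit ⊕ T → ((Unit ⊕ T') ⊕ Unit))
    obtain ⟨τ1, hτ1⟩ := exists_rename τ gT
    obtain ⟨α1, hα1⟩ := exists_rename α (fun _ => (Sum.inr () : (Unit ⊕ T') ⊕ Unit))
    obtain ⟨σ1, hσ1⟩ := exists_and ρ1 τ1
    obtain ⟨σ2, hσ2⟩ := exists_and σ1 α1
    obtain ⟨σ, hσ⟩ := exists_ex σ2
    have hσ' : ∀ (x : N) (v : T' → N), sat σ (Sum.elim (fun _ => x) v) ↔
        ∃ u : N, sat ρ (Sum.elim (fun _ => x) (fun i => if h : i = j then u else v ⟨i, h⟩)) ∧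
          sat τ (fun i => if h : i = j then u else v ⟨i, h⟩) ∧ sat1 α u := by
      intro x v
      rw [hσ]
      have e1 : ∀ u : Unit → N, (fun t : Unit ⊕ T => (Sum.elim (Sum.elim (fun _ => x) v) u :
          (Unit ⊕ T') ⊕ Unit → N) ((Sum.elim (fun _ => Sum.inl (Sum.inl ())) gT :
            Unit ⊕ T → ((Unit ⊕ T') ⊕ Unit)) t)) =
          Sum.elim (fun _ => x) (fun i => if h : i = j then u () else v ⟨i, h⟩) := by
        intro u
        funext t
        cases t with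
        | inl _ => rfl
        | inr i =>
          by_cases h : i = j
          · simp [gT, h]
          · simp [gT, h]
      have e2 : ∀ u : Unit → N, (fun t : T => (Sum.elim (Sum.elim (fun _ => x) v) u :
          (Unit ⊕ T') ⊕ Unit → N) (gT t)) =
          (fun i => if h : i = j then u () else v ⟨i, h⟩) := by
        intro u
        funext i
        by_cases h : i = j
        · simp [gT, h]
        · simp [gT, h]
      constructor
      · rintro ⟨u, hu⟩
        rw [hσ2, hσ1, hρ1', hτ1, hα1, e1, e2] at hu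
        exact ⟨u (), hu.1.1, hu.1.2, hu.2⟩
      · rintro ⟨u, h1, h2, h3⟩
        refine ⟨fun _ => u, ?_⟩
        rw [hσ2, hσ1, hρ1', hτ1, hα1, e1, e2]
        exact ⟨⟨h1, h2⟩, h3⟩
    have hlt : Fintype.card T' < Nat.find hQ := by
      rw [← hcard]
      exact Fintype.card_subtype_lt (x := j) (by simp)
    apply hmin _ hlt
    refine ⟨T', inferInstance, rfl, fun i => c i.1, σ, fun i => hc i.1, ?_, ?_⟩
    · rw [hσ']
      refine ⟨c j • b, ?_, ?_, ?_⟩
      · convert hρ1 using 3 with i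
        by_cases h : i = j
        · rw [dif_pos h, h]
        · rw [dif_neg h]
      · convert hτ using 2 with i
        by_cases h : i = j
        · rw [dif_pos h, h]
        · rw [dif_neg h]
      · exact sat1_map α (mulC N (c j) (hc j)) hα
    · intro x hx
      have hx' := (hσ' x (fun _ => 0)).1 hx
      obtain ⟨u, h1, h2, h3⟩ := hx'
      have hu : u = 0 := by
        apply hαβ u h3
        rw [hβ']
        convert h2 using 2 with i
        by_cases h : i = j <;> simp [h]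
      apply hρ2 x
      convert h1 using 3 with i
      by_cases h : i = j
      · rw [dif_pos h, hu]
      · rw [dif_neg h]
  -- endomorphisms over `R₀`
  have hNAC : AC R₀ N := hN.ac.restrict
  choose hh hhh using fun j => hNAC.extend (fun i : T => c i • b)
    (fun i => if i = j then b else 0) (hind j)
  let a' : T → N := fun j => hh j a
  have hρj : ∀ j, ∃ ρj : PP R₀ (Unit ⊕ Unit), ∀ x y : N, sat2 ρj x y ↔
      sat ρ (Sum.elim (fun _ => x) (fun i => if i = j then y else 0)) := by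
    intro j
    obtain ⟨χ, hχ⟩ := exists_subst (Z := Unit ⊕ Unit) ρ (Sum.elim
      (fun _ => Finsupp.single (Sum.inl ()) (1 : R₀))
      (fun i => if i = j then Finsupp.single (Sum.inr ()) (1 : R₀) else 0))
    refine ⟨χ, fun x y => ?_⟩
    unfold sat2
    rw [hχ]
    have : (fun t : Unit ⊕ T => ev (Sum.elim (fun _ => x) (fun _ => y) : Unit ⊕ Unit → N) ((Sum.elim
      (fun _ => Finsupp.single (Sum.inl ()) (1 : R₀))
      (fun i => if i = j then Finsupp.single (Sum.inr ()) (1 : R₀) else 0)) t :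
        (Unit ⊕ Unit) →₀ R₀)) =
      Sum.elim (fun _ => x) (fun i => if i = j then y else 0) := by
      funext t
      cases t with
      | inl _ => simp
      | inr i => by_cases h : i = j <;> simp [h]
    rw [this]
  choose ρ' hρ' using hρj
  have hsat : ∀ j, sat ρ (Sum.elim (fun _ => a' j) (fun i => if i = j then b else 0)) := by
    intro j
    have := sat_map ρ (hh j) hρ1
    convert this using 2 with t
    cases t with
    | inl _ => rfl
    | inr i => exact (hhh j i).symm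
  refine ⟨T, i1, c, a', ρ', hc, ?_, ?_, ?_⟩
  · intro j
    rw [hρ']
    exact hsat j
  · intro j x hx
    rw [hρ'] at hx
    apply hρ2 x
    convert hx using 3 with i
    simp
  · apply hρ2
    have h1 : ∀ j ∈ (Finset.univ : Finset T), sat ρ (fun t => c j •
        (Sum.elim (fun _ => a' j) (fun i => if i = j then b else 0) : Unit ⊕ T → N) t) :=
      fun j _ => sat_map ρ (mulC N (c j) (hc j)) (hsat j)
    have h2 := sat_sub ρ hρ1 (sat_sum ρ Finset.univ _ h1)
    convert h2 using 2 with t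
    cases t with
    | inl _ => simp
    | inr i =>
      simp only [Sum.elim_inr]
      rw [Finset.sum_eq_single i]
      · simp
      · intro j _ hj
        rw [if_neg (Ne.symm hj), smul_zero]
      · intro h; exact absurd (Finset.mem_univ i) h

theorem step_exists (b : N)
    (hbmax : ∀ β : PP R₀ Unit, ¬ sat1 β b → ∃ α : PP R₀ Unit, sat1 α b ∧
        ∀ x : N, sat1 α x → sat1 β x → x = 0)
    (hnomin : ∀ θ : PP R₀ Unit, (∃ x : N, ¬ sat1 θ x) → ∃ β : PP R₀ Unit,
      (∀ x : N, sat1 θ x → sat1 β x) ∧ (∃ x : N, sat1 β x ∧ ¬ sat1 θ x) ∧ ∃ x : N, ¬ sat1 β x)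
    (θ : PP R₀ Unit) (hθ : ∃ x : N, ¬ sat1 θ x) (ρ : PP R₀ (Unit ⊕ Unit)) :
    ∃ θ' : PP R₀ Unit, (∀ x : N, sat1 θ x → sat1 θ' x) ∧ (∃ x : N, ¬ sat1 θ' x) ∧
      ((∀ x : N, sat2 ρ x 0 → sat1 θ x) → ∀ a' : N, sat2 ρ a' b → sat1 θ' a') := by
  by_cases h1 : ∀ x : N, sat2 ρ x 0 → sat1 θ x
  swap
  · exact ⟨θ, fun _ h => h, hθ, fun h => absurd h h1⟩
  by_cases h2 : ∃ a', sat2 ρ a' b
  swap
  · exact ⟨θ, fun _ h => h, hθ, fun _ a' ha' => absurd ⟨a', ha'⟩ h2⟩
  obtain ⟨a₁, ha₁⟩ := h2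
  have huniq : ∀ θ' : PP R₀ Unit, (∀ x : N, sat1 θ x → sat1 θ' x) → sat1 θ' a₁ →
      ∀ a' : N, sat2 ρ a' b → sat1 θ' a' := by
    intro θ' hle hθ' a' ha'
    have h3 := sat2_sub ρ ha' ha₁
    rw [sub_self] at h3
    have h4 := sat1_add θ' (hle _ (h1 _ h3)) hθ'
    rwa [sub_add_cancel] at h4
  obtain ⟨β, hβ1, ⟨z, hz1, hz2⟩, hβ3⟩ := hnomin θ hθ
  by_cases hβa : sat1 β a₁
  · exact ⟨β, hβ1, hβ3, fun _ => huniq β hβ1 hβa⟩
  obtain ⟨β1, hβ1'⟩ := exists_fst β
  obtain ⟨β2, hβ2'⟩ := exists_and2 β1 ρ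
  obtain ⟨β', hβ'⟩ := exists_exfst β2
  have hβ'' : ∀ y : N, sat1 β' y ↔ ∃ x : N, sat1 β x ∧ sat2 ρ x y := by
    intro y
    rw [hβ']
    simp only [hβ2', hβ1']
  have hβb : ¬ sat1 β' b := by
    rw [hβ'']
    rintro ⟨x, hx1, hx2⟩
    apply hβa
    have h3 := sat2_sub ρ ha₁ hx2
    rw [sub_self] at h3
    have h4 := sat1_add β (hβ1 _ (h1 _ h3)) hx1
    rwa [sub_add_cancel] at h4
  obtain ⟨α', hα'b, hα'⟩ := hbmax β' hβb
  obtain ⟨α1, hα1⟩ := exists_snd α'
  obtain ⟨α2, hα2⟩ := exists_and2 ρ α1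
  obtain ⟨α3, hα3⟩ := exists_exsnd α2
  obtain ⟨α, hα⟩ := exists_sum θ α3
  have hα3' : ∀ x : N, sat1 α3 x ↔ ∃ y : N, sat2 ρ x y ∧ sat1 α' y := by
    intro x
    rw [hα3]
    simp only [hα2, hα1]
  refine ⟨α, fun x hx => (hα N x).2 ⟨x, 0, hx, sat1_zero _, by simp⟩, ⟨z, ?_⟩,
    fun _ => huniq α (fun x hx => (hα N x).2 ⟨x, 0, hx, sat1_zero _, by simp⟩)
      ((hα N a₁).2 ⟨0, a₁, sat1_zero _, (hα3' a₁).2 ⟨b, ha₁, hα'b⟩, by simp⟩)⟩
  intro hz
  obtain ⟨x₁, x₂, hx₁, hx₂, rfl⟩ := (hα N z).1 hz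
  obtain ⟨y, hy1, hy2⟩ := (hα3' x₂).1 hx₂
  have hβx₂ : sat1 β x₂ := by
    have := sat1_sub β hz1 (hβ1 _ hx₁)
    rwa [add_sub_cancel_left] at this
  have hy0 : y = 0 := hα' y hy2 ((hβ'' y).2 ⟨x₂, hβx₂, hy1⟩)
  rw [hy0] at hy1
  exact hz2 (sat1_add θ hx₁ (h1 x₂ hy1))

theorem caseA {X : Type} [Finite X] {φ₀ ψ₀ : PP R₀ X} [Countable R₀]
    (hN : Setting R (liftPP φ₀) (liftPP ψ₀) N) (hflat : FlatIn R₀)
    (hnomin : ∀ θ : PP R₀ Unit, (∃ x : N, ¬ sat1 θ x) → ∃ β : PP R₀ Unit,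
      (∀ x : N, sat1 θ x → sat1 β x) ∧ (∃ x : N, sat1 β x ∧ ¬ sat1 θ x) ∧ ∃ x : N, ¬ sat1 β x) :
    False := by
  classical
  obtain ⟨b, hb0, hbJ, hbmax⟩ := exists_b hN R₀
  choose step hstep1 hstep2 hstep3 using step_exists (R₀ := R₀) b hbmax hnomin
  have : Nonempty (PP R₀ (Unit ⊕ Unit)) := ⟨[]⟩
  obtain ⟨enum, henum⟩ := exists_surjective_nat (PP R₀ (Unit ⊕ Unit))
  obtain ⟨ζ₀, hζ₀⟩ := exists_zero1 (R := R₀)
  have hζ₀' : ∃ x : N, ¬ sat1 ζ₀ x := ⟨b, fun h => hb0 ((hζ₀ N b).1 h)⟩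
  let seq : ℕ → {θ : PP R₀ Unit // ∃ x : N, ¬ sat1 θ x} := fun n =>
    Nat.rec ⟨ζ₀, hζ₀'⟩ (fun n θ => ⟨step θ.1 θ.2 (enum (Nat.unpair n).2), hstep2 _ _ _⟩) n
  have hseq : ∀ n, (seq (n + 1)).1 = step (seq n).1 (seq n).2 (enum (Nat.unpair n).2) :=
    fun n => rfl
  have hmono : ∀ m n, m ≤ n → ∀ x : N, sat1 (seq m).1 x → sat1 (seq n).1 x := by
    intro m n hmn
    induction n, hmn using Nat.le_induction with
    | base => exact fun x hx => hx
    | succ n _ ih =>
      intro x hx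
      rw [hseq]
      exact hstep1 _ _ _ x (ih x hx)
  obtain ⟨a, haI, _, hamax⟩ := hN.realize' ∅ (Set.range fun n => liftPP (seq n).1)
    ⟨_, ⟨0, rfl⟩⟩ (by
    rintro _ ⟨m, rfl⟩ _ ⟨n, rfl⟩
    refine ⟨_, ⟨max m n, rfl⟩, fun x y hx hy => ?_⟩
    simp only [sat1_liftPP] at hx hy ⊢
    exact sat1_add _ (hmono m _ (le_max_left _ _) x hx) (hmono n _ (le_max_right _ _) y hy)) (by
    rintro F hF _ ⟨n, rfl⟩
    obtain ⟨x, hx⟩ := (seq n).2
    refine ⟨x, fun φ hφ => absurd (hF (Finset.mem_coe.2 hφ)) (Set.notMem_empty φ), ?_⟩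
    simp only [sat1_liftPP]
    exact hx)
  have haI' : ∀ n, ¬ sat1 (seq n).1 a := by
    intro n h
    apply haI _ ⟨n, rfl⟩
    simp only [sat1_liftPP]
    exact h
  have ha0 : a ≠ 0 := by
    rintro rfl
    exact haI' 0 (sat1_zero _)
  -- link with `b`
  obtain ⟨ζ, hζ⟩ := exists_zero1 (R := R)
  obtain ⟨ρ, hρ1, hρ2⟩ := hN.indec.link hN.ac a b ha0 ζ (fun h => hb0 ((hζ N b).1 h))
  obtain ⟨χ, hχ⟩ := exists_subst (Z := Unit) ρ
    (Sum.elim (fun _ => Finsupp.single () (1:R)) (fun _ => 0))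
  have hχ' : ∀ x : N, sat1 χ x ↔ sat2 ρ x 0 := by
    intro x
    unfold sat1 sat2
    rw [hχ]
    have : (fun t : Unit ⊕ Unit => ev (fun _ : Unit => x) ((Sum.elim
      (fun _ => Finsupp.single () (1:R)) (fun _ => 0)) t : Unit →₀ R)) =
      Sum.elim (fun _ => x) (fun _ => 0) := by
      funext t; cases t <;> simp
    rw [this]
  obtain ⟨α, hα, _, ⟨i, rfl⟩, hαi⟩ := hamax χ (by
    rw [hχ']
    exact hρ2 0 ((hζ N 0).2 rfl))
  have haJ : ∀ h : Module.End R N, ¬ IsUnit h → sat1 (seq i).1 (h a) := by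
    intro h hh
    rw [← sat1_liftPP]
    apply hαi
    · exact sat1_map α h hα
    · rw [hχ']
      have := sat2_map ρ h hρ1
      rwa [hbJ h hh] at this
  obtain ⟨T, i1, c, a', ρ', hc, hρ'1, hρ'2, hsum⟩ :=
    decompose hN hflat b hb0 hbmax (seq i).1 a haJ
  have hex : ∀ j, ∃ n, sat1 (seq n).1 (a' j) := by
    intro j
    obtain ⟨m, hm⟩ := henum (ρ' j)
    refine ⟨Nat.pair i m + 1, ?_⟩
    rw [hseq]
    apply hstep3
    · rw [Nat.unpair_pair, hm]
      intro x hx
      exact hmono i _ (Nat.left_le_pair i m) x (hρ'2 j x hx)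
    · rw [Nat.unpair_pair, hm]
      exact hρ'1 j
  choose n hn using hex
  let n0 := max i (Finset.univ.sup n)
  apply haI' n0
  have h1 : sat1 (seq n0).1 (a - ∑ j, c j • a' j) := hmono i n0 (le_max_left _ _) _ hsum
  have h2 : sat1 (seq n0).1 (∑ j, c j • a' j) := by
    have : ∀ j ∈ (Finset.univ : Finset T), sat (seq n0).1 (fun _ : Unit => c j • a' j) := by
      intro j _
      have h3 : sat1 (seq n0).1 (a' j) := hmono (n j) n0
        ((Finset.le_sup (Finset.mem_univ j)).trans (le_max_right _ _)) _ (hn j)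
      exact sat1_map _ (mulC N (c j) (hc j)) h3
    have h4 := sat_sum (seq n0).1 Finset.univ (fun j (_ : Unit) => c j • a' j) this
    exact h4
  have := sat1_add _ h1 h2
  rwa [sub_add_cancel] at this

end

end Pool.Agent.RZ
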