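import Pool.Agent.Lib.MP_cd53cf_al.Realize

set_option autoImplicit false

/-!
Linking, and the case where the lattice of pp definable subgroups has a minimal pair.
-/

namespace Pool.Agent.RZ

/-- satisfaction of a formula in two variables -/
def sat2 {R : Type} [Ring R] {M : Type} [AddCommGroup M] [Module R M] (φ : PP R (Unit ⊕ Unit))
    (x y : M) : Prop := sat φ (Sum.elim (fun _ => x) (fun _ => y))

section formulas

variable {R : Type} [Ring R]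

theorem exists_sum (γ₁ γ₂ : PP R Unit) : ∃ δ : PP R Unit, ∀ (M : Type) [AddCommGroup M]
    [Module R M] (x : M), sat1 δ x ↔ ∃ y z : M, sat1 γ₁ y ∧ sat1 γ₂ z ∧ x = y + z := by
  obtain ⟨α, hα⟩ := exists_subst (Z := Unit ⊕ Unit) γ₁ (fun _ => Finsupp.single (Sum.inr ()) (1:R))
  obtain ⟨β, hβ⟩ := exists_subst (Z := Unit ⊕ Unit) γ₂
    (fun _ => Finsupp.single (Sum.inl ()) (1:R) - Finsupp.single (Sum.inr ()) (1:R))
  obtain ⟨χ, hχ⟩ := exists_and α β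
  obtain ⟨δ, hδ⟩ := exists_ex χ
  refine ⟨δ, fun M _ _ x => ?_⟩
  unfold sat1
  rw [hδ]
  constructor
  · rintro ⟨y, hy⟩
    rw [hχ, hα, hβ] at hy
    simp only [ev_sub, ev_single, Sum.elim_inl, Sum.elim_inr, one_smul] at hy
    exact ⟨y (), x - y (), hy.1, hy.2, by abel⟩
  · rintro ⟨y, z, hy, hz, rfl⟩
    refine ⟨fun _ => y, ?_⟩
    rw [hχ, hα, hβ]
    simp only [ev_sub, ev_single, Sum.elim_inl, Sum.elim_inr, one_smul, add_sub_cancel_left]
    exact ⟨hy, hz⟩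

theorem exists_and1 (γ₁ γ₂ : PP R Unit) : ∃ δ : PP R Unit, ∀ (M : Type) [AddCommGroup M]
    [Module R M] (x : M), sat1 δ x ↔ sat1 γ₁ x ∧ sat1 γ₂ x := by
  obtain ⟨χ, hχ⟩ := exists_and γ₁ γ₂
  exact ⟨χ, fun M _ _ x => hχ M _⟩

theorem exists_zero1 : ∃ δ : PP R Unit, ∀ (M : Type) [AddCommGroup M]
    [Module R M] (x : M), sat1 δ x ↔ x = 0 := by
  refine ⟨eqF (Finsupp.single () 1), fun M _ _ x => ?_⟩
  unfold sat1
  rw [sat_eqF]
  simp

theorem exists_and2 (γ₁ γ₂ : PP R (Unit ⊕ Unit)) : ∃ δ : PP R (Unit ⊕ Unit),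
    ∀ (M : Type) [AddCommGroup M] [Module R M] (x y : M), sat2 δ x y ↔ sat2 γ₁ x y ∧ sat2 γ₂ x y := by
  obtain ⟨χ, hχ⟩ := exists_and γ₁ γ₂
  exact ⟨χ, fun M _ _ x y => hχ M _⟩

/-- `γ(x)` as a formula in `(x,y)` -/
theorem exists_fst (γ : PP R Unit) : ∃ δ : PP R (Unit ⊕ Unit),
    ∀ (M : Type) [AddCommGroup M] [Module R M] (x y : M), sat2 δ x y ↔ sat1 γ x := by
  obtain ⟨β, hβ⟩ := exists_subst (Z := Unit ⊕ Unit) γ (fun _ => Finsupp.single (Sum.inl ()) (1:R))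
  refine ⟨β, fun M _ _ x y => ?_⟩
  unfold sat2
  rw [hβ]
  simp only [ev_single, Sum.elim_inl, one_smul]
  rfl

/-- `γ(y)` as a formula in `(x,y)` -/
theorem exists_snd (γ : PP R Unit) : ∃ δ : PP R (Unit ⊕ Unit),
    ∀ (M : Type) [AddCommGroup M] [Module R M] (x y : M), sat2 δ x y ↔ sat1 γ y := by
  obtain ⟨β, hβ⟩ := exists_subst (Z := Unit ⊕ Unit) γ (fun _ => Finsupp.single (Sum.inr ()) (1:R))
  refine ⟨β, fun M _ _ x y => ?_⟩
  unfold sat2
  rw [hβ]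
  simp only [ev_single, Sum.elim_inr, one_smul]
  rfl

theorem exists_exsnd (ρ : PP R (Unit ⊕ Unit)) : ∃ δ : PP R Unit,
    ∀ (M : Type) [AddCommGroup M] [Module R M] (x : M), sat1 δ x ↔ ∃ y, sat2 ρ x y := by
  obtain ⟨δ, hδ⟩ := exists_ex ρ
  refine ⟨δ, fun M _ _ x => (hδ M _).trans ?_⟩
  constructor
  · rintro ⟨y, hy⟩
    exact ⟨y (), hy⟩
  · rintro ⟨y, hy⟩
    exact ⟨fun _ => y, hy⟩

theorem exists_swap (ρ : PP R (Unit ⊕ Unit)) : ∃ δ : PP R (Unit ⊕ Unit),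
    ∀ (M : Type) [AddCommGroup M] [Module R M] (x y : M), sat2 δ x y ↔ sat2 ρ y x := by
  obtain ⟨β, hβ⟩ := exists_subst (Z := Unit ⊕ Unit) ρ
    (Sum.elim (fun _ => Finsupp.single (Sum.inr ()) (1:R))
      (fun _ => Finsupp.single (Sum.inl ()) (1:R)))
  refine ⟨β, fun M _ _ x y => ?_⟩
  unfold sat2
  rw [hβ]
  have : (fun t : Unit ⊕ Unit => ev (Sum.elim (fun _ => x) (fun _ => y) : Unit ⊕ Unit → M)
      ((Sum.elim (fun _ => Finsupp.single (Sum.inr ()) (1:R))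
      (fun _ => Finsupp.single (Sum.inl ()) (1:R))) t : (Unit ⊕ Unit) →₀ R))
      = Sum.elim (fun _ => y) (fun _ => x) := by
    funext t; cases t <;> simp
  rw [this]

theorem exists_exfst (ρ : PP R (Unit ⊕ Unit)) : ∃ δ : PP R Unit,
    ∀ (M : Type) [AddCommGroup M] [Module R M] (y : M), sat1 δ y ↔ ∃ x, sat2 ρ x y := by
  obtain ⟨ρ', hρ'⟩ := exists_swap ρ
  obtain ⟨δ, hδ⟩ := exists_exsnd ρ'
  refine ⟨δ, fun M _ _ x => (hδ M x).trans ?_⟩
  simp only [hρ']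

end formulas

section

variable {R : Type} [Ring R] {M : Type} [AddCommGroup M] [Module R M]
  {N : Type} [AddCommGroup N] [Module R N]

theorem sat2_map (φ : PP R (Unit ⊕ Unit)) (f : M →ₗ[R] N) {x y : M} (h : sat2 φ x y) :
    sat2 φ (f x) (f y) := by
  have := sat_map φ f h
  unfold sat2
  convert this using 2 with t
  cases t <;> rfl

theorem sat2_sub (φ : PP R (Unit ⊕ Unit)) {x y x' y' : M} (h : sat2 φ x y) (h' : sat2 φ x' y') :
    sat2 φ (x - x') (y - y') := by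
  have := sat_sub φ h h'
  unfold sat2
  convert this using 2 with t
  cases t <;> rfl

theorem sat2_zero (φ : PP R (Unit ⊕ Unit)) : sat2 φ (0 : M) 0 := by
  have := sat_zero (M := M) φ
  unfold sat2
  convert this using 2 with t
  cases t <;> rfl

/-- pp cosets in one variable -/
def PPCoset (R : Type) [Ring R] {M : Type} [AddCommGroup M] [Module R M] (A : Set M) : Prop :=
  ∃ (Z : Type) (φ : PP R (Unit ⊕ Z)) (c : Z → M), ∀ x, x ∈ A ↔ sat φ (Sum.elim (fun _ => x) c)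

theorem AC.fip (hM : AC R M) {ι : Type} [Nonempty ι] (A : ι → Set M)
    (hA : ∀ i, PPCoset R (A i)) (hdir : ∀ i j, ∃ k, A k ⊆ A i ∧ A k ⊆ A j)
    (hne : ∀ i, (A i).Nonempty) : ∃ x, ∀ i, x ∈ A i := by
  classical
  have h1 : ∀ i, ∃ φ : PP R (Unit ⊕ M), ∀ x, x ∈ A i ↔ sat φ (Sum.elim (fun _ => x) id) := by
    intro i
    obtain ⟨Z, φ, c, hφ⟩ := hA i
    obtain ⟨χ, hχ⟩ := exists_subst (Z := Unit ⊕ M) φ
      (Sum.elim (fun _ => Finsupp.single (Sum.inl ()) (1:R))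
        (fun z => Finsupp.single (Sum.inr (c z)) (1:R)))
    refine ⟨χ, fun x => ?_⟩
    rw [hφ, hχ]
    have : (fun t : Unit ⊕ Z => ev (Sum.elim (fun _ => x) id : Unit ⊕ M → M)
      ((Sum.elim (fun _ => Finsupp.single (Sum.inl ()) (1:R))
        (fun z => Finsupp.single (Sum.inr (c z)) (1:R))) t : (Unit ⊕ M) →₀ R))
      = Sum.elim (fun _ => x) c := by
      funext t; cases t <;> simp
    rw [this]
  choose φ hφ using h1
  obtain ⟨x, hx⟩ := hM.saturate (X := Unit) (Z := M) id (Set.range φ) (by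
    intro F hF
    have : ∃ k, ∀ ψ ∈ F, ∃ i, φ i = ψ ∧ A k ⊆ A i := by
      induction F using Finset.induction_on with
      | empty =>
        obtain ⟨i⟩ := (inferInstance : Nonempty ι)
        exact ⟨i, fun ψ hψ => absurd hψ (Finset.notMem_empty ψ)⟩
      | insert ψ F hψ ih =>
        obtain ⟨k, hk⟩ := ih (fun ψ' h => hF (Finset.mem_coe.2 (Finset.mem_insert_of_mem h)))
        obtain ⟨i, hi⟩ := hF (Finset.mem_coe.2 (Finset.mem_insert_self ψ F))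
        obtain ⟨m, hm1, hm2⟩ := hdir k i
        refine ⟨m, fun ψ' h' => ?_⟩
        rcases Finset.mem_insert.1 h' with rfl | h'
        · exact ⟨i, hi, hm2⟩
        · obtain ⟨j, hj1, hj2⟩ := hk ψ' h'
          exact ⟨j, hj1, hm1.trans hj2⟩
    obtain ⟨k, hk⟩ := this
    obtain ⟨x, hx⟩ := hne k
    refine ⟨fun _ => x, fun ψ hψ => ?_⟩
    obtain ⟨i, rfl, hi⟩ := hk ψ hψ
    exact (hφ i x).1 (hi hx))
  refine ⟨x (), fun i => ?_⟩
  rw [hφ]
  exact hx _ ⟨i, rfl⟩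

/-- linking -/
theorem Indec.link (hN : Indec R N) (hAC : AC R N) (a b : N) (ha : a ≠ 0) (θ : PP R Unit)
    (hb : ¬ sat1 θ b) : ∃ ρ : PP R (Unit ⊕ Unit), sat2 ρ a b ∧ ∀ y, sat1 θ y → ¬ sat2 ρ a y := by
  classical
  by_contra hcon
  push Not at hcon
  have hcon' : ∀ ρ : PP R (Unit ⊕ Unit), sat2 ρ a b → ∃ y, sat1 θ y ∧ sat2 ρ a y := hcon
  let ι := {ρ : PP R (Unit ⊕ Unit) // sat2 ρ a b}
  haveI : Nonempty ι := ⟨⟨[], ⟨fun _ => 0, fun _ he => absurd he List.not_mem_nil⟩⟩⟩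
  obtain ⟨y, hy⟩ := hAC.fip (ι := ι) (fun ρ => {y | sat1 θ y ∧ sat2 ρ.1 a y}) (by
    intro ρ
    obtain ⟨ρ', hρ'⟩ := exists_swap ρ.1
    obtain ⟨θ', hθ'⟩ := exists_fst θ
    obtain ⟨δ, hδ⟩ := exists_and2 ρ' θ'
    refine ⟨Unit, δ, fun _ => a, fun y => ?_⟩
    change sat1 θ y ∧ sat2 ρ.1 a y ↔ sat2 δ y a
    rw [hδ, hρ', hθ', and_comm]) (by
    intro ρ₁ ρ₂
    obtain ⟨δ, hδ⟩ := exists_and2 ρ₁.1 ρ₂.1
    refine ⟨⟨δ, (hδ N a b).2 ⟨ρ₁.2, ρ₂.2⟩⟩, fun y hy => ⟨hy.1, ((hδ N a y).1 hy.2).1⟩,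
      fun y hy => ⟨hy.1, ((hδ N a y).1 hy.2).2⟩⟩) (fun ρ => hcon' ρ.1 ρ.2)
  have hyθ : sat1 θ y := (hy ⟨[], ⟨fun _ => 0, fun _ he => absurd he List.not_mem_nil⟩⟩).1
  obtain ⟨h, hh⟩ := hAC.extend (Sum.elim (fun _ : Unit => a) (fun _ : Unit => b))
    (Sum.elim (fun _ : Unit => a) (fun _ : Unit => y)) (fun ρ hρ => (hy ⟨ρ, hρ⟩).2)
  have h1 : h a = a := hh (Sum.inl ())
  have h2 : h b = y := hh (Sum.inr ())
  obtain ⟨u, hu⟩ := hN.isUnit_of_fix hAC h a ha h1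
  have h3 : ((u⁻¹ : (Module.End R N)ˣ) : Module.End R N) y = b := by
    rw [← h2, ← hu]
    have : ((u⁻¹ : (Module.End R N)ˣ) : Module.End R N) * (u : Module.End R N) = 1 := by simp
    exact DFunLike.congr_fun this b
  apply hb
  rw [← h3]
  exact sat1_map θ _ hyθ

/-- non-units move a maximal type omitting `θ` into `θ` -/
theorem Indec.nonunit_of_max (hN : Indec R N) (hAC : AC R N) (θ : PP R Unit) (a : N)
    (ha : ¬ sat1 θ a)
    (hmax : ∀ χ : PP R Unit, ¬ sat1 χ a → ∃ α : PP R Unit, sat1 α a ∧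
        ∀ x : N, sat1 α x → sat1 χ x → sat1 θ x)
    (h : Module.End R N) (hh : ¬ IsUnit h) : sat1 θ (h a) := by
  by_contra hcon
  obtain ⟨g, hg⟩ := hAC.extend1 (h a) a (by
    intro χ hχ
    by_contra hχa
    obtain ⟨α, hα, hα'⟩ := hmax χ hχa
    exact hcon (hα' _ (sat1_map α h hα) hχ))
  apply hh
  apply hN.isUnit_of_comp g h
  apply hN.isUnit_of_fix hAC _ a _ hg
  rintro rfl
  exact ha (sat1_zero θ)

/-- pp definable submodules over the endomorphism ring -/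
def ppSub (R : Type) [Ring R] (N : Type) [AddCommGroup N] [Module R N] (β : PP R Unit) :
    Submodule (Module.End R N) N where
  carrier := {x | sat1 β x}
  add_mem' := fun ha hb => sat1_add β ha hb
  zero_mem' := sat1_zero β
  smul_mem' := fun f _ hx => sat1_map β f hx

@[simp] theorem mem_ppSub (β : PP R Unit) (x : N) : x ∈ ppSub R N β ↔ sat1 β x := Iff.rfl

theorem isFiniteLength_of_le {E V : Type} [Ring E] [AddCommGroup V] [Module E V]
    {A B : Submodule E V} (h : A ≤ B) (hB : IsFiniteLength E B) : IsFiniteLength E A := by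
  rw [isFiniteLength_iff_isNoetherian_isArtinian] at hB ⊢
  obtain ⟨h1, h2⟩ := hB
  exact ⟨isNoetherian_of_le h, isArtinian_of_le h⟩

theorem isFiniteLength_sup {E V : Type} [Ring E] [AddCommGroup V] [Module E V]
    {A B : Submodule E V} (hA : IsFiniteLength E A) (hB : IsFiniteLength E B) :
    IsFiniteLength E (A ⊔ B : Submodule E V) := by
  rw [isFiniteLength_iff_isNoetherian_isArtinian] at hA hB ⊢
  obtain ⟨h1, h2⟩ := hA
  obtain ⟨h3, h4⟩ := hB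
  exact ⟨isNoetherian_sup _ _, isArtinian_sup _ _⟩

/-- if there is nothing strictly between `A` and `B` and `A` has finite length, so has `B` -/
theorem isFiniteLength_of_covered {E V : Type} [Ring E] [AddCommGroup V] [Module E V]
    {A B : Submodule E V} (hAB : A ≤ B) (hA : IsFiniteLength E A)
    (hcov : ∀ W : Submodule E V, A ≤ W → W ≤ B → W ≤ A ∨ B ≤ W) : IsFiniteLength E B := by
  by_cases hBA : B ≤ A
  · have : A = B := le_antisymm hAB hBA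
    rw [← this]; exact hA
  · let A' : Submodule E B := A.comap B.subtype
    have e : A' ≃ₗ[E] A := Submodule.comapSubtypeEquivOfLe hAB
    have hA' : IsFiniteLength E A' := e.symm.isFiniteLength hA
    haveI : IsSimpleModule E (B ⧸ A') := by
      rw [isSimpleModule_iff_isCoatom]
      constructor
      · intro h
        apply hBA
        intro x hx
        have : (⟨x, hx⟩ : B) ∈ A' := by rw [h]; trivial
        exact this
      · intro W hW
        rw [eq_top_iff]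
        rcases hcov (W.map B.subtype) (by
          intro x hx
          exact ⟨⟨x, hAB hx⟩, hW.le (show (⟨x, hAB hx⟩ : B) ∈ A' from hx), rfl⟩) (by
          rintro _ ⟨x, _, rfl⟩
          exact x.2) with h | h
        · exfalso
          apply hW.not_ge
          intro x hx
          exact h ⟨x, hx, rfl⟩
        · intro x _
          obtain ⟨y, hy, hyx⟩ := h x.2
          have : y = x := Subtype.ext hyx
          rw [← this]
          exact hy
    exact IsFiniteLength.of_simple_quotient hA'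

theorem Setting.caseB {X : Type} [Finite X] {φ₀ ψ₀ : PP R X} (hN : Setting R φ₀ ψ₀ N)
    (θ α : PP R Unit) (hle : ∀ x : N, sat1 θ x → sat1 α x) (b' : N) (hb1 : sat1 α b')
    (hb2 : ¬ sat1 θ b')
    (hmin : ∀ β : PP R Unit, (∀ x : N, sat1 θ x → sat1 β x) → (∀ x : N, sat1 β x → sat1 α x) →
      (∀ x : N, sat1 β x → sat1 θ x) ∨ (∀ x : N, sat1 α x → sat1 β x)) :
    IsFiniteLength (Module.End R N) N := by
  classical
  -- transitivity of the endomorphism ring on `α/θ`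
  have htrans : ∀ b c : N, sat1 α b → ¬ sat1 θ b → sat1 α c →
      ∃ h : Module.End R N, sat1 θ (c - h b) := by
    intro b c hb hbθ hc
    have h1 : ∀ β : PP R Unit, sat1 β b → ∃ y z : N, sat1 β y ∧ sat1 θ z ∧ c = y + z := by
      intro β hβ
      obtain ⟨δ, hδ⟩ := exists_and1 α β
      obtain ⟨ε, hε⟩ := exists_sum δ θ
      rcases hmin ε (fun x hx => (hε N x).2 ⟨0, x, sat1_zero _, hx, by simp⟩) (by
        intro x hx
        obtain ⟨y, z, hy, hz, rfl⟩ := (hε N x).1 hx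
        exact sat1_add α ((hδ N y).1 hy).1 (hle z hz)) with h | h
      · exfalso
        exact hbθ (h b ((hε N b).2 ⟨b, 0, (hδ N b).2 ⟨hb, hβ⟩, sat1_zero _, by simp⟩))
      · obtain ⟨y, z, hy, hz, hc⟩ := (hε N c).1 (h c hc)
        exact ⟨y, z, ((hδ N y).1 hy).2, hz, hc⟩
    let ι := {β : PP R Unit // sat1 β b}
    haveI : Nonempty ι := ⟨⟨[], ⟨fun _ => 0, fun _ he => absurd he List.not_mem_nil⟩⟩⟩
    obtain ⟨y, hy⟩ := hN.ac.fip (ι := ι) (fun β => {y | sat1 β.1 y ∧ sat1 θ (c - y)}) (by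
      intro β
      obtain ⟨β', hβ'⟩ := exists_fst β.1
      obtain ⟨θ', hθ'⟩ := exists_subst (Z := Unit ⊕ Unit) θ
        (fun _ => Finsupp.single (Sum.inr ()) (1:R) - Finsupp.single (Sum.inl ()) (1:R))
      obtain ⟨δ, hδ⟩ := exists_and2 β' θ'
      refine ⟨Unit, δ, fun _ => c, fun y => ?_⟩
      change sat1 β.1 y ∧ sat1 θ (c - y) ↔ sat2 δ y c
      rw [hδ, hβ']
      unfold sat2
      rw [hθ']
      simp only [ev_sub, ev_single, Sum.elim_inl, Sum.elim_inr, one_smul]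
      rfl) (by
      intro β₁ β₂
      obtain ⟨δ, hδ⟩ := exists_and1 β₁.1 β₂.1
      refine ⟨⟨δ, (hδ N b).2 ⟨β₁.2, β₂.2⟩⟩, fun y hy => ⟨((hδ N y).1 hy.1).1, hy.2⟩,
        fun y hy => ⟨((hδ N y).1 hy.1).2, hy.2⟩⟩) (by
      intro β
      obtain ⟨y, z, hy, hz, hc⟩ := h1 β.1 β.2
      refine ⟨y, hy, ?_⟩
      rw [hc, add_sub_cancel_left]
      exact hz)
    obtain ⟨h, hh⟩ := hN.ac.extend1 b y (fun β hβ => (hy ⟨β, hβ⟩).1)
    refine ⟨h, ?_⟩
    rw [hh]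
    exact (hy ⟨[], ⟨fun _ => 0, fun _ he => absurd he List.not_mem_nil⟩⟩).2
  by_contra hnot
  let I : Set (PP R Unit) := {β | IsFiniteLength (Module.End R N) (ppSub R N β)}
  obtain ⟨ζ, hζ⟩ := exists_zero1 (R := R)
  have hζI : ζ ∈ I := by
    change IsFiniteLength (Module.End R N) (ppSub R N ζ)
    haveI : Subsingleton (ppSub R N ζ) := ⟨fun x y => by
      apply Subtype.ext
      rw [(hζ N x.1).1 x.2, (hζ N y.1).1 y.2]⟩
    exact IsFiniteLength.of_subsingleton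
  obtain ⟨a, haI, _, hamax⟩ := hN.realize' ∅ I ⟨ζ, hζI⟩ (by
    intro γ₁ h₁ γ₂ h₂
    obtain ⟨δ, hδ⟩ := exists_sum γ₁ γ₂
    refine ⟨δ, ?_, fun x y hx hy => (hδ N _).2 ⟨x, y, hx, hy, rfl⟩⟩
    have : ppSub R N δ ≤ ppSub R N γ₁ ⊔ ppSub R N γ₂ := by
      intro x hx
      obtain ⟨y, z, hy, hz, rfl⟩ := (hδ N x).1 hx
      exact Submodule.add_mem_sup hy hz
    exact isFiniteLength_of_le this (isFiniteLength_sup h₁ h₂)) (by
    intro F hF γ hγ
    have hF' : F = ∅ := by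
      rw [← Finset.coe_eq_empty]
      exact Set.subset_empty_iff.1 hF
    by_contra hcon
    push Not at hcon
    apply hnot
    have htop : (⊤ : Submodule (Module.End R N) N) ≤ ppSub R N γ := by
      intro x _
      exact hcon x (by rw [hF']; simp)
    have h1 := isFiniteLength_of_le htop hγ
    exact Submodule.topEquiv.isFiniteLength h1)
  have ha0 : a ≠ 0 := by
    rintro rfl
    exact haI ζ hζI (sat1_zero ζ)
  obtain ⟨ρ₀, hρ₀, hρ₀'⟩ := hN.indec.link hN.ac a b' ha0 θ hb2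
  -- restrict `ρ₀` to `y ∈ α`
  obtain ⟨α', hα'⟩ := exists_snd α
  obtain ⟨ρ, hρ⟩ := exists_and2 ρ₀ α'
  have hρab : sat2 ρ a b' := (hρ N a b').2 ⟨hρ₀, (hα' N a b').2 hb1⟩
  have hρα : ∀ x y : N, sat2 ρ x y → sat1 α y := fun x y h => (hα' N x y).1 ((hρ N x y).1 h).2
  have hρa : ∀ y, sat1 θ y → ¬ sat2 ρ a y := fun y hy h => hρ₀' y hy ((hρ N a y).1 h).1
  -- `χ x = ∃ y, θ y ∧ ρ x y`
  obtain ⟨θ', hθ'⟩ := exists_snd θ
  obtain ⟨σ, hσ⟩ := exists_and2 θ' ρ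
  obtain ⟨χ, hχ⟩ := exists_exsnd σ
  have hχ' : ∀ x : N, sat1 χ x ↔ ∃ y, sat1 θ y ∧ sat2 ρ x y := by
    intro x
    rw [hχ]
    simp only [hσ, hθ']
  have hχa : ¬ sat1 χ a := by
    rw [hχ']
    rintro ⟨y, hy, hy'⟩
    exact hρa y hy hy'
  obtain ⟨α₁, hα₁a, γ₁, hγ₁, hα₁⟩ := hamax χ hχa
  obtain ⟨η, hη⟩ := exists_exsnd ρ
  obtain ⟨γ, hγ⟩ := exists_and1 α₁ η
  have hγa : sat1 γ a := (hγ N a).2 ⟨hα₁a, (hη N a).2 ⟨b', hρab⟩⟩
  obtain ⟨κ, hκ⟩ := exists_and1 γ χ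
  have hκfin : IsFiniteLength (Module.End R N) (ppSub R N κ) := by
    refine isFiniteLength_of_le ?_ hγ₁
    intro x hx
    obtain ⟨h1, h2⟩ := (hκ N x).1 hx
    exact hα₁ x ((hγ N x).1 h1).1 h2
  apply haI γ _ hγa
  change IsFiniteLength (Module.End R N) (ppSub R N γ)
  refine isFiniteLength_of_covered (A := ppSub R N κ) (fun x hx => ((hκ N x).1 hx).1) hκfin ?_
  intro W hκW hWγ
  by_cases hW : W ≤ ppSub R N κ
  · left; exact hW
  · right
    obtain ⟨x₁, hx₁W, hx₁⟩ := Set.not_subset.1 hW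
    have hx₁γ : sat1 γ x₁ := hWγ hx₁W
    have hx₁χ : ¬ sat1 χ x₁ := fun h => hx₁ ((hκ N x₁).2 ⟨hx₁γ, h⟩)
    obtain ⟨y₁, hy₁⟩ := (hη N x₁).1 ((hγ N x₁).1 hx₁γ).2
    have hy₁α := hρα _ _ hy₁
    have hy₁θ : ¬ sat1 θ y₁ := fun h => hx₁χ ((hχ' x₁).2 ⟨y₁, h, hy₁⟩)
    intro x hx
    obtain ⟨y, hy⟩ := (hη N x).1 ((hγ N x).1 hx).2
    obtain ⟨h, hh⟩ := htrans y₁ y hy₁α hy₁θ (hρα _ _ hy)
    have h1 : sat2 ρ (x - h x₁) (y - h y₁) := sat2_sub ρ hy (sat2_map ρ h hy₁)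
    have h2 : sat1 χ (x - h x₁) := (hχ' _).2 ⟨_, hh, h1⟩
    have h3 : sat1 γ (x - h x₁) := sat1_sub γ hx (sat1_map γ h hx₁γ)
    have h4 : x - h x₁ ∈ W := hκW ((hκ N _).2 ⟨h3, h2⟩)
    have h5 : h x₁ ∈ W := W.smul_mem h hx₁W
    have := W.add_mem h4 h5
    rwa [sub_add_cancel] at this

end

end Pool.Agent.RZ
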