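import Pool.Agent.Lib.MP_cd53cf_al.Coind

set_option autoImplicit false

/-!
A Loewenheim-Skolem type construction of countable subrings.
-/

namespace Pool.Agent.RZ

theorem exists_stage {R : Type} (B : ℕ → Set R) (hB : Monotone B) (s : Set R) (hs : s.Finite)
    (h : s ⊆ ⋃ n, B n) : ∃ n, s ⊆ B n := by
  induction s, hs using Set.Finite.induction_on with
  | empty => exact ⟨0, Set.empty_subset _⟩
  | @insert a s _ _ ih =>
    obtain ⟨n, hn⟩ := ih (fun x hx => h (Set.mem_insert_of_mem _ hx))
    obtain ⟨m, hm⟩ := Set.mem_iUnion.1 (h (Set.mem_insert a s))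
    refine ⟨max n m, Set.insert_subset (hB (le_max_right _ _) hm) (hn.trans (hB (le_max_left _ _)))⟩

theorem exists_closure_set {R : Type} (A : Set R) (hA : A.Countable) {D : Type}
    (supp : D → Set R) (hsupp : ∀ d, (supp d).Finite) (G : D → Set R)
    (hG : ∀ d, (G d).Countable)
    (hD : ∀ S : Set R, S.Countable → {d | supp d ⊆ S}.Countable) :
    ∃ B : Set R, B.Countable ∧ A ⊆ B ∧ ∀ d, supp d ⊆ B → G d ⊆ B := by
  let step : Set R → Set R := fun S => S ∪ ⋃ d ∈ {d | supp d ⊆ S}, G d
  let B : ℕ → Set R := fun n => step^[n] A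
  have hsucc : ∀ n, B (n + 1) = step (B n) := fun n => Function.iterate_succ_apply' step n A
  have hmono : Monotone B := monotone_nat_of_le_succ (fun n => by
    rw [hsucc]; exact Set.subset_union_left)
  have hc : ∀ n, (B n).Countable := by
    intro n
    induction n with
    | zero => exact hA
    | succ n ih =>
      rw [hsucc]
      exact ih.union ((hD _ ih).biUnion (fun d _ => hG d))
  refine ⟨⋃ n, B n, Set.countable_iUnion hc, Set.subset_iUnion B 0, fun d hd => ?_⟩
  obtain ⟨n, hn⟩ := exists_stage B hmono _ (hsupp d) hd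
  have : G d ⊆ B (n + 1) := by
    rw [hsucc]
    exact (Set.subset_biUnion_of_mem (u := fun d => G d) (show d ∈ {d | supp d ⊆ B n} from hn)).trans
      Set.subset_union_right
  exact this.trans (Set.subset_iUnion B (n + 1))

theorem exists_closure {R : Type} [Ring R] (A : Set R) (hA : A.Countable) {D : Type}
    (supp : D → Set R) (hsupp : ∀ d, (supp d).Finite) (G : D → Set R)
    (hG : ∀ d, (G d).Countable)
    (hD : ∀ S : Set R, S.Countable → {d | supp d ⊆ S}.Countable) :
    ∃ R₀ : Subring R, Countable R₀ ∧ A ⊆ R₀ ∧ ∀ d, supp d ⊆ R₀ → G d ⊆ R₀ := by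
  obtain ⟨B, hB, hAB, hcl⟩ := exists_closure_set (A ∪ {0, 1})
    (hA.union (by simp)) (D := D ⊕ (R × R))
    (Sum.elim supp (fun p => {p.1, p.2})) (by
      rintro (d | p)
      · exact hsupp d
      · simp) (Sum.elim G (fun p => {p.1 + p.2, p.1 * p.2, -p.1})) (by
      rintro (d | p)
      · exact hG d
      · simp) (by
      intro S hS
      have : {d : D ⊕ (R × R) | Sum.elim supp (fun p => {p.1, p.2}) d ⊆ S} ⊆
        Sum.inl '' {d | supp d ⊆ S} ∪ Sum.inr '' (S ×ˢ S) := by
        rintro (d | p) h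
        · exact Or.inl ⟨d, h, rfl⟩
        · refine Or.inr ⟨p, ⟨h (by simp), h (by simp)⟩, rfl⟩
      exact Set.Countable.mono this (((hD S hS).image _).union ((hS.prod hS).image _)))
  have h0 : (0:R) ∈ B := hAB (Or.inr (by simp))
  have h1 : (1:R) ∈ B := hAB (Or.inr (by simp))
  have hpair : ∀ a ∈ B, ∀ b ∈ B, a + b ∈ B ∧ a * b ∈ B ∧ -a ∈ B := by
    intro a ha b hb
    have := hcl (Sum.inr (a, b)) (by
      intro x hx
      simp only [Sum.elim_inr, Set.mem_insert_iff, Set.mem_singleton_iff] at hx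
      rcases hx with rfl | rfl
      · exact ha
      · exact hb)
    refine ⟨this (by simp), this (by simp), this (by simp)⟩
  let R₀ : Subring R :=
    { carrier := B
      mul_mem' := fun {a b} ha hb => (hpair a ha b hb).2.1
      one_mem' := h1
      add_mem' := fun {a b} ha hb => (hpair a ha b hb).1
      zero_mem' := h0
      neg_mem' := fun {a} ha => (hpair a ha a ha).2.2 }
  refine ⟨R₀, hB.to_subtype, fun x hx => hAB (Or.inl hx), fun d hd => hcl (Sum.inl d) hd⟩

/-! ### Countability -/

theorem countable_lists {α : Type} {C : Set α} (hC : C.Countable) :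
    {l : List α | ∀ x ∈ l, x ∈ C}.Countable := by
  rw [← Set.range_list_map_coe]
  have := hC.to_subtype
  exact Set.countable_range _

theorem countable_finsupp {R : Type} [Ring R] {X : Type} [Countable X] {S : Set R}
    (hS : S.Countable) : {e : X →₀ R | ∀ i ∈ e.support, e i ∈ S}.Countable := by
  classical
  have := hS.to_subtype
  have hsub : {e : X →₀ R | ∀ i ∈ e.support, e i ∈ S} ⊆
      Set.range (fun l : List (X × S) => (l.map (fun p => Finsupp.single p.1 (p.2 : R))).sum) := by
    intro e he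
    refine ⟨e.support.attach.toList.map (fun i => (i.1, ⟨e i.1, he i.1 i.2⟩)), ?_⟩
    simp only [List.map_map]
    have h1 : ((e.support.attach.toList.map
        ((fun p : X × S => Finsupp.single p.1 (p.2 : R)) ∘
          fun i : {x // x ∈ e.support} => (i.1, ⟨e i.1, he i.1 i.2⟩))).sum) =
        ∑ i ∈ e.support.attach, Finsupp.single i.1 (e i.1) := by
      rw [← Finset.sum_map_toList]
      rfl
    rw [h1, Finset.sum_attach e.support (fun i => Finsupp.single i (e i))]
    exact e.sum_single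
  exact (Set.countable_range _).mono hsub

/-- set of coefficients of a formula -/
def coeffs {R : Type} [Ring R] {X : Type} (φ : PP R X) : Set R :=
  {r | ∃ e ∈ φ, ∃ i ∈ e.support, e i = r}

theorem coeffs_finite {R : Type} [Ring R] {X : Type} (φ : PP R X) : (coeffs φ).Finite := by
  classical
  have : coeffs φ ⊆ ↑(φ.toFinset.biUnion (fun e => e.support.image e)) := by
    rintro r ⟨e, he, i, hi, rfl⟩
    simp only [Finset.coe_biUnion, Set.mem_iUnion]
    exact ⟨e, by simpa using he, by
      simp only [Finset.coe_image, Set.mem_image]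
      exact ⟨i, hi, rfl⟩⟩
  exact (Finset.finite_toSet _).subset this

theorem coeffs_countable {R : Type} [Ring R] {X : Type} [Countable X] {S : Set R}
    (hS : S.Countable) : {φ : PP R X | coeffs φ ⊆ S}.Countable := by
  have h1 := countable_finsupp (X := X ⊕ ℕ) hS
  refine (countable_lists h1).mono ?_
  intro φ hφ e he i hi
  exact hφ ⟨e, he, i, hi, rfl⟩

theorem exists_descend {R : Type} [Ring R] {R₀ : Subring R} {X : Type} (φ : PP R X)
    (h : coeffs φ ⊆ R₀) : ∃ φ' : PP R₀ X, liftPP φ' = φ := by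
  classical
  have h1 : ∀ e ∈ φ, ∃ e' : (X ⊕ ℕ) →₀ R₀, liftE e' = e := by
    intro e he
    refine ⟨Finsupp.onFinset e.support (fun i => if hi : i ∈ e.support then
      (⟨e i, h ⟨e, he, i, hi, rfl⟩⟩ : R₀) else 0) (by
        intro i hi
        by_contra hcon
        exact hi (dif_neg hcon)), ?_⟩
    ext i
    simp only [liftE, Finsupp.mapRange_apply, Finsupp.onFinset_apply]
    by_cases hi : i ∈ e.support
    · rw [dif_pos hi]
    · rw [dif_neg hi, Finsupp.notMem_support_iff.1 hi]
      rfl
  have h2 : ∀ l : List ((X ⊕ ℕ) →₀ R), (∀ e ∈ l, ∃ e' : (X ⊕ ℕ) →₀ R₀, liftE e' = e) →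
      ∃ l' : List ((X ⊕ ℕ) →₀ R₀), l'.map liftE = l := by
    intro l hl
    induction l with
    | nil => exact ⟨[], rfl⟩
    | cons a l ih =>
      obtain ⟨l', hl'⟩ := ih (fun e he => hl e (List.mem_cons_of_mem _ he))
      obtain ⟨a', ha'⟩ := hl a List.mem_cons_self
      exact ⟨a' :: l', by rw [List.map_cons, ha', hl']⟩
  exact h2 φ h1

theorem coeffs_liftPP {R : Type} [Ring R] {R₀ : Subring R} {X : Type} (φ : PP R₀ X) :
    coeffs (liftPP φ) ⊆ R₀ := by
  rintro r ⟨e, he, i, hi, rfl⟩
  obtain ⟨e', _, rfl⟩ := List.mem_map.1 he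
  simp only [liftE, Finsupp.mapRange_apply]
  exact (e' i).2

/-! ### Two sided systems -/

section systems

variable (k R : Type) [CommRing k] [Ring R] [Algebra k R]

/-- the module of solutions of a two sided linear system -/
def Sol (m : ℕ) (L : List (List (R × Fin m × R))) : Submodule k (Fin m → R) where
  carrier := {z | ∀ e ∈ L, (e.map fun t => t.1 * z t.2.1 * t.2.2).sum = 0}
  add_mem' := by
    intro a b ha hb e he
    have h1 := ha e he
    have h2 := hb e he
    have h3 : (e.map fun t => t.1 * (a + b) t.2.1 * t.2.2).sum =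
        (e.map fun t => t.1 * a t.2.1 * t.2.2).sum + (e.map fun t => t.1 * b t.2.1 * t.2.2).sum := by
      rw [← List.sum_map_add]
      congr 1
      apply List.map_congr_left
      intro t _
      simp only [Pi.add_apply, mul_add, add_mul]
    rw [h3, h1, h2, add_zero]
  zero_mem' := by
    intro e _
    simp
  smul_mem' := by
    intro c a ha e he
    have h1 := ha e he
    have h3 : (e.map fun t => t.1 * (c • a) t.2.1 * t.2.2).sum =
        c • (e.map fun t => t.1 * a t.2.1 * t.2.2).sum := by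
      rw [List.smul_sum, List.map_map]
      congr 1
      apply List.map_congr_left
      intro t _
      simp only [Pi.smul_apply, Function.comp_apply, mul_smul_comm, smul_mul_assoc]
    rw [h3, h1, smul_zero]

end systems

theorem flatIn_of_closed {k R : Type} [CommRing k] [Ring R] [Algebra k R] (R₀ : Subring R)
    (G : (Σ m : ℕ, List (List (R × Fin (m + 1) × R))) → Set R)
    (hG : ∀ d : (Σ m : ℕ, List (List (R × Fin (m + 1) × R))),
      ∃ s : Set (Fin (d.1 + 1) → R), Submodule.span k s = Sol k R (d.1 + 1) d.2 ∧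
        G d = {r | ∃ g ∈ s, ∃ i, g i = r})
    (hcl : ∀ d : (Σ m : ℕ, List (List (R × Fin (m + 1) × R))),
      (∀ e ∈ d.2, ∀ t ∈ e, t.1 ∈ R₀ ∧ t.2.2 ∈ R₀) → G d ⊆ R₀) : FlatIn R₀ := by
  classical
  intro S T L hLT z hz
  let m := T.card
  let eqv : T ≃ Fin m := T.equivFin
  let idx : S → Fin (m + 1) := fun x => if h : x ∈ T then (eqv ⟨x, h⟩).castSucc else Fin.last m
  have hidx : ∀ x (h : x ∈ T), idx x = (eqv ⟨x, h⟩).castSucc := fun x h => dif_pos h
  let z' : Fin (m + 1) → R := fun i => if h : i.1 < m then z (eqv.symm ⟨i.1, h⟩).1 else 0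
  have hz' : ∀ x ∈ T, z' (idx x) = z x := by
    intro x hx
    rw [hidx x hx]
    have : ((eqv ⟨x, hx⟩).castSucc : Fin (m+1)).1 < m := (eqv ⟨x, hx⟩).2
    simp only [z']
    rw [dif_pos this]
    have h2 : (⟨((eqv ⟨x, hx⟩).castSucc : Fin (m+1)).1, this⟩ : Fin m) = eqv ⟨x, hx⟩ := rfl
    rw [h2, Equiv.symm_apply_apply]
  let L' : List (List (R × Fin (m + 1) × R)) :=
    L.map (fun e => e.map (fun t => ((t.1 : R), idx t.2.1, (t.2.2 : R))))
  obtain ⟨s, hs, hGs⟩ := hG ⟨m, L'⟩
  have hsub : G ⟨m, L'⟩ ⊆ R₀ := hcl ⟨m, L'⟩ (by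
    intro e he t ht
    obtain ⟨e', _, rfl⟩ := List.mem_map.1 he
    obtain ⟨t', _, rfl⟩ := List.mem_map.1 ht
    exact ⟨t'.1.2, t'.2.2.2⟩)
  have hmem : z' ∈ Sol k R (m + 1) L' := by
    intro e he
    obtain ⟨e', he', rfl⟩ := List.mem_map.1 he
    rw [List.map_map, ← hz e' he']
    congr 1
    apply List.map_congr_left
    intro t ht
    simp only [Function.comp_apply]
    rw [hz' _ (hLT e' he' t ht)]
  rw [← hs, Submodule.mem_span_set'] at hmem
  obtain ⟨q, f, g, hfg⟩ := hmem
  have hgR : ∀ μ i, (g μ : Fin (m + 1) → R) i ∈ R₀ := by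
    intro μ i
    apply hsub
    rw [hGs]
    exact ⟨g μ, (g μ).2, i, rfl⟩
  have hgSol : ∀ μ, (g μ : Fin (m + 1) → R) ∈ Sol k R (m + 1) L' := by
    intro μ
    rw [← hs]
    exact Submodule.subset_span (g μ).2
  refine ⟨q, fun μ => algebraMap k R (f μ), fun μ x => ⟨(g μ : Fin (m + 1) → R) (idx x), hgR μ _⟩,
    fun μ r => Algebra.commutes _ _, ?_, ?_⟩
  · intro μ e he
    apply Subtype.ext
    have := hgSol μ (e.map (fun t => ((t.1 : R), idx t.2.1, (t.2.2 : R)))) (List.mem_map_of_mem he)
    rw [List.map_map] at this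
    rw [show ((0 : R₀) : R) = 0 from rfl, ← this, ← Subring.coe_subtype R₀, map_list_sum,
      List.map_map]
    congr 1
  · intro x hx
    rw [← hz' x hx, ← hfg, Finset.sum_apply]
    apply Finset.sum_congr rfl
    intro μ _
    rw [Pi.smul_apply, Algebra.smul_def]

/-- the main closure statement -/
theorem exists_subring {k R : Type} [CommRing k] [Ring R] [Algebra k R] [IsNoetherianRing k]
    [Module.Finite k R] (A : Set R) (hA : A.Countable)
    (H : PP R Unit → PP R Unit → PP R Unit) :
    ∃ R₀ : Subring R, Countable R₀ ∧ FlatIn R₀ ∧ A ⊆ R₀ ∧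
      ∀ θ α : PP R₀ Unit, ∃ β : PP R₀ Unit, liftPP β = H (liftPP θ) (liftPP α) := by
  classical
  have hfg : ∀ d : (Σ m : ℕ, List (List (R × Fin (m + 1) × R))),
      ∃ s : Finset (Fin (d.1 + 1) → R), Submodule.span k (s : Set (Fin (d.1 + 1) → R)) =
        Sol k R (d.1 + 1) d.2 := by
    intro d
    have : IsNoetherian k (Fin (d.1 + 1) → R) := inferInstance
    exact IsNoetherian.noetherian (Sol k R (d.1 + 1) d.2)
  choose s hs using hfg
  let G1 : (Σ m : ℕ, List (List (R × Fin (m + 1) × R))) → Set R :=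
    fun d => {r | ∃ g ∈ (s d : Set (Fin (d.1 + 1) → R)), ∃ i, g i = r}
  let supp1 : (Σ m : ℕ, List (List (R × Fin (m + 1) × R))) → Set R :=
    fun d => {r | ∃ e ∈ d.2, ∃ t ∈ e, t.1 = r ∨ t.2.2 = r}
  let G2 : PP R Unit × PP R Unit → Set R := fun p => coeffs (H p.1 p.2)
  let supp2 : PP R Unit × PP R Unit → Set R := fun p => coeffs p.1 ∪ coeffs p.2
  obtain ⟨R₀, hc, hAR, hcl⟩ := exists_closure A hA
    (Sum.elim supp1 supp2) (by
      rintro (d | p)
      · have : supp1 d ⊆ ↑(d.2.toFinset.biUnion (fun e => e.toFinset.biUnion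
            (fun t => ({t.1, t.2.2} : Finset R)))) := by
          rintro r ⟨e, he, t, ht, hr⟩
          simp only [Finset.coe_biUnion, Set.mem_iUnion, Finset.mem_coe, List.mem_toFinset,
            Finset.coe_insert, Finset.coe_singleton, Set.mem_insert_iff, Set.mem_singleton_iff]
          exact ⟨e, he, t, ht, by rcases hr with h | h <;> simp [h]⟩
        exact (Finset.finite_toSet _).subset this
      · exact (coeffs_finite _).union (coeffs_finite _)) (Sum.elim G1 G2) (by
      rintro (d | p)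
      · have : G1 d ⊆ ↑((s d).biUnion (fun g => Finset.univ.image g)) := by
          rintro r ⟨g, hg, i, rfl⟩
          simp only [Finset.coe_biUnion, Set.mem_iUnion]
          exact ⟨g, hg, by simp⟩
        exact ((Finset.finite_toSet _).subset this).countable
      · exact (coeffs_finite _).countable) (by
      intro S hS
      have : {d : (Σ m : ℕ, List (List (R × Fin (m + 1) × R))) ⊕ (PP R Unit × PP R Unit) |
          Sum.elim supp1 supp2 d ⊆ S} ⊆
          Sum.inl '' (⋃ m : ℕ, (fun L => (⟨m, L⟩ : (Σ m : ℕ, List (List (R × Fin (m + 1) × R))))) ''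
            {L | ∀ e ∈ L, e ∈ {e | ∀ t ∈ e, t ∈ S ×ˢ (Set.univ ×ˢ S)}}) ∪
          Sum.inr '' ({φ | coeffs φ ⊆ S} ×ˢ {φ | coeffs φ ⊆ S}) := by
        rintro (⟨m, L⟩ | p) h
        · left
          refine ⟨⟨m, L⟩, ?_, rfl⟩
          rw [Set.mem_iUnion]
          refine ⟨m, L, ?_, rfl⟩
          intro e he t ht
          exact ⟨h ⟨e, he, t, ht, Or.inl rfl⟩, trivial, h ⟨e, he, t, ht, Or.inr rfl⟩⟩
        · right
          exact ⟨p, ⟨fun x hx => h (Or.inl hx), fun x hx => h (Or.inr hx)⟩, rfl⟩
      refine Set.Countable.mono this (Set.Countable.union (Set.Countable.image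
        (Set.countable_iUnion (fun m => Set.Countable.image
          (countable_lists (countable_lists (hS.prod (Set.countable_univ.prod hS)))) _)) _)
        (Set.Countable.image ((coeffs_countable hS).prod (coeffs_countable hS)) _)))
  refine ⟨R₀, hc, ?_, hAR, ?_⟩
  · refine flatIn_of_closed (k := k) R₀ G1 (fun d => ⟨s d, hs d, rfl⟩) (fun d hd => ?_)
    apply hcl (Sum.inl d)
    rintro r ⟨e, he, t, ht, hr | hr⟩
    · rw [← hr]; exact (hd e he t ht).1
    · rw [← hr]; exact (hd e he t ht).2
  · intro θ α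
    apply exists_descend
    apply hcl (Sum.inr (liftPP θ, liftPP α))
    rintro r (h | h)
    · exact coeffs_liftPP θ h
    · exact coeffs_liftPP α h

end Pool.Agent.RZ
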