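import Pool.Agent.Lib.MP_cd53cf_al.CaseB

set_option autoImplicit false

/-!
Restriction to a subring, and coinduction.
-/

namespace Pool.Agent.RZ

section lift

variable {R : Type} [Ring R] {R₀ : Subring R} {M : Type} [AddCommGroup M] [Module R M]

/-- extend coefficients of a linear form -/
noncomputable def liftE {X : Type} (e : X →₀ R₀) : X →₀ R :=
  Finsupp.mapRange (fun r : R₀ => (r : R)) rfl e

/-- extend coefficients of a formula -/
noncomputable def liftPP {X : Type} (φ : PP R₀ X) : PP R X := φ.map liftE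

theorem ev_liftE {Z : Type} (v : Z → M) (e : Z →₀ R₀) :
    ev v (liftE e) = ev (R := R₀) v e := by
  rw [ev_def, ev_def, liftE, Finsupp.sum_mapRange_index]
  · rfl
  · intro a; simp

theorem sat_liftPP {X : Type} (φ : PP R₀ X) (v : X → M) : sat (liftPP φ) v ↔ sat φ v := by
  constructor
  · rintro ⟨y, hy⟩
    refine ⟨y, fun e he => ?_⟩
    rw [← ev_liftE]
    exact hy _ (List.mem_map_of_mem he)
  · rintro ⟨y, hy⟩
    refine ⟨y, fun e he => ?_⟩
    obtain ⟨e', he', rfl⟩ := List.mem_map.1 he
    rw [ev_liftE]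
    exact hy _ he'

theorem AC.restrict (hM : AC R M) : AC R₀ M := by
  intro I J a b h
  obtain ⟨x, hx⟩ := hM I J (fun j => liftE (a j)) b (by
    intro F
    obtain ⟨x, hx⟩ := h F
    refine ⟨x, fun j hj => ?_⟩
    rw [← ev_def, ev_liftE, ev_def]
    exact hx j hj)
  refine ⟨x, fun j => ?_⟩
  have := hx j
  rw [← ev_def, ev_liftE, ev_def] at this
  exact this

end lift

/-- two sided linear systems over `R₀` have enough solutions over `R₀` -/
def FlatIn {R : Type} [Ring R] (R₀ : Subring R) : Prop :=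
  ∀ (S : Type) (T : Finset S) (L : List (List (R₀ × S × R₀))),
    (∀ e ∈ L, ∀ t ∈ e, t.2.1 ∈ T) → ∀ z : S → R,
    (∀ e ∈ L, (e.map fun t => (t.1 : R) * z t.2.1 * (t.2.2 : R)).sum = 0) →
    ∃ (q : ℕ) (c : Fin q → R) (w : Fin q → S → R₀),
      (∀ μ, ∀ r : R, c μ * r = r * c μ) ∧
      (∀ μ, ∀ e ∈ L, (e.map fun t => t.1 * w μ t.2.1 * t.2.2).sum = 0) ∧
      ∀ s ∈ T, z s = ∑ μ, c μ * (w μ s : R)

section coind

variable {R : Type} [Ring R] (R₀ : Subring R) (P : Type) [AddCommGroup P] [Module R₀ P]

/-- the coinduced module -/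
def Coind : Type := R →ₗ[R₀] P

noncomputable instance : AddCommGroup (Coind R₀ P) := inferInstanceAs (AddCommGroup (R →ₗ[R₀] P))

variable {R₀ P}

/-- underlying map -/
def Coind.lin (q : Coind R₀ P) : R →ₗ[R₀] P := q

/-- evaluation -/
def Coind.app (q : Coind R₀ P) (r : R) : P := q.lin r

theorem Coind.ext {q q' : Coind R₀ P} (h : ∀ r, q.app r = q'.app r) : q = q' := LinearMap.ext h

@[simp] theorem Coind.app_add (q : Coind R₀ P) (r s : R) : q.app (r + s) = q.app r + q.app s :=
  map_add q.lin r s

@[simp] theorem Coind.app_smul (q : Coind R₀ P) (r₀ : R₀) (s : R) :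
    q.app ((r₀ : R) * s) = r₀ • q.app s :=
  map_smul q.lin r₀ s

theorem Coind.app_sum (q : Coind R₀ P) {ι : Type} (s : Finset ι) (f : ι → R) :
    q.app (∑ i ∈ s, f i) = ∑ i ∈ s, q.app (f i) := map_sum q.lin f s

@[simp] theorem Coind.add_app (q q' : Coind R₀ P) (r : R) : (q + q').app r = q.app r + q'.app r :=
  rfl

@[simp] theorem Coind.zero_app (r : R) : (0 : Coind R₀ P).app r = 0 := rfl

theorem Coind.sum_app {ι : Type} (s : Finset ι) (f : ι → Coind R₀ P) (r : R) :
    (∑ i ∈ s, f i).app r = ∑ i ∈ s, (f i).app r := by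
  classical
  induction s using Finset.induction_on with
  | empty => simp
  | insert a s ha ih => rw [Finset.sum_insert ha, Finset.sum_insert ha, Coind.add_app, ih]

/-- constructor -/
def Coind.mk (f : R → P) (h1 : ∀ r s, f (r + s) = f r + f s)
    (h2 : ∀ (r₀ : R₀) (s : R), f ((r₀ : R) * s) = r₀ • f s) : Coind R₀ P :=
  { toFun := f, map_add' := h1, map_smul' := h2 }

@[simp] theorem Coind.mk_app (f : R → P) (h1 : ∀ r s, f (r + s) = f r + f s)
    (h2 : ∀ (r₀ : R₀) (s : R), f ((r₀ : R) * s) = r₀ • f s) (r : R) :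
    (Coind.mk f h1 h2).app r = f r := rfl

noncomputable instance : Module R (Coind R₀ P) where
  smul r q := Coind.mk (fun x => q.app (x * r)) (fun x y => by rw [add_mul, Coind.app_add])
    (fun r₀ x => by rw [mul_assoc, Coind.app_smul])
  one_smul q := by
    apply Coind.ext; intro x
    change q.app (x * 1) = q.app x
    rw [mul_one]
  mul_smul r s q := by
    apply Coind.ext; intro x
    change q.app (x * (r * s)) = q.app (x * r * s)
    rw [mul_assoc]
  smul_zero r := by
    apply Coind.ext; intro x; rfl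
  smul_add r q q' := by
    apply Coind.ext; intro x; rfl
  add_smul r s q := by
    apply Coind.ext; intro x
    change q.app (x * (r + s)) = q.app (x * r) + q.app (x * s)
    rw [mul_add, Coind.app_add]
  zero_smul q := by
    apply Coind.ext; intro x
    change q.app (x * 0) = 0
    rw [mul_zero]
    exact map_zero q.lin

@[simp] theorem Coind.smul_app (r : R) (q : Coind R₀ P) (x : R) : (r • q).app x = q.app (x * r) :=
  rfl

theorem Coind.ev_app {Z : Type} (x : Z → Coind R₀ P) (e : Z →₀ R) (r : R) :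
    (ev x e).app r = ∑ z ∈ e.support, (x z).app (r * e z) := by
  rw [ev_def, Finsupp.sum, Coind.sum_app]
  rfl

/-- evaluation at a central element is linear over the subring -/
def Coind.evalC (c : R) (hc : ∀ r : R, c * r = r * c) : Coind R₀ P →ₗ[R₀] P where
  toFun q := q.app c
  map_add' q q' := rfl
  map_smul' r₀ q := by
    change q.app (c * (r₀ : R)) = r₀ • q.app c
    rw [hc, Coind.app_smul]

theorem Coind.sat_of (hflat : FlatIn R₀) (hP : AC R₀ P) {X : Type} (ψ : PP R₀ X)
    (x : X → Coind R₀ P)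
    (h : ∀ c : R, (∀ r : R, c * r = r * c) → sat ψ (fun t => (x t).app c)) :
    sat (liftPP ψ) x := by
  classical
  let J := (ℕ × R × R) ⊕ (ℕ × R₀ × R) ⊕ ({e : (X ⊕ ℕ) →₀ R₀ // e ∈ ψ} × R)
  -- variable attached to an index and an argument
  let var : X ⊕ ℕ → R → ((ℕ × R) ⊕ (X × R)) := fun i r =>
    Sum.elim (fun t => Sum.inr (t, r)) (fun n => Sum.inl (n, r)) i
  let T : J → (((ℕ × R) ⊕ (X × R)) →₀ R₀) := fun j =>
    match j with
    | Sum.inl (n, r, r') => Finsupp.single (Sum.inl (n, r + r')) 1
        - Finsupp.single (Sum.inl (n, r)) 1 - Finsupp.single (Sum.inl (n, r')) 1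
    | Sum.inr (Sum.inl (n, r₀, r)) => Finsupp.single (Sum.inl (n, (r₀ : R) * r)) 1
        - Finsupp.single (Sum.inl (n, r)) r₀
    | Sum.inr (Sum.inr (e, r)) => ∑ i ∈ e.1.support, Finsupp.single (var i (r * (e.1 i : R))) 1
  let par : X × R → P := fun p => (x p.1).app p.2
  have hevE : ∀ (y : ℕ × R → P) (e : {e : (X ⊕ ℕ) →₀ R₀ // e ∈ ψ}) (r : R),
      ev (Sum.elim y par) (T (Sum.inr (Sum.inr (e, r)))) =
        ∑ i ∈ e.1.support, Sum.elim (fun t => (x t).app (r * (e.1 i : R)))
          (fun n => y (n, r * (e.1 i : R))) i := by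
    intro y e r
    simp only [T]
    have : ∀ (s : Finset (X ⊕ ℕ)), ev (Sum.elim y par)
        (∑ i ∈ s, Finsupp.single (var i (r * (e.1 i : R))) (1 : R₀)) =
        ∑ i ∈ s, ev (Sum.elim y par) (Finsupp.single (var i (r * (e.1 i : R))) (1 : R₀)) := by
      intro s
      exact map_sum (Finsupp.linearCombination R₀ (Sum.elim y par)) _ s
    rw [this]
    apply Finset.sum_congr rfl
    intro i _
    cases i with
    | inl t => simp [var, par]
    | inr n => simp [var]
  obtain ⟨y, hy⟩ := hP.solve par (I := ℕ × R) (J := J) T (by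
    intro F
    -- two sided equations
    let Eqs : J → List (List (R₀ × R × R₀)) := fun j =>
      match j with
      | Sum.inl (_, r, r') => [[(1, r + r', 1), (-1, r, 1), (-1, r', 1)]]
      | Sum.inr (Sum.inl (_, r₀, r)) => [[(1, (r₀ : R) * r, 1), (-r₀, r, 1)]]
      | Sum.inr (Sum.inr (e, r)) => e.1.support.toList.map (fun i =>
          [(1, r * (e.1 i : R), 1), (-1, r, e.1 i)])
    let L : List (List (R₀ × R × R₀)) := F.toList.flatMap Eqs
    let Tset : Finset R := (L.flatMap (fun e => e.map (fun t => t.2.1))).toFinset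
    obtain ⟨q, c, w, hc, hw, hz⟩ := hflat R Tset L (by
      intro e he t ht
      simp only [Tset, List.mem_toFinset, List.mem_flatMap, List.mem_map]
      exact ⟨e, he, t, ht, rfl⟩) id (by
      intro e he
      obtain ⟨j, _, hj⟩ := List.mem_flatMap.1 he
      rcases j with ⟨n, r, r'⟩ | ⟨n, r₀, r⟩ | ⟨e', r⟩
      · simp only [Eqs, List.mem_singleton] at hj
        subst hj
        simp
        abel
      · simp only [Eqs, List.mem_singleton] at hj
        subst hj
        simp
      · simp only [Eqs, List.mem_map] at hj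
        obtain ⟨i, _, rfl⟩ := hj
        simp)
    have hLmem : ∀ j ∈ F, ∀ e ∈ Eqs j, e ∈ L := fun j hj e he =>
      List.mem_flatMap.2 ⟨j, Finset.mem_toList.2 hj, he⟩
    have hTmem : ∀ e ∈ L, ∀ t ∈ e, t.2.1 ∈ Tset := by
      intro e he t ht
      simp only [Tset, List.mem_toFinset, List.mem_flatMap, List.mem_map]
      exact ⟨e, he, t, ht, rfl⟩
    choose W hW using fun μ => h (c μ) (hc μ)
    refine ⟨fun p => ∑ μ, w μ p.2 • W μ p.1, fun j hj => ?_⟩
    rcases j with ⟨n, r, r'⟩ | ⟨n, r₀, r⟩ | ⟨e, r⟩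
    · have h1 : ∀ μ, w μ (r + r') = w μ r + w μ r' := by
        intro μ
        have := hw μ _ (hLmem _ hj [(1, r + r', 1), (-1, r, 1), (-1, r', 1)] (by simp [Eqs]))
        simp only [List.map_cons, List.map_nil, List.sum_cons, List.sum_nil, one_mul, mul_one,
          neg_mul, add_zero] at this
        have h2 : w μ (r + r') - (w μ r + w μ r') = 0 := by rw [← this]; abel
        exact sub_eq_zero.1 h2
      simp only [T, ev_sub, ev_single, Sum.elim_inl, one_smul]
      simp only [h1, add_smul, Finset.sum_add_distrib]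
      abel
    · have h1 : ∀ μ, w μ ((r₀ : R) * r) = r₀ * w μ r := by
        intro μ
        have := hw μ _ (hLmem _ hj [(1, (r₀ : R) * r, 1), (-r₀, r, 1)] (by simp [Eqs]))
        simp only [List.map_cons, List.map_nil, List.sum_cons, List.sum_nil, one_mul, mul_one,
          neg_mul, add_zero] at this
        have h2 : w μ ((r₀ : R) * r) - r₀ * w μ r = 0 := by rw [← this]; abel
        exact sub_eq_zero.1 h2
      simp only [T, ev_sub, ev_single, Sum.elim_inl, one_smul]
      simp only [h1, mul_smul, Finset.smul_sum, sub_self]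
    · rw [hevE]
      have hmemE : ∀ i ∈ e.1.support, [(1, r * (e.1 i : R), 1), (-1, r, e.1 i)] ∈ L := by
        intro i hi
        apply hLmem _ hj
        simp only [Eqs, List.mem_map]
        exact ⟨i, Finset.mem_toList.2 hi, rfl⟩
      have h1 : ∀ i ∈ e.1.support, ∀ μ, w μ (r * (e.1 i : R)) = w μ r * e.1 i := by
        intro i hi μ
        have := hw μ _ (hmemE i hi)
        simp only [List.map_cons, List.map_nil, List.sum_cons, List.sum_nil, one_mul, mul_one,
          neg_mul, add_zero] at this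
        exact sub_eq_zero.1 (by rw [← this]; abel)
      have h2 : ∀ i ∈ e.1.support, r * (e.1 i : R) = ∑ μ, c μ * (w μ (r * (e.1 i : R)) : R) := by
        intro i hi
        exact hz _ (hTmem _ (hmemE i hi) (1, r * (e.1 i : R), 1) (by simp))
      have h3 : ∀ i ∈ e.1.support, (Sum.elim (fun t => (x t).app (r * (e.1 i : R)))
          (fun n => ∑ μ, w μ (r * (e.1 i : R)) • W μ n) i : P) =
          ∑ μ, w μ r • (e.1 i • (Sum.elim (fun t => (x t).app (c μ)) (W μ) i : P)) := by
        intro i hi
        cases i with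
        | inl t =>
          simp only [Sum.elim_inl]
          conv_lhs => rw [h2 _ hi]
          rw [Coind.app_sum]
          apply Finset.sum_congr rfl
          intro μ _
          rw [hc μ, Coind.app_smul, h1 _ hi, mul_smul]
        | inr n =>
          simp only [Sum.elim_inr]
          apply Finset.sum_congr rfl
          intro μ _
          rw [h1 _ hi, mul_smul]
      rw [Finset.sum_congr rfl h3, Finset.sum_comm]
      apply Finset.sum_eq_zero
      intro μ _
      rw [← Finset.smul_sum]
      have h4 := hW μ e.1 e.2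
      rw [ev_def, Finsupp.sum] at h4
      rw [h4, smul_zero])
  -- build the witnesses
  let Y : ℕ → Coind R₀ P := fun n => Coind.mk (fun r => y (n, r)) (by
    intro r s
    have := hy (Sum.inl (n, r, s))
    simp only [T, ev_sub, ev_single, Sum.elim_inl, one_smul] at this
    rw [sub_sub, sub_eq_zero] at this
    exact this) (by
    intro r₀ s
    have := hy (Sum.inr (Sum.inl (n, r₀, s)))
    simp only [T, ev_sub, ev_single, Sum.elim_inl, one_smul, sub_eq_zero] at this
    exact this)
  refine ⟨Y, fun e' he' => ?_⟩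
  obtain ⟨e, he, rfl⟩ := List.mem_map.1 he'
  apply Coind.ext
  intro r
  rw [ev_def, liftE, Finsupp.sum_mapRange_index (by intro a; simp), Finsupp.sum, Coind.sum_app,
    Coind.zero_app]
  have := hy (Sum.inr (Sum.inr (⟨e, he⟩, r)))
  rw [hevE] at this
  rw [← this]
  apply Finset.sum_congr rfl
  intro i _
  rw [Coind.smul_app]
  cases i with
  | inl t => rfl
  | inr n => rfl

theorem Coind.inD (hflat : FlatIn R₀) (hP : AC R₀ P) {X : Type} (φ ψ : PP R₀ X)
    (h : InD φ ψ P) : InD (liftPP φ) (liftPP ψ) (Coind R₀ P) := by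
  intro v hv
  apply Coind.sat_of hflat hP
  intro c hc
  apply h
  rw [sat_liftPP] at hv
  exact sat_map φ (Coind.evalC c hc) hv

end coind

end Pool.Agent.RZ
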