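import Pool.Agent.Lib.MP_cd53cf_al.AC

set_option autoImplicit false

/-!
The double character module: a pure embedding into an algebraically compact module
which preserves pp implications.
-/

namespace Pool.Agent.RZ

/-- extension of characters -/
theorem exists_char_extend {G H : Type} [AddCommGroup G] [AddCommGroup H] (f : G →+ H)
    (β : G →+ AddCircle (1 : ℚ)) (h : ∀ g, f g = 0 → β g = 0) :
    ∃ γ : H →+ AddCircle (1 : ℚ), ∀ g, γ (f g) = β g := by
  let f' : G →ₗ[ℤ] H := f.toIntLinearMap
  let β' : G →ₗ[ℤ] AddCircle (1 : ℚ) := β.toIntLinearMap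
  have hk : LinearMap.ker f' ≤ LinearMap.ker β' := fun g hg => h g hg
  let β'' : LinearMap.range f' →ₗ[ℤ] AddCircle (1 : ℚ) :=
    ((LinearMap.ker f').liftQ β' hk).comp f'.quotKerEquivRange.symm.toLinearMap
  obtain ⟨γ0, hγ⟩ := CharacterModule.dual_surjective_of_injective (R := ℤ)
    (LinearMap.range f').subtype (Submodule.injective_subtype _) (β''.toAddMonoidHom)
  let γ : H →+ AddCircle (1 : ℚ) := γ0
  refine ⟨γ, fun g => ?_⟩
  have h1 : γ (f g) = β'' ⟨f' g, LinearMap.mem_range_self f' g⟩ := by
    have := DFunLike.congr_fun hγ ⟨f' g, LinearMap.mem_range_self f' g⟩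
    exact this
  rw [h1]
  have h2 : f'.quotKerEquivRange.symm ⟨f' g, LinearMap.mem_range_self f' g⟩
      = Submodule.Quotient.mk g := by
    rw [LinearEquiv.symm_apply_eq]
    rfl
  simp only [β'', LinearMap.comp_apply, LinearEquiv.coe_coe, h2]
  rfl

/-- characters separate elements from subgroups -/
theorem exists_char_sep {G : Type} [AddCommGroup G] (S : AddSubgroup G) (g : G) (hg : g ∉ S) :
    ∃ γ : G →+ AddCircle (1 : ℚ), (∀ s ∈ S, γ s = 0) ∧ γ g ≠ 0 := by
  have hne : (QuotientAddGroup.mk g : G ⧸ S) ≠ 0 := by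
    intro h
    exact hg ((QuotientAddGroup.eq_zero_iff g).1 h)
  obtain ⟨c, hc⟩ := CharacterModule.exists_character_apply_ne_zero_of_ne_zero hne
  refine ⟨AddMonoidHom.comp (show (G ⧸ S) →+ AddCircle (1 : ℚ) from c) (QuotientAddGroup.mk' S),
    fun s hs => ?_, ?_⟩
  · have : (QuotientAddGroup.mk' S) s = 0 := (QuotientAddGroup.eq_zero_iff s).2 hs
    rw [AddMonoidHom.comp_apply, this, map_zero]
  · exact hc

section

variable {R : Type} [Ring R] {M : Type} [AddCommGroup M] [Module R M]

/-- characters of `M` -/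
abbrev Ch (M : Type) [AddCommGroup M] : Type := M →+ AddCircle (1 : ℚ)

/-- right action on characters -/
def act (r : R) (χ : Ch M) : Ch M := χ.comp (smulAddHom R M r)

@[simp] theorem act_apply (r : R) (χ : Ch M) (m : M) : act r χ m = χ (r • m) := rfl

theorem act_add (r : R) (χ ψ : Ch M) : act r (χ + ψ) = act r χ + act r ψ := rfl

theorem act_zero (r : R) : act r (0 : Ch M) = 0 := rfl

/-- `act r` as an additive map -/
def actHom (r : R) : Ch M →+ Ch M := AddMonoidHom.mk' (act r) (act_add r)

@[simp] theorem actHom_apply (r : R) (χ : Ch M) : actHom r χ = act r χ := rfl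

/-- The double character module. -/
def DD (M : Type) [AddCommGroup M] : Type := Ch M →+ AddCircle (1 : ℚ)

noncomputable instance : AddCommGroup (DD M) :=
  inferInstanceAs (AddCommGroup (Ch M →+ AddCircle (1 : ℚ)))

/-- underlying homomorphism -/
def DD.hom (x : DD M) : Ch M →+ AddCircle (1 : ℚ) := x

/-- element from homomorphism -/
def DD.ofHom (x : Ch M →+ AddCircle (1 : ℚ)) : DD M := x

/-- application -/
def DD.app (x : DD M) (χ : Ch M) : AddCircle (1 : ℚ) := x.hom χ

theorem DD.ext {x y : DD M} (h : ∀ χ, x.app χ = y.app χ) : x = y :=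
  AddMonoidHom.ext h

@[simp] theorem DD.app_add (x : DD M) (χ ψ : Ch M) : x.app (χ + ψ) = x.app χ + x.app ψ :=
  map_add x.hom χ ψ

@[simp] theorem DD.app_zero (x : DD M) : x.app 0 = 0 :=
  map_zero x.hom

theorem DD.app_sum (x : DD M) {ι : Type} (s : Finset ι) (f : ι → Ch M) :
    x.app (∑ i ∈ s, f i) = ∑ i ∈ s, x.app (f i) :=
  map_sum x.hom f s

@[simp] theorem DD.add_app (x y : DD M) (χ : Ch M) : (x + y).app χ = x.app χ + y.app χ := rfl

@[simp] theorem DD.zero_app (χ : Ch M) : (0 : DD M).app χ = 0 := rfl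

theorem DD.sum_app {ι : Type} (s : Finset ι) (f : ι → DD M) (χ : Ch M) :
    (∑ i ∈ s, f i).app χ = ∑ i ∈ s, (f i).app χ := by
  classical
  induction s using Finset.induction_on with
  | empty => simp
  | insert a s ha ih => rw [Finset.sum_insert ha, Finset.sum_insert ha, DD.add_app, ih]

noncomputable instance instModDD : Module R (DD M) where
  smul r x := DD.ofHom (x.hom.comp (actHom r))
  one_smul x := by
    apply DD.ext; intro χ
    change x.app (act (1:R) χ) = x.app χ
    congr 1
    ext m; simp
  mul_smul r s x := by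
    apply DD.ext; intro χ
    change x.app (act (r * s) χ) = x.app (act s (act r χ))
    congr 1
    ext m; simp [mul_smul]
  smul_zero r := rfl
  smul_add r x y := rfl
  add_smul r s x := by
    apply DD.ext; intro χ
    change x.app (act (r + s) χ) = x.app (act r χ) + x.app (act s χ)
    rw [← DD.app_add]
    congr 1
    ext m; simp [add_smul]
  zero_smul x := by
    apply DD.ext; intro χ
    change x.app (act (0:R) χ) = 0
    have : act (0:R) χ = 0 := by ext m; simp
    rw [this, DD.app_zero]

@[simp] theorem DD.smul_app (r : R) (x : DD M) (χ : Ch M) : (r • x).app χ = x.app (act r χ) := rfl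

theorem DD.ev_app {Z : Type} (x : Z → DD M) (e : Z →₀ R) (χ : Ch M) :
    (ev x e).app χ = ∑ z ∈ e.support, (x z).app (act (e z) χ) := by
  rw [ev_def, Finsupp.sum, DD.sum_app]
  rfl

/-- the canonical map -/
def DD.iota (R : Type) [Ring R] (M : Type) [AddCommGroup M] [Module R M] : M →ₗ[R] DD M where
  toFun m := (AddMonoidHom.eval m : Ch M →+ AddCircle (1 : ℚ))
  map_add' m m' := by
    apply DD.ext; intro χ
    exact map_add χ m m'
  map_smul' r m := by
    apply DD.ext; intro χ
    rfl

@[simp] theorem DD.iota_app (m : M) (χ : Ch M) : (DD.iota R M m).app χ = χ m := rfl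

/-- the double character module is algebraically compact -/
theorem DD.ac : AC R (DD M) := by
  classical
  intro I J a b hfin
  -- `f : (J →₀ Ch M) →+ (I →₀ Ch M)`
  let f : (J →₀ Ch M) →+ (I →₀ Ch M) :=
    Finsupp.liftAddHom (fun j => ∑ i ∈ (a j).support,
      (Finsupp.singleAddHom i).comp (actHom ((a j) i)))
  let β : (J →₀ Ch M) →+ AddCircle (1 : ℚ) :=
    Finsupp.liftAddHom (fun j => (b j).hom)
  have hf : ∀ j χ, f (Finsupp.single j χ) =
      ∑ i ∈ (a j).support, Finsupp.single i (act ((a j) i) χ) := by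
    intro j χ
    simp only [f, Finsupp.liftAddHom_apply_single, AddMonoidHom.finsetSum_apply]
    rfl
  have hβ : ∀ j χ, β (Finsupp.single j χ) = (b j).app χ := by
    intro j χ
    simp only [β, Finsupp.liftAddHom_apply_single]
    rfl
  have key : ∀ (x : I → DD M) (j : J) (χ : Ch M),
      ((a j).sum fun i r => r • x i).app χ =
      (Finsupp.liftAddHom (fun i => (x i).hom))
        (f (Finsupp.single j χ)) := by
    intro x j χ
    rw [hf, map_sum, ← ev_def, DD.ev_app]
    apply Finset.sum_congr rfl
    intro i _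
    rw [Finsupp.liftAddHom_apply_single]
    rfl
  have hk : ∀ g : J →₀ Ch M, f g = 0 → β g = 0 := by
    intro g hg
    obtain ⟨x, hx⟩ := hfin g.support
    have h1 : β g = (Finsupp.liftAddHom (fun i => (x i).hom)) (f g) := by
      conv_rhs => rw [← Finsupp.sum_single g]
      conv_lhs => rw [← Finsupp.sum_single g]
      rw [Finsupp.sum, map_sum, map_sum, map_sum]
      apply Finset.sum_congr rfl
      intro j hj
      rw [hβ, ← key, hx j hj]
    rw [h1, hg, map_zero]
  obtain ⟨γ, hγ⟩ := exists_char_extend (G := J →₀ Ch M) (H := I →₀ Ch M) f β hk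
  let x : I → DD M := fun i => DD.ofHom (γ.comp (Finsupp.singleAddHom i))
  refine ⟨x, fun j => ?_⟩
  apply DD.ext
  intro χ
  have hx : (Finsupp.liftAddHom (fun i => (x i).hom)) = γ := by
    apply Finsupp.addHom_ext
    intro i χ'
    rw [Finsupp.liftAddHom_apply_single]
    rfl
  rw [key x j χ, ← hβ, ← hγ, hx]

/-- The embedding into the double character module is pure. -/
theorem DD.pure {X : Type} (φ : PP R X) (v : X → M)
    (h : sat φ (fun x => DD.iota R M (v x))) : sat φ v := by
  classical
  obtain ⟨y, hy⟩ := h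
  by_contra hsat
  let J := Fin φ.length
  let e : J → ((X ⊕ ℕ) →₀ R) := fun j => φ.get j
  have he : ∀ j, e j ∈ φ := fun j => List.get_mem φ j
  -- the subgroup of possible witnesses
  let A : (ℕ → M) →+ (J → M) := AddMonoidHom.mk' (fun z j => ev (Sum.elim (fun _ => 0) z) (e j)) (by
    intro z z'
    funext j
    simp only [Pi.add_apply]
    rw [← ev_vadd]
    congr 1
    funext t; cases t <;> simp)
  let u : J → M := fun j => ev (Sum.elim v (fun _ => 0)) (e j)
  have hu : u ∉ A.range := by
    rintro ⟨z, hz⟩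
    apply hsat
    refine ⟨fun n => - z n, fun e' he' => ?_⟩
    obtain ⟨j, rfl⟩ := List.get_of_mem he'
    have h1 : ev (Sum.elim (fun _ => 0) z) (e j) = ev (Sum.elim v (fun _ => 0)) (e j) :=
      congrFun hz j
    have h2 : ev (Sum.elim v (fun n => - z n)) (e j) =
        ev (Sum.elim v (fun _ => 0)) (e j) - ev (Sum.elim (fun _ => 0) z) (e j) := by
      rw [← ev_vsub]
      congr 1
      funext t; cases t <;> simp
    change ev (Sum.elim v (fun n => - z n)) (e j) = 0
    rw [h2, h1, sub_self]
  obtain ⟨Ω, hΩ0, hΩ⟩ := exists_char_sep A.range u hu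
  let ω : J → Ch M := fun j => Ω.comp (AddMonoidHom.single (fun _ => M) j)
  have hω : ∀ t : J → M, Ω t = ∑ j, ω j (t j) := by
    intro t
    conv_lhs => rw [← Finset.univ_sum_single t]
    rw [map_sum]
    rfl
  -- the sum of values
  have hkey : ∑ j, (ev (Sum.elim (fun x => DD.iota R M (v x)) y) (e j)).app (ω j) = 0 := by
    apply Finset.sum_eq_zero
    intro j _
    rw [hy _ (he j), DD.zero_app]
  have hsplit : ∀ j, (ev (Sum.elim (fun x => DD.iota R M (v x)) y) (e j)).app (ω j) =
      ω j (u j) + (ev (Sum.elim (fun _ => 0) y) (e j)).app (ω j) := by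
    intro j
    have h1 : ev (Sum.elim (fun x => DD.iota R M (v x)) y) (e j) =
        ev (fun t => DD.iota R M (Sum.elim v (fun _ => 0) t)) (e j) +
        ev (Sum.elim (fun _ => 0) y) (e j) := by
      rw [← ev_vadd]
      congr 1
      funext t; cases t <;> simp
    rw [h1, ev_map, DD.add_app, DD.iota_app]
  have hzero : ∑ j, (ev (Sum.elim (fun _ => 0) y) (e j)).app (ω j) = 0 := by
    let T : Finset (X ⊕ ℕ) := Finset.univ.biUnion fun j => (e j).support
    have hT : ∀ j, (e j).support ⊆ T := fun j => Finset.subset_biUnion_of_mem (fun j => (e j).support)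
      (Finset.mem_univ j)
    have h1 : ∀ j, (ev (Sum.elim (fun _ => 0) y) (e j)).app (ω j) =
        ∑ z ∈ T, (Sum.elim (fun _ => 0) y z : DD M).app (act ((e j) z) (ω j)) := by
      intro j
      rw [DD.ev_app]
      apply Finset.sum_subset (hT j)
      intro z _ hz
      rw [Finsupp.notMem_support_iff.1 hz]
      have : act (0:R) (ω j) = 0 := by ext m; simp
      rw [this, DD.app_zero]
    rw [Finset.sum_congr rfl (fun j _ => h1 j), Finset.sum_comm]
    apply Finset.sum_eq_zero
    intro z _
    rw [← DD.app_sum]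
    cases z with
    | inl x => exact DD.zero_app _
    | inr n =>
      have : ∑ j, act ((e j) (Sum.inr n)) (ω j) = 0 := by
        ext m
        have h2 := hΩ0 (A (Pi.single n m)) ⟨_, rfl⟩
        rw [hω] at h2
        rw [AddMonoidHom.zero_apply, ← h2, AddMonoidHom.finsetSum_apply]
        apply Finset.sum_congr rfl
        intro j _
        rw [act_apply]
        congr 1
        have h3 : (A (Pi.single n m)) j = ev (Sum.elim (fun _ => 0) (Pi.single n m)) (e j) := rfl
        rw [h3, ev_def, Finsupp.sum]
        rw [Finset.sum_eq_single (Sum.inr n)]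
        · simp
        · intro t _ ht
          cases t with
          | inl x => simp
          | inr n' =>
            have : n' ≠ n := fun h => ht (by rw [h])
            simp [Pi.single_eq_of_ne this]
        · intro h
          rw [Finsupp.notMem_support_iff.1 h, zero_smul]
      rw [this, DD.app_zero]
  rw [Finset.sum_congr rfl (fun j _ => hsplit j), Finset.sum_add_distrib, hzero, add_zero,
    ← hω] at hkey
  exact hΩ hkey

/-- duality criterion for solvability in the double character module -/
theorem DD.solve_of {X : Type} (φ : PP R X) (x : X → DD M)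
    (h : ∀ ω : Fin φ.length → Ch M,
      (∀ n : ℕ, ∑ j, act ((φ.get j) (Sum.inr n)) (ω j) = 0) →
      ∑ j, (ev (Sum.elim x (fun _ => 0)) (φ.get j)).app (ω j) = 0) : sat φ x := by
  classical
  let J := Fin φ.length
  let e : J → ((X ⊕ ℕ) →₀ R) := fun j => φ.get j
  let f : (J → Ch M) →+ (ℕ → Ch M) := AddMonoidHom.mk'
    (fun ω n => ∑ j, act ((e j) (Sum.inr n)) (ω j)) (by
      intro ω ω'
      funext n
      simp only [Pi.add_apply, act_add, Finset.sum_add_distrib])
  let β : (J → Ch M) →+ AddCircle (1 : ℚ) := AddMonoidHom.mk'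
    (fun ω => - ∑ j, (ev (Sum.elim x (fun _ => 0)) (e j)).app (ω j)) (by
      intro ω ω'
      simp only [Pi.add_apply, DD.app_add, Finset.sum_add_distrib, neg_add])
  obtain ⟨γ, hγ⟩ := exists_char_extend f β (by
    intro ω hω
    have := h ω (fun n => congrFun hω n)
    change - _ = _
    rw [this, neg_zero])
  refine ⟨fun n => (γ.comp (AddMonoidHom.single (fun _ : ℕ => Ch M) n) : Ch M →+ AddCircle (1 : ℚ)),
    fun e' he' => ?_⟩
  obtain ⟨j, rfl⟩ := List.get_of_mem he'
  apply DD.ext
  intro χ
  set y : ℕ → DD M :=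
    fun n => (γ.comp (AddMonoidHom.single (fun _ : ℕ => Ch M) n) : Ch M →+ AddCircle (1 : ℚ))
    with hy
  have hyapp : ∀ n χ, (y n).app χ = γ (Pi.single n χ) := fun n χ => rfl
  have h1 : ev (Sum.elim x y) (φ.get j) = ev (Sum.elim x (fun _ => 0)) (e j) +
      ev (Sum.elim (fun _ => 0) y) (e j) := by
    rw [← ev_vadd]
    congr 1
    funext t; cases t <;> simp
  rw [h1, DD.add_app]
  have h2 := hγ (Pi.single j χ)
  have h3 : β (Pi.single j χ) = - (ev (Sum.elim x (fun _ => 0)) (e j)).app χ := by
    change - ∑ j', (ev (Sum.elim x (fun _ => 0)) (e j')).app ((Pi.single j χ : J → Ch M) j') = _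
    rw [Finset.sum_eq_single j]
    · simp
    · intro j' _ hj'
      rw [Pi.single_eq_of_ne hj', DD.app_zero]
    · intro h; exact absurd (Finset.mem_univ j) h
  have h4 : f (Pi.single j χ) = fun n => act ((e j) (Sum.inr n)) χ := by
    funext n
    change ∑ j', act ((e j') (Sum.inr n)) ((Pi.single j χ : J → Ch M) j') = _
    rw [Finset.sum_eq_single j]
    · simp
    · intro j' _ hj'
      rw [Pi.single_eq_of_ne hj', act_zero]
    · intro h; exact absurd (Finset.mem_univ j) h
  have h5 : (ev (Sum.elim (fun _ => 0) y) (e j)).app χ = γ (f (Pi.single j χ)) := by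
    rw [h4, DD.ev_app]
    let T : Finset ℕ := (e j).support.preimage Sum.inr Sum.inr_injective.injOn
    have hfin : (fun n => act ((e j) (Sum.inr n)) χ) =
        ∑ n ∈ T, (Pi.single n (act ((e j) (Sum.inr n)) χ) : ℕ → Ch M) := by
      funext n
      rw [Finset.sum_apply]
      by_cases hn : n ∈ T
      · rw [Finset.sum_eq_single n]
        · simp
        · intro m _ hm
          rw [Pi.single_eq_of_ne (Ne.symm hm)]
        · intro h; exact absurd hn h
      · have hn' : (e j) (Sum.inr n) = 0 := by
          have : Sum.inr n ∉ (e j).support := fun h => hn (Finset.mem_preimage.2 h)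
          exact Finsupp.notMem_support_iff.1 this
        rw [hn']
        have h0 : act (0:R) χ = 0 := by ext m; simp
        rw [h0]
        symm
        apply Finset.sum_eq_zero
        intro m hm
        have : n ≠ m := fun h => hn (h ▸ hm)
        rw [Pi.single_eq_of_ne this]
    rw [hfin, map_sum]
    have hL : ∑ z ∈ (e j).support, (Sum.elim (fun _ => 0) y z : DD M).app (act ((e j) z) χ) =
        ∑ z ∈ T.map ⟨Sum.inr, Sum.inr_injective⟩,
          (Sum.elim (fun _ => 0) y z : DD M).app (act ((e j) z) χ) := by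
      symm
      apply Finset.sum_subset
      · intro z hz
        obtain ⟨n, hn, rfl⟩ := Finset.mem_map.1 hz
        exact Finset.mem_preimage.1 hn
      · intro z hz hz'
        cases z with
        | inl x => exact DD.zero_app _
        | inr n =>
          exfalso
          apply hz'
          exact Finset.mem_map.2 ⟨n, Finset.mem_preimage.2 hz, rfl⟩
    rw [hL, Finset.sum_map]
    rfl
  rw [h5, h2, h3, DD.zero_app]
  abel

/-- pp implications (in finitely many variables) are preserved -/
theorem DD.imp {X : Type} [Finite X] (φ ψ : PP R X)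
    (h : ∀ v : X → M, sat φ v → sat ψ v) (x : X → DD M) (hx : sat φ x) : sat ψ x := by
  classical
  have := Fintype.ofFinite X
  obtain ⟨y, hy⟩ := hx
  apply DD.solve_of
  intro g hg
  let J := Fin φ.length
  let e : J → ((X ⊕ ℕ) →₀ R) := fun j => φ.get j
  let K := Fin ψ.length
  let d : K → ((X ⊕ ℕ) →₀ R) := fun j => ψ.get j
  -- finite set of variables
  let T : Finset (X ⊕ ℕ) := (Finset.univ.biUnion fun j => (e j).support) ∪
    (Finset.univ.biUnion fun k => (d k).support)
  have hTe : ∀ j, (e j).support ⊆ T := fun j => (Finset.subset_biUnion_of_mem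
    (fun j => (e j).support) (Finset.mem_univ j)).trans Finset.subset_union_left
  have hTd : ∀ j, (d j).support ⊆ T := fun j => (Finset.subset_biUnion_of_mem
    (fun j => (d j).support) (Finset.mem_univ j)).trans Finset.subset_union_right
  let A : ((X ⊕ ℕ) → M) →+ (J → M) := AddMonoidHom.mk' (fun u j => ev u (e j)) (by
    intro u u'
    funext j
    exact ev_vadd u u' (e j))
  -- functional
  let C : ((X ⊕ ℕ) → M) →+ AddCircle (1 : ℚ) := AddMonoidHom.mk'
    (fun u => ∑ k, g k (ev (Sum.elim (fun x => u (Sum.inl x)) (fun _ => 0)) (d k))) (by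
      intro u u'
      rw [← Finset.sum_add_distrib]
      apply Finset.sum_congr rfl
      intro k _
      rw [← map_add, ← ev_vadd]
      congr 2
      funext t; cases t <;> simp)
  have hC : ∀ u, A u = 0 → C u = 0 := by
    intro u hu
    have hs : sat φ (fun x => u (Sum.inl x)) := by
      refine ⟨fun n => u (Sum.inr n), fun e' he' => ?_⟩
      obtain ⟨j, rfl⟩ := List.get_of_mem he'
      have := congrFun hu j
      change ev u (e j) = 0 at this
      rw [← this]
      congr 1
      funext t; cases t <;> rfl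
    obtain ⟨z, hz⟩ := h _ hs
    have h1 : ∀ k, ev (Sum.elim (fun x => u (Sum.inl x)) (fun _ => 0)) (d k) =
        - ev (Sum.elim (fun _ => (0:M)) z) (d k) := by
      intro k
      have := hz _ (List.get_mem ψ k)
      rw [eq_neg_iff_add_eq_zero]
      refine Eq.trans ?_ this
      rw [← ev_vadd]
      congr 1
      funext t; cases t <;> simp
    change ∑ k, g k (ev (Sum.elim (fun x => u (Sum.inl x)) (fun _ => 0)) (d k)) = 0
    rw [Finset.sum_congr rfl (fun k _ => by rw [h1 k])]
    simp only [map_neg, Finset.sum_neg_distrib, neg_eq_zero]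
    have h2 : ∀ k, g k (ev (Sum.elim (fun _ => (0:M)) z) (d k)) =
        ∑ t ∈ T, (act ((d k) t) (g k)) (Sum.elim (fun _ => (0:M)) z t) := by
      intro k
      rw [ev_def, Finsupp.sum_of_support_subset _ (hTd k) _ (by simp), map_sum]
      rfl
    rw [Finset.sum_congr rfl (fun k _ => h2 k), Finset.sum_comm]
    apply Finset.sum_eq_zero
    intro t _
    rw [← AddMonoidHom.finsetSum_apply]
    cases t with
    | inl x => simp
    | inr n =>
      have := hg n
      change ∑ k, act ((d k) (Sum.inr n)) (g k) = 0 at this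
      rw [this]
      simp
  obtain ⟨Ω, hΩ⟩ := exists_char_extend A C hC
  let ω : J → Ch M := fun j => Ω.comp (AddMonoidHom.single (fun _ => M) j)
  have hω : ∀ t : J → M, Ω t = ∑ j, ω j (t j) := by
    intro t
    conv_lhs => rw [← Finset.univ_sum_single t]
    rw [map_sum]
    rfl
  -- comparison of coefficients
  have hevs : ∀ (t : X ⊕ ℕ) (m : M) (e' : (X ⊕ ℕ) →₀ R), ev (Pi.single t m) e' = e' t • m := by
    intro t m e'
    rw [ev_def, Finsupp.sum, Finset.sum_eq_single t]
    · simp
    · intro t' _ ht'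
      rw [Pi.single_eq_of_ne ht', smul_zero]
    · intro h
      rw [Finsupp.notMem_support_iff.1 h, zero_smul]
  have hco_inr : ∀ n, ∑ j, act ((e j) (Sum.inr n)) (ω j) = 0 := by
    intro n
    ext m
    have h1 := hΩ (Pi.single (Sum.inr n) m)
    rw [hω] at h1
    rw [AddMonoidHom.finsetSum_apply]
    have h2 : C (Pi.single (Sum.inr n) m) = 0 := by
      change ∑ k, g k (ev (Sum.elim (fun x => (Pi.single (Sum.inr n) m : X ⊕ ℕ → M) (Sum.inl x))
        (fun _ => 0)) (d k)) = 0
      apply Finset.sum_eq_zero
      intro k _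
      have : (Sum.elim (fun x => (Pi.single (Sum.inr n) m : X ⊕ ℕ → M) (Sum.inl x))
        (fun _ => 0) : X ⊕ ℕ → M) = fun _ => 0 := by
        funext t; cases t <;> simp
      rw [this, ev_vzero, map_zero]
    rw [h2] at h1
    rw [AddMonoidHom.zero_apply, ← h1]
    apply Finset.sum_congr rfl
    intro j _
    rw [act_apply, ← hevs]
    rfl
  have hco_inl : ∀ x, ∑ j, act ((e j) (Sum.inl x)) (ω j) = ∑ k, act ((d k) (Sum.inl x)) (g k) := by
    intro x
    ext m
    have h1 := hΩ (Pi.single (Sum.inl x) m)
    rw [hω] at h1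
    rw [AddMonoidHom.finsetSum_apply, AddMonoidHom.finsetSum_apply]
    have h2 : C (Pi.single (Sum.inl x) m) = ∑ k, act ((d k) (Sum.inl x)) (g k) m := by
      change ∑ k, g k (ev (Sum.elim (fun x' => (Pi.single (Sum.inl x) m : X ⊕ ℕ → M) (Sum.inl x'))
        (fun _ => 0)) (d k)) = _
      apply Finset.sum_congr rfl
      intro k _
      rw [act_apply, ← hevs]
      congr 2
      funext t
      cases t with
      | inl x' => simp
      | inr n => simp
    rw [h2] at h1
    rw [← h1]
    apply Finset.sum_congr rfl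
    intro j _
    rw [act_apply, ← hevs]
    rfl
  -- compute the sum
  have hsum : ∀ (ι : Type) [Fintype ι] (c : ι → ((X ⊕ ℕ) →₀ R)) (_ : ∀ k, (c k).support ⊆ T)
      (w : ι → Ch M) (s : X ⊕ ℕ → DD M),
      ∑ k, (ev s (c k)).app (w k) = ∑ t ∈ T, (s t).app (∑ k, act ((c k) t) (w k)) := by
    intro ι _ c hc w s
    have h1 : ∀ k, (ev s (c k)).app (w k) = ∑ t ∈ T, (s t).app (act ((c k) t) (w k)) := by
      intro k
      rw [DD.ev_app]
      apply Finset.sum_subset (hc k)
      intro z _ hz
      rw [Finsupp.notMem_support_iff.1 hz]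
      have : act (0:R) (w k) = 0 := by ext m; simp
      rw [this, DD.app_zero]
    rw [Finset.sum_congr rfl (fun k _ => h1 k), Finset.sum_comm]
    apply Finset.sum_congr rfl
    intro t _
    rw [DD.app_sum]
  have e1 : ∑ j, (ev (Sum.elim x y) (e j)).app (ω j) = 0 := by
    apply Finset.sum_eq_zero
    intro j _
    rw [hy _ (List.get_mem φ j), DD.zero_app]
  rw [hsum J e hTe ω (Sum.elim x y)] at e1
  change ∑ k, (ev (Sum.elim x (fun _ => 0)) (d k)).app (g k) = 0
  rw [hsum K d hTd g (Sum.elim x (fun _ => 0)), ← e1]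
  apply Finset.sum_congr rfl
  intro t _
  cases t with
  | inl x' => rw [Sum.elim_inl, Sum.elim_inl, hco_inl]
  | inr n => rw [Sum.elim_inr, Sum.elim_inr, hco_inr, DD.app_zero, DD.zero_app]

end

end Pool.Agent.RZ
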