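import Pool.Agent.Lib.MP_cd53cf_al.DD

set_option autoImplicit false

/-!
Idempotents in endomorphism rings of algebraically compact modules; locality of the endomorphism
ring of an indecomposable algebraically compact module.
-/

namespace Pool.Agent.RZ

section

variable {R : Type} [Ring R] {P : Type} [AddCommGroup P] [Module R P]

/-- a linear form as a formula -/
noncomputable def eqF {X : Type} (e : X →₀ R) : PP R X := [Finsupp.mapDomain Sum.inl e]

theorem sat_eqF {X : Type} (e : X →₀ R) (v : X → P) : sat (eqF e) v ↔ ev v e = 0 := by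
  constructor
  · rintro ⟨y, hy⟩
    have := hy _ (List.mem_singleton.2 rfl)
    rw [ev_mapDomain] at this
    exact this
  · intro h
    refine ⟨fun _ => 0, fun e' he' => ?_⟩
    rw [List.mem_singleton.1 he', ev_mapDomain]
    exact h

/-- maximal endomorphisms among those satisfying given pp conditions -/
theorem AC.exists_max (hP : AC R P) (S C : Set (PP R (P ⊕ P))) (v₀ : Module.End R P)
    (h₀ : ∀ φ ∈ S, sat φ (Sum.elim v₀ id)) :
    ∃ v : Module.End R P, (∀ φ ∈ S, sat φ (Sum.elim v id)) ∧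
      (∀ φ ∈ C, sat φ (Sum.elim v₀ id) → sat φ (Sum.elim v id)) ∧
      ∀ v' : Module.End R P, (∀ φ ∈ S, sat φ (Sum.elim v' id)) →
        (∀ φ ∈ C, sat φ (Sum.elim v id) → sat φ (Sum.elim v' id)) →
        ∀ φ ∈ C, sat φ (Sum.elim v' id) → sat φ (Sum.elim v id) := by
  classical
  let 𝒵 : Set (Set (PP R (P ⊕ P))) := {T | ∃ v : Module.End R P,
    (∀ φ ∈ S, sat φ (Sum.elim v id)) ∧ T = {φ | φ ∈ C ∧ sat φ (Sum.elim v id)}}
  obtain ⟨T, hT0, hT⟩ := zorn_subset_nonempty 𝒵 (by
    intro c hc hchain hne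
    -- linearity conditions
    let Lin : Set (PP R (P ⊕ P)) :=
      {φ | (∃ x y : P, φ = eqF (Finsupp.single (Sum.inl (x + y)) 1 - Finsupp.single (Sum.inl x) 1
        - Finsupp.single (Sum.inl y) 1)) ∨
        (∃ (r : R) (x : P), φ = eqF (Finsupp.single (Sum.inl (r • x)) 1
          - Finsupp.single (Sum.inl x) r))}
    have hLin : ∀ (v : Module.End R P), ∀ φ ∈ Lin, sat φ (Sum.elim v id) := by
      intro v φ hφ
      rcases hφ with ⟨x, y, rfl⟩ | ⟨r, x, rfl⟩
      · rw [sat_eqF]; simp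
      · rw [sat_eqF]; simp
    obtain ⟨x, hx⟩ := hP.saturate (X := P) (Z := P) id (Lin ∪ S ∪ ⋃₀ c) (by
      intro F hF
      -- a member of the chain containing all of `F ∩ ⋃₀ c`
      have hex : ∃ T ∈ c, ∀ φ ∈ F, φ ∈ ⋃₀ c → φ ∈ T := by
        clear hF
        induction F using Finset.induction_on with
        | empty =>
          obtain ⟨T, hT⟩ := hne
          exact ⟨T, hT, fun φ hφ => absurd hφ (Finset.notMem_empty φ)⟩
        | insert φ F hφ ih =>
          obtain ⟨T, hT, hTF⟩ := ih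
          by_cases hφc : φ ∈ ⋃₀ c
          · obtain ⟨T', hT', hφT'⟩ := hφc
            rcases hchain.total hT hT' with h | h
            · refine ⟨T', hT', fun ψ hψ hψc => ?_⟩
              rcases Finset.mem_insert.1 hψ with rfl | hψ
              · exact hφT'
              · exact h (hTF ψ hψ hψc)
            · refine ⟨T, hT, fun ψ hψ hψc => ?_⟩
              rcases Finset.mem_insert.1 hψ with rfl | hψ
              · exact h hφT'
              · exact hTF ψ hψ hψc
          · refine ⟨T, hT, fun ψ hψ hψc => ?_⟩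
            rcases Finset.mem_insert.1 hψ with rfl | hψ
            · exact absurd hψc hφc
            · exact hTF ψ hψ hψc
      obtain ⟨T, hT, hTF⟩ := hex
      obtain ⟨v, hv, rfl⟩ := hc hT
      refine ⟨v, fun φ hφ => ?_⟩
      rcases hF hφ with (h | h) | h
      · exact hLin v φ h
      · exact hv φ h
      · exact (hTF φ hφ h).2)
    -- build the endomorphism
    let v : Module.End R P :=
      { toFun := x
        map_add' := by
          intro a b
          have := hx _ (Or.inl (Or.inl (Or.inl ⟨a, b, rfl⟩)))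
          rw [sat_eqF] at this
          simp only [ev_sub, ev_single, Sum.elim_inl, one_smul] at this
          rw [sub_sub, sub_eq_zero] at this
          exact this
        map_smul' := by
          intro r a
          have := hx _ (Or.inl (Or.inl (Or.inr ⟨r, a, rfl⟩)))
          rw [sat_eqF] at this
          simp only [ev_sub, ev_single, Sum.elim_inl, one_smul, sub_eq_zero] at this
          exact this }
    refine ⟨{φ | φ ∈ C ∧ sat φ (Sum.elim v id)}, ⟨v, fun φ hφ => hx φ (Or.inl (Or.inr hφ)), rfl⟩,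
      fun T hT φ hφ => ?_⟩
    obtain ⟨w, hw, rfl⟩ := hc hT
    exact ⟨hφ.1, hx φ (Or.inr ⟨_, hT, hφ⟩)⟩) {φ | φ ∈ C ∧ sat φ (Sum.elim v₀ id)} ⟨v₀, h₀, rfl⟩
  obtain ⟨v, hv, rfl⟩ := hT.1
  refine ⟨v, hv, fun φ hφ h => (hT0 ⟨hφ, h⟩).2, fun v' hv' hle φ hφ h => ?_⟩
  have := hT.2 (y := {φ | φ ∈ C ∧ sat φ (Sum.elim v' id)}) ⟨v', hv', rfl⟩
    (fun ψ hψ => ⟨hψ.1, hle ψ hψ.1 hψ.2⟩)
  exact (this ⟨hφ, h⟩).2

/-- The hull lemma. -/
theorem AC.exists_idem (hP : AC R P) (Λ : Set (PP R P)) (u₀ : Module.End R P)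
    (h₀ : ∀ φ ∈ Λ, sat φ (fun x => u₀ x - x)) :
    ∃ u : Module.End R P, (∀ x, u (u x) = u x) ∧ (∀ φ ∈ Λ, sat φ (fun x => u x - x)) ∧
      (∀ φ : PP R P, sat φ (fun x => u₀ x) → sat φ (fun x => u x)) ∧
      ∀ v : Module.End R P, (∀ φ ∈ Λ, sat φ (fun x => v x - x)) →
        (∀ φ : PP R P, sat φ (fun x => u x) → sat φ (fun x => v x)) →
        ∀ φ : PP R P, sat φ (fun x => v x) → sat φ (fun x => u x) := by
  classical
  have hsub : ∀ φ : PP R P, ∃ χ : PP R (P ⊕ P), ∀ u : Module.End R P,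
      sat χ (Sum.elim u id) ↔ sat φ (fun x => u x - x) := by
    intro φ
    obtain ⟨χ, hχ⟩ := exists_subst φ
      (fun x : P => (Finsupp.single (Sum.inl x : P ⊕ P) (1:R) - Finsupp.single (Sum.inr x) 1))
    refine ⟨χ, fun u => ?_⟩
    rw [hχ]
    simp
  have hlift : ∀ φ : PP R P, ∃ χ : PP R (P ⊕ P), ∀ u : Module.End R P,
      sat χ (Sum.elim u id) ↔ sat φ (fun x => u x) := by
    intro φ
    obtain ⟨χ, hχ⟩ := exists_subst φ
      (fun x : P => (Finsupp.single (Sum.inl x : P ⊕ P) (1:R)))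
    refine ⟨χ, fun u => ?_⟩
    rw [hχ]
    simp
  choose sb hsb using hsub
  choose lf hlf using hlift
  -- first maximisation
  obtain ⟨u, hu1, hu2, hu3⟩ := hP.exists_max (sb '' Λ) (Set.range lf) u₀ (by
    rintro _ ⟨φ, hφ, rfl⟩
    rw [hsb]
    exact h₀ φ hφ)
  -- reformulate
  have hu1' : ∀ φ ∈ Λ, sat φ (fun x => u x - x) := by
    intro φ hφ
    rw [← hsb]
    exact hu1 _ ⟨φ, hφ, rfl⟩
  have hu2' : ∀ φ : PP R P, sat φ (fun x => u₀ x) → sat φ (fun x => u x) := by
    intro φ h
    rw [← hlf]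
    exact hu2 _ ⟨φ, rfl⟩ ((hlf φ u₀).2 h)
  have hu3' : ∀ v : Module.End R P, (∀ φ ∈ Λ, sat φ (fun x => v x - x)) →
        (∀ φ : PP R P, sat φ (fun x => u x) → sat φ (fun x => v x)) →
        ∀ φ : PP R P, sat φ (fun x => v x) → sat φ (fun x => u x) := by
    intro v hv hle φ h
    rw [← hlf]
    refine hu3 v ?_ ?_ _ ⟨φ, rfl⟩ ((hlf φ v).2 h)
    · rintro _ ⟨ψ, hψ, rfl⟩
      rw [hsb]
      exact hv ψ hψ
    · rintro _ ⟨ψ, rfl⟩ hs
      rw [hlf] at hs ⊢
      exact hle ψ hs
  -- second maximisation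
  obtain ⟨v, hv1, _, hv3⟩ := hP.exists_max (sb '' Λ ∪ lf '' {φ | sat φ (fun x => u x)})
    (Set.range fun p : P => eqF (Finsupp.single (Sum.inl p : P ⊕ P) (1:R)
      - Finsupp.single (Sum.inr p) 1)) u (by
    rintro _ (⟨φ, hφ, rfl⟩ | ⟨φ, hφ, rfl⟩)
    · rw [hsb]; exact hu1' φ hφ
    · rw [hlf]; exact hφ)
  have hvΛ : ∀ φ ∈ Λ, sat φ (fun x => v x - x) := by
    intro φ hφ
    rw [← hsb]
    exact hv1 _ (Or.inl ⟨φ, hφ, rfl⟩)
  have hvK : ∀ φ : PP R P, sat φ (fun x => u x) → sat φ (fun x => v x) := by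
    intro φ h
    rw [← hlf]
    exact hv1 _ (Or.inr ⟨φ, h, rfl⟩)
  have hvK' : ∀ w : Module.End R P, (∀ φ ∈ Λ, sat φ (fun x => w x - x)) →
        (∀ φ : PP R P, sat φ (fun x => v x) → sat φ (fun x => w x)) →
        ∀ φ : PP R P, sat φ (fun x => w x) → sat φ (fun x => v x) := by
    intro w hw hle φ h
    exact hvK φ (hu3' w hw (fun ψ hψ => hle ψ (hvK ψ hψ)) φ h)
  have hfix : ∀ w : Module.End R P, (∀ φ ∈ Λ, sat φ (fun x => w x - x)) →
      (∀ φ : PP R P, sat φ (fun x => v x) → sat φ (fun x => w x)) →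
      (∀ x, v x = x → w x = x) → ∀ x, w x = x → v x = x := by
    intro w hw hle hfx x hx
    have := hv3 w (by
      rintro _ (⟨φ, hφ, rfl⟩ | ⟨φ, hφ, rfl⟩)
      · rw [hsb]; exact hw φ hφ
      · rw [hlf]; exact hle φ (hvK φ hφ)) (by
      rintro _ ⟨p, rfl⟩ hs
      rw [sat_eqF] at hs ⊢
      simp only [ev_sub, ev_single, Sum.elim_inl, Sum.elim_inr, one_smul, id, sub_eq_zero] at hs ⊢
      exact hfx p hs) _ ⟨x, rfl⟩ (by
      rw [sat_eqF]
      simp only [ev_sub, ev_single, Sum.elim_inl, Sum.elim_inr, one_smul, id, sub_eq_zero]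
      exact hx)
    rw [sat_eqF] at this
    simp only [ev_sub, ev_single, Sum.elim_inl, Sum.elim_inr, one_smul, id, sub_eq_zero] at this
    exact this
  -- `v ∘ v`
  obtain ⟨g, hg⟩ := hP.extend (fun x => v (v x)) (fun x => v x) (hvK' (v ∘ₗ v) (by
      intro φ hφ
      have h1 := sat_map φ v (hvΛ φ hφ)
      have h2 := sat_add φ h1 (hvΛ φ hφ)
      convert h2 using 2 with x
      simp) (by
      intro φ hφ
      exact sat_map φ v hφ))
  let w : Module.End R P := g ∘ₗ v
  have hwΛ : ∀ φ ∈ Λ, sat φ (fun x => w x - x) := by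
    intro φ hφ
    have h1 := sat_map φ (LinearMap.id - g ∘ₗ v) (hvΛ φ hφ)
    convert h1 using 2 with x
    simp only [w, LinearMap.comp_apply, LinearMap.sub_apply, LinearMap.id_apply, map_sub, hg]
    abel
  have hwK : ∀ φ : PP R P, sat φ (fun x => v x) → sat φ (fun x => w x) := by
    intro φ hφ
    exact sat_map φ g hφ
  have hwfix : ∀ x, v x = x → w x = x := by
    intro x hx
    have h1 := hg x
    rw [hx, hx] at h1
    change g (v x) = x
    rw [hx, h1]
  refine ⟨v, fun x => ?_, hvΛ, fun φ h => hvK φ (hu2' φ h), hvK'⟩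
  exact hfix w hwΛ hwK hwfix (v x) (hg x)

end

section local_

variable {R : Type} [Ring R] {N : Type} [AddCommGroup N] [Module R N]

/-- indecomposable modules, as in the frozen statement -/
def Indec (R N : Type) [Ring R] [AddCommGroup N] [Module R N] : Prop :=
  Nontrivial N ∧ ∀ A B : Submodule R N, IsCompl A B → A = ⊥ ∨ B = ⊥

theorem Indec.idem (hN : Indec R N) (u : Module.End R N) (hu : ∀ x, u (u x) = u x) :
    (∀ x, u x = 0) ∨ (∀ x, u x = x) := by
  have hc : IsCompl (LinearMap.range u) (LinearMap.ker u) := by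
    constructor
    · rw [Submodule.disjoint_def]
      rintro _ ⟨x, rfl⟩ hx
      rw [LinearMap.mem_ker, hu] at hx
      exact hx
    · rw [codisjoint_iff, eq_top_iff]
      intro x _
      rw [Submodule.mem_sup]
      refine ⟨u x, ⟨x, rfl⟩, x - u x, ?_, by abel⟩
      rw [LinearMap.mem_ker, map_sub, hu, sub_self]
  rcases hN.2 _ _ hc with h | h
  · left
    intro x
    have : u x ∈ LinearMap.range u := ⟨x, rfl⟩
    rw [h] at this
    exact this
  · right
    intro x
    have : x - u x ∈ LinearMap.ker u := by rw [LinearMap.mem_ker, map_sub, hu, sub_self]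
    rw [h, Submodule.mem_bot, sub_eq_zero] at this
    exact this.symm

/-- an endomorphism with a left inverse of an indecomposable module is invertible -/
theorem Indec.isUnit_of_leftInv (hN : Indec R N) (g h : Module.End R N) (hgh : ∀ x, g (h x) = x) :
    IsUnit h := by
  rcases hN.idem (h ∘ₗ g) (fun x => by simp [hgh]) with h0 | h1
  · exfalso
    obtain ⟨x, y, hxy⟩ := hN.1
    apply hxy
    have : ∀ z : N, z = 0 := by
      intro z
      have h2 := h0 (h z)
      simp only [LinearMap.comp_apply, hgh] at h2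
      rw [← hgh z, h2, map_zero]
    rw [this x, this y]
  · refine ⟨⟨h, g, ?_, ?_⟩, rfl⟩
    · ext x; exact h1 x
    · ext x; exact hgh x

/-- The endomorphism ring of an indecomposable algebraically compact module is local. -/
theorem Indec.local_ (hN : Indec R N) (hAC : AC R N) (h : Module.End R N) :
    IsUnit h ∨ IsUnit (1 - h) := by
  obtain ⟨u, hu, huΛ, hu0, _⟩ := hAC.exists_idem {φ | sat φ (fun x => h x)} (1 - h) (by
    intro φ hφ
    have := sat_neg φ hφ
    convert this using 2 with x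
    simp)
  rcases hN.idem u hu with h0 | h1
  · left
    -- K(h) ≤ K(1)
    obtain ⟨g, hg⟩ := hAC.extend (fun x => h x) (fun x : N => x) (by
      intro φ hφ
      have := sat_neg φ (huΛ φ hφ)
      convert this using 2 with x
      simp [h0])
    exact hN.isUnit_of_leftInv g h hg
  · right
    obtain ⟨g, hg⟩ := hAC.extend (fun x => (1 - h) x) (fun x : N => x) (by
      intro φ hφ
      have := hu0 φ hφ
      convert this using 2 with x
      simp [h1])
    exact hN.isUnit_of_leftInv g (1 - h) hg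

theorem Indec.isUnit_of_fix (hN : Indec R N) (hAC : AC R N) (h : Module.End R N) (a : N)
    (ha : a ≠ 0) (hfix : h a = a) : IsUnit h := by
  rcases hN.local_ hAC h with h1 | h1
  · exact h1
  · exfalso
    obtain ⟨u, hu⟩ := h1
    apply ha
    have h2 : (1 - h) a = 0 := by simp [hfix]
    have h3 : ((u⁻¹ : (Module.End R N)ˣ) : Module.End R N) ((u : Module.End R N) a) = a := by
      have : ((u⁻¹ : (Module.End R N)ˣ) : Module.End R N) * (u : Module.End R N) = 1 := by simp
      have h4 := DFunLike.congr_fun this a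
      exact h4
    rw [hu, h2, map_zero] at h3
    exact h3.symm

theorem Indec.isUnit_of_comp (hN : Indec R N) (g h : Module.End R N) (hgh : IsUnit (g ∘ₗ h)) :
    IsUnit h := by
  obtain ⟨u, hu⟩ := hgh
  refine hN.isUnit_of_leftInv (((u⁻¹ : (Module.End R N)ˣ) : Module.End R N) ∘ₗ g) h (fun x => ?_)
  have : ((u⁻¹ : (Module.End R N)ˣ) : Module.End R N) * (u : Module.End R N) = 1 := by simp
  have h4 := DFunLike.congr_fun this x
  rw [hu] at h4
  exact h4

end local_

end Pool.Agent.RZ
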