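import Pool.Agent.Lib.MP_cd53cf_al.CaseA

set_option autoImplicit false

/-!
The main theorem: over a finite algebra over a noetherian commutative ring, a point which is
isolated in the rep-Zariski topology has finite endolength.
-/

namespace Pool.Agent.RZ

theorem finite_endolength {k R : Type} [CommRing k] [Ring R] [Algebra k R] [IsNoetherianRing k]
    [Module.Finite k R] {N : Type} [AddCommGroup N] [Module R N] {X : Type} [Finite X]
    (φ₀ ψ₀ : PP R X) (hN : Setting R φ₀ ψ₀ N) : IsFiniteLength (Module.End R N) N := by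
  classical
  by_contra hnot
  -- no minimal pairs
  have hnomin : ∀ θ : PP R Unit, (∃ x : N, ¬ sat1 θ x) → ∃ β : PP R Unit,
      (∀ x : N, sat1 θ x → sat1 β x) ∧ (∃ x : N, sat1 β x ∧ ¬ sat1 θ x) ∧ ∃ x : N, ¬ sat1 β x := by
    rintro θ ⟨b', hb'⟩
    by_contra hcon
    obtain ⟨τ, hτ⟩ := exists_true (R := R) (X := Unit)
    apply hnot
    refine hN.caseB θ τ (fun x _ => hτ N _) b' (hτ N _) hb' (fun β hβ _ => ?_)
    by_contra hcon2
    rw [not_or] at hcon2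
    obtain ⟨h1, h2⟩ := hcon2
    push Not at h1 h2
    obtain ⟨x, hx1, hx2⟩ := h1
    obtain ⟨y, _, hy⟩ := h2
    exact hcon ⟨β, hβ, ⟨x, hx1, hx2⟩, ⟨y, hy⟩⟩
  have hH : ∀ θ : PP R Unit, ∃ β : PP R Unit, (∃ x : N, ¬ sat1 θ x) →
      (∀ x : N, sat1 θ x → sat1 β x) ∧ (∃ x : N, sat1 β x ∧ ¬ sat1 θ x) ∧ ∃ x : N, ¬ sat1 β x := by
    intro θ
    by_cases h : ∃ x : N, ¬ sat1 θ x
    · obtain ⟨β, hβ⟩ := hnomin θ h
      exact ⟨β, fun _ => hβ⟩
    · exact ⟨θ, fun h' => absurd h' h⟩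
  choose H hH' using hH
  obtain ⟨R₀, hc, hflat, hA, hcl⟩ := exists_subring (k := k) (R := R) (coeffs φ₀ ∪ coeffs ψ₀)
    ((coeffs_finite _).union (coeffs_finite _)).countable (fun θ _ => H θ)
  obtain ⟨φ, rfl⟩ := exists_descend φ₀ (fun r hr => hA (Or.inl hr))
  obtain ⟨ψ, rfl⟩ := exists_descend ψ₀ (fun r hr => hA (Or.inr hr))
  refine caseA hN hflat (fun θ hθ => ?_)
  obtain ⟨β, hβ⟩ := hcl θ θ
  have hθ' : ∃ x : N, ¬ sat1 (liftPP θ) x := by
    obtain ⟨x, hx⟩ := hθ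
    exact ⟨x, fun h => hx ((sat1_liftPP θ x).1 h)⟩
  obtain ⟨h1, ⟨x, hx1, hx2⟩, ⟨y, hy⟩⟩ := hH' (liftPP θ) hθ'
  rw [← hβ] at h1 hx1 hy
  simp only [sat1_liftPP] at h1 hx1 hx2 hy
  exact ⟨β, h1, ⟨x, hx1, hx2⟩, ⟨y, hy⟩⟩

/-- matrix form of a pp formula -/
theorem exists_matrix {R : Type} [Ring R] {n m p : ℕ} (A : Fin m → Fin n → R)
    (B : Fin m → Fin p → R) :
    ∃ φ : PP R (Fin n), ∀ (M : Type) [AddCommGroup M] [Module R M] (x : Fin n → M),
      sat φ x ↔ ∃ y : Fin p → M, ∀ i, (∑ j, A i j • x j) + ∑ l, B i l • y l = 0 := by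
  obtain ⟨φ, hφ⟩ := exists_of_list (R := R) (X := Fin n) (I := Fin p)
    (List.ofFn (fun i => (∑ j, Finsupp.single (Sum.inl j) (A i j)) +
      ∑ l, Finsupp.single (Sum.inr l) (B i l)))
  refine ⟨φ, fun M _ _ x => (hφ M x).trans ?_⟩
  have hev : ∀ (y : Fin p → M) (i : Fin m), ev (Sum.elim x y) ((∑ j, Finsupp.single (Sum.inl j) (A i j)) +
      ∑ l, Finsupp.single (Sum.inr l) (B i l)) = (∑ j, A i j • x j) + ∑ l, B i l • y l := by
    intro y i
    have hs : ∀ {ι : Type} (s : Finset ι) (f : ι → ((Fin n ⊕ Fin p) →₀ R)),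
        ev (Sum.elim x y) (∑ j ∈ s, f j) = ∑ j ∈ s, ev (Sum.elim x y) (f j) := by
      intro ι s f
      exact map_sum (Finsupp.linearCombination R (Sum.elim x y)) f s
    rw [ev_add, hs, hs]
    simp
  constructor
  · rintro ⟨y, hy⟩
    refine ⟨y, fun i => ?_⟩
    rw [← hev]
    exact hy _ (by rw [List.mem_ofFn]; exact ⟨i, rfl⟩)
  · rintro ⟨y, hy⟩
    refine ⟨y, fun e he => ?_⟩
    rw [List.mem_ofFn] at he
    obtain ⟨i, rfl⟩ := he
    rw [hev]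
    exact hy i

end Pool.Agent.RZ
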