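import Mathlib

set_option autoImplicit false

/-!
pp formulas over a ring, algebraically compact modules.
-/

namespace Pool.Agent.RZ

open Finsupp

/-- A pp formula in variables indexed by `X`: a finite list of linear forms in the variables
`X` and in existentially quantified variables indexed by `ℕ`. -/
abbrev PP (R X : Type) [Ring R] : Type := List ((X ⊕ ℕ) →₀ R)

section ev

variable {R : Type} [Ring R] {M : Type} [AddCommGroup M] [Module R M]
  {N : Type} [AddCommGroup N] [Module R N]

/-- value of a linear form -/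
noncomputable def ev {Z : Type} (v : Z → M) (e : Z →₀ R) : M := Finsupp.linearCombination R v e

theorem ev_def {Z : Type} (v : Z → M) (e : Z →₀ R) : ev v e = e.sum fun i r => r • v i := by
  simp [ev, Finsupp.linearCombination_apply]

@[simp] theorem ev_single {Z : Type} (v : Z → M) (z : Z) (r : R) :
    ev v (Finsupp.single z r) = r • v z := by
  simp [ev]

@[simp] theorem ev_add {Z : Type} (v : Z → M) (e f : Z →₀ R) : ev v (e + f) = ev v e + ev v f := by
  simp [ev]

@[simp] theorem ev_sub {Z : Type} (v : Z → M) (e f : Z →₀ R) : ev v (e - f) = ev v e - ev v f := by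
  simp [ev]

@[simp] theorem ev_zero {Z : Type} (v : Z → M) : ev v (0 : Z →₀ R) = 0 := by
  simp [ev]

theorem ev_mapDomain {Z W : Type} (g : Z → W) (v : W → M) (e : Z →₀ R) :
    ev v (Finsupp.mapDomain g e) = ev (v ∘ g) e := by
  simp [ev, Finsupp.linearCombination_mapDomain]

theorem ev_map {Z : Type} (f : M →ₗ[R] N) (v : Z → M) (e : Z →₀ R) :
    ev (fun z => f (v z)) e = f (ev v e) := by
  simp only [ev]
  rw [Finsupp.apply_linearCombination]
  rfl

theorem ev_vadd {Z : Type} (v w : Z → M) (e : Z →₀ R) :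
    ev (fun z => v z + w z) e = ev v e + ev w e := by
  simp only [ev_def, Finsupp.sum, smul_add, Finset.sum_add_distrib]

theorem ev_vzero {Z : Type} (e : Z →₀ R) :
    ev (fun _ => (0 : M)) e = 0 := by
  simp [ev_def, Finsupp.sum]

theorem ev_vneg {Z : Type} (v : Z → M) (e : Z →₀ R) :
    ev (fun z => - v z) e = - ev v e := by
  simp [ev_def, Finsupp.sum]

theorem ev_vsub {Z : Type} (v w : Z → M) (e : Z →₀ R) :
    ev (fun z => v z - w z) e = ev v e - ev w e := by
  simp only [ev_def, Finsupp.sum, smul_sub, Finset.sum_sub_distrib]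

theorem ev_congr {Z : Type} {v w : Z → M} {e : Z →₀ R} (h : ∀ z ∈ e.support, v z = w z) :
    ev v e = ev w e := by
  simp only [ev_def, Finsupp.sum]
  exact Finset.sum_congr rfl (fun z hz => by rw [h z hz])

theorem ev_linComb {Z W : Type} (w : Z → (W →₀ R)) (v : W → M) (e : Z →₀ R) :
    ev v (Finsupp.linearCombination R w e) = ev (fun z => ev v (w z)) e := by
  simp only [ev]
  rw [Finsupp.apply_linearCombination]
  rfl

end ev

section sat

variable {R : Type} [Ring R]

/-- satisfaction of a pp formula -/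
def sat {X : Type} (φ : PP R X) {M : Type} [AddCommGroup M] [Module R M] (v : X → M) : Prop :=
  ∃ y : ℕ → M, ∀ e ∈ φ, ev (Sum.elim v y) e = 0

variable {M : Type} [AddCommGroup M] [Module R M]
  {N : Type} [AddCommGroup N] [Module R N] {X : Type}

theorem sat_map (φ : PP R X) (f : M →ₗ[R] N) {v : X → M} (h : sat φ v) :
    sat φ (fun x => f (v x)) := by
  obtain ⟨y, hy⟩ := h
  refine ⟨fun n => f (y n), fun e he => ?_⟩
  have : (Sum.elim (fun x => f (v x)) (fun n => f (y n)) : X ⊕ ℕ → N)
      = fun z => f (Sum.elim v y z) := by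
    funext z; cases z <;> rfl
  rw [this, ev_map, hy e he, map_zero]

theorem sat_zero (φ : PP R X) : sat φ (fun _ => (0 : M)) := by
  refine ⟨fun _ => 0, fun e _ => ?_⟩
  have : (Sum.elim (fun _ => (0:M)) (fun _ => (0:M)) : X ⊕ ℕ → M) = fun _ => 0 := by
    funext z; cases z <;> rfl
  rw [this, ev_vzero]

theorem sat_add (φ : PP R X) {v w : X → M} (hv : sat φ v) (hw : sat φ w) :
    sat φ (fun x => v x + w x) := by
  obtain ⟨y, hy⟩ := hv
  obtain ⟨z, hz⟩ := hw
  refine ⟨fun n => y n + z n, fun e he => ?_⟩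
  have : (Sum.elim (fun x => v x + w x) (fun n => y n + z n) : X ⊕ ℕ → M)
      = fun t => Sum.elim v y t + Sum.elim w z t := by
    funext t; cases t <;> rfl
  rw [this, ev_vadd, hy e he, hz e he, add_zero]

theorem sat_neg (φ : PP R X) {v : X → M} (hv : sat φ v) :
    sat φ (fun x => - v x) := by
  obtain ⟨y, hy⟩ := hv
  refine ⟨fun n => - y n, fun e he => ?_⟩
  have : (Sum.elim (fun x => - v x) (fun n => - y n) : X ⊕ ℕ → M)
      = fun t => - Sum.elim v y t := by
    funext t; cases t <;> rfl
  rw [this, ev_vneg, hy e he, neg_zero]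

theorem sat_sub (φ : PP R X) {v w : X → M} (hv : sat φ v) (hw : sat φ w) :
    sat φ (fun x => v x - w x) := by
  have := sat_add φ hv (sat_neg φ hw)
  simpa [sub_eq_add_neg] using this

theorem sat_sum (φ : PP R X) {ι : Type} (s : Finset ι) (v : ι → X → M)
    (h : ∀ i ∈ s, sat φ (v i)) : sat φ (fun x => ∑ i ∈ s, v i x) := by
  classical
  induction s using Finset.induction_on with
  | empty => simpa using sat_zero (M := M) φ
  | insert a s ha ih =>
    have h1 := h a (Finset.mem_insert_self a s)
    have h2 := ih (fun i hi => h i (Finset.mem_insert_of_mem hi))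
    have := sat_add φ h1 h2
    simpa [Finset.sum_insert ha] using this

/-- Any finite system with witnesses indexed by an arbitrary type is a pp formula. -/
theorem exists_of_list {I : Type} (F : List ((X ⊕ I) →₀ R)) :
    ∃ φ : PP R X, ∀ (M : Type) [AddCommGroup M] [Module R M] (v : X → M),
      sat φ v ↔ ∃ y : I → M, ∀ e ∈ F, ev (Sum.elim v y) e = 0 := by
  classical
  -- the finite set of witness indices used
  let s : Finset I := (F.toFinset.biUnion fun e => e.support).preimage Sum.inr
    (Sum.inr_injective.injOn)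
  obtain ⟨g, hg⟩ : ∃ g : I → ℕ, Set.InjOn g s := by
    obtain ⟨g0⟩ : Nonempty (s ↪ ℕ) := ⟨(Fintype.equivFin s).toEmbedding.trans Fin.valEmbedding⟩
    refine ⟨fun i => if h : i ∈ s then g0 ⟨i, h⟩ else 0, ?_⟩
    intro a ha b hb hab
    have ha' : a ∈ s := ha
    have hb' : b ∈ s := hb
    simp only [ha', hb', dif_pos] at hab
    have := g0.injective hab
    simpa using this
  have hmem : ∀ e ∈ F, ∀ i, Sum.inr i ∈ e.support → i ∈ s := by
    intro e he i hi
    simp only [s, Finset.mem_preimage, Finset.mem_biUnion, List.mem_toFinset]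
    exact ⟨e, he, hi⟩
  refine ⟨F.map (Finsupp.mapDomain (Sum.map id g)), fun M _ _ v => ?_⟩
  constructor
  · rintro ⟨y, hy⟩
    refine ⟨fun i => y (g i), fun e he => ?_⟩
    have := hy _ (List.mem_map_of_mem he)
    rw [ev_mapDomain] at this
    convert this using 2
    funext z; cases z <;> rfl
  · rintro ⟨y, hy⟩
    by_cases hI : Nonempty I
    · refine ⟨fun n => y (Function.invFunOn g s n), fun e he => ?_⟩
      obtain ⟨e', he', rfl⟩ := List.mem_map.1 he
      rw [ev_mapDomain, ← hy e' he']
      apply ev_congr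
      intro z hz
      cases z with
      | inl x => rfl
      | inr i =>
        have hi := hmem e' he' i hz
        simp only [Function.comp_apply, Sum.map_inr, Sum.elim_inr]
        congr 1
        exact hg.leftInvOn_invFunOn hi
    · refine ⟨fun _ => 0, fun e he => ?_⟩
      obtain ⟨e', he', rfl⟩ := List.mem_map.1 he
      rw [ev_mapDomain, ← hy e' he']
      apply ev_congr
      intro z hz
      cases z with
      | inl x => rfl
      | inr i => exact (hI ⟨i⟩).elim

theorem exists_and (φ ψ : PP R X) :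
    ∃ χ : PP R X, ∀ (M : Type) [AddCommGroup M] [Module R M] (v : X → M),
      sat χ v ↔ sat φ v ∧ sat ψ v := by
  obtain ⟨χ, hχ⟩ := exists_of_list (R := R) (X := X) (I := ℕ ⊕ ℕ)
    (φ.map (Finsupp.mapDomain (Sum.map id Sum.inl)) ++
      ψ.map (Finsupp.mapDomain (Sum.map id Sum.inr)))
  refine ⟨χ, fun M _ _ v => (hχ M v).trans ?_⟩
  constructor
  · rintro ⟨y, hy⟩
    constructor
    · refine ⟨fun n => y (Sum.inl n), fun e he => ?_⟩
      have := hy _ (List.mem_append_left _ (List.mem_map_of_mem he))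
      rw [ev_mapDomain] at this
      convert this using 2
      funext z; cases z <;> rfl
    · refine ⟨fun n => y (Sum.inr n), fun e he => ?_⟩
      have := hy _ (List.mem_append_right _ (List.mem_map_of_mem he))
      rw [ev_mapDomain] at this
      convert this using 2
      funext z; cases z <;> rfl
  · rintro ⟨⟨y, hy⟩, ⟨z, hz⟩⟩
    refine ⟨Sum.elim y z, fun e he => ?_⟩
    rcases List.mem_append.1 he with he | he
    · obtain ⟨e', he', rfl⟩ := List.mem_map.1 he
      rw [ev_mapDomain, ← hy e' he']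
      congr 1
      funext z; cases z <;> rfl
    · obtain ⟨e', he', rfl⟩ := List.mem_map.1 he
      rw [ev_mapDomain, ← hz e' he']
      congr 1
      funext z; cases z <;> rfl

theorem exists_ex {Y : Type} (φ : PP R (X ⊕ Y)) :
    ∃ χ : PP R X, ∀ (M : Type) [AddCommGroup M] [Module R M] (v : X → M),
      sat χ v ↔ ∃ y : Y → M, sat φ (Sum.elim v y) := by
  obtain ⟨χ, hχ⟩ := exists_of_list (R := R) (X := X) (I := Y ⊕ ℕ)
    (φ.map (Finsupp.mapDomain (Equiv.sumAssoc X Y ℕ)))
  refine ⟨χ, fun M _ _ v => (hχ M v).trans ?_⟩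
  constructor
  · rintro ⟨y, hy⟩
    refine ⟨fun i => y (Sum.inl i), fun n => y (Sum.inr n), fun e he => ?_⟩
    have := hy _ (List.mem_map_of_mem he)
    rw [ev_mapDomain] at this
    convert this using 2
    funext z; rcases z with (z | z) | z <;> rfl
  · rintro ⟨y, z, hz⟩
    refine ⟨Sum.elim y z, fun e he => ?_⟩
    obtain ⟨e', he', rfl⟩ := List.mem_map.1 he
    rw [ev_mapDomain, ← hz e' he']
    congr 1
    funext z; rcases z with (z | z) | z <;> rfl

theorem exists_subst {Z : Type} (φ : PP R X) (L : X → (Z →₀ R)) :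
    ∃ χ : PP R Z, ∀ (M : Type) [AddCommGroup M] [Module R M] (v : Z → M),
      sat χ v ↔ sat φ (fun x => ev v (L x)) := by
  refine ⟨φ.map (fun e => Finsupp.linearCombination R (Sum.elim
    (fun x => Finsupp.mapDomain (Sum.inl : Z → Z ⊕ ℕ) (L x))
    (fun n => Finsupp.single (Sum.inr n : Z ⊕ ℕ) (1:R))) e), fun M _ _ v => ?_⟩
  have key : ∀ (y : ℕ → M) (e : (X ⊕ ℕ) →₀ R),
      ev (Sum.elim v y) (Finsupp.linearCombination R (Sum.elim
      (fun x => Finsupp.mapDomain (Sum.inl : Z → Z ⊕ ℕ) (L x))
      (fun n => Finsupp.single (Sum.inr n : Z ⊕ ℕ) (1:R))) e) =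
      ev (Sum.elim (fun x => ev v (L x)) y) e := by
    intro y e
    rw [ev_linComb]
    congr 1
    funext z
    cases z with
    | inl x => simp only [Sum.elim_inl, ev_mapDomain]; rfl
    | inr n => simp
  constructor
  · rintro ⟨y, hy⟩
    refine ⟨y, fun e he => ?_⟩
    rw [← key]
    exact hy _ (List.mem_map_of_mem he)
  · rintro ⟨y, hy⟩
    refine ⟨y, fun e he => ?_⟩
    obtain ⟨e', he', rfl⟩ := List.mem_map.1 he
    rw [key]
    exact hy _ he'

theorem exists_eq (e : X →₀ R) :
    ∃ χ : PP R X, ∀ (M : Type) [AddCommGroup M] [Module R M] (v : X → M),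
      sat χ v ↔ ev v e = 0 := by
  refine ⟨[Finsupp.mapDomain Sum.inl e], fun M _ _ v => ?_⟩
  constructor
  · rintro ⟨y, hy⟩
    have := hy _ (List.mem_singleton.2 rfl)
    rw [ev_mapDomain] at this
    exact this
  · intro h
    refine ⟨fun _ => 0, fun e' he' => ?_⟩
    rw [List.mem_singleton.1 he', ev_mapDomain]
    exact h

theorem exists_true :
    ∃ χ : PP R X, ∀ (M : Type) [AddCommGroup M] [Module R M] (v : X → M), sat χ v :=
  ⟨[], fun _ _ _ _ => ⟨fun _ => 0, fun _ he => absurd he List.not_mem_nil⟩⟩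

/-- conjunction of a finite list -/
theorem exists_conj (l : List (PP R X)) :
    ∃ χ : PP R X, ∀ (M : Type) [AddCommGroup M] [Module R M] (v : X → M),
      sat χ v ↔ ∀ φ ∈ l, sat φ v := by
  induction l with
  | nil =>
    obtain ⟨χ, hχ⟩ := exists_true (R := R) (X := X)
    exact ⟨χ, fun M _ _ v => ⟨fun _ φ h => absurd h List.not_mem_nil, fun _ => hχ M v⟩⟩
  | cons a l ih =>
    obtain ⟨χ, hχ⟩ := ih
    obtain ⟨χ', hχ'⟩ := exists_and a χ
    refine ⟨χ', fun M _ _ v => (hχ' M v).trans ?_⟩
    rw [hχ M v]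
    simp

end sat

end Pool.Agent.RZ
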