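import Pool.Agent.Lib.MP_cd53cf_al.Hull

set_option autoImplicit false

/-!
Realizing maximal pp types in the unique indecomposable algebraically compact module of a
definable class.
-/

namespace Pool.Agent.RZ

/-- satisfaction of a formula in one variable -/
def sat1 {R : Type} [Ring R] {M : Type} [AddCommGroup M] [Module R M] (φ : PP R Unit) (x : M) :
    Prop := sat φ (fun _ => x)

section

variable {R : Type} [Ring R] {M : Type} [AddCommGroup M] [Module R M]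
  {N : Type} [AddCommGroup N] [Module R N]

theorem sat1_map (φ : PP R Unit) (f : M →ₗ[R] N) {x : M} (h : sat1 φ x) : sat1 φ (f x) :=
  sat_map φ f h

theorem sat1_zero (φ : PP R Unit) : sat1 φ (0 : M) := sat_zero φ

theorem sat1_add (φ : PP R Unit) {x y : M} (h : sat1 φ x) (h' : sat1 φ y) : sat1 φ (x + y) :=
  sat_add φ h h'

theorem sat1_sub (φ : PP R Unit) {x y : M} (h : sat1 φ x) (h' : sat1 φ y) : sat1 φ (x - y) :=
  sat_sub φ h h'

theorem sat1_neg (φ : PP R Unit) {x : M} (h : sat1 φ x) : sat1 φ (-x) :=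
  sat_neg φ h

theorem AC.extend1 (hN : AC R N) (x : M) (y : N) (h : ∀ φ : PP R Unit, sat1 φ x → sat1 φ y) :
    ∃ f : M →ₗ[R] N, f x = y := by
  obtain ⟨f, hf⟩ := hN.extend (fun _ : Unit => x) (fun _ : Unit => y) h
  exact ⟨f, hf ()⟩

/-- the class of modules in which `φ₀` implies `ψ₀` -/
def InD {X : Type} (φ₀ ψ₀ : PP R X) (M : Type) [AddCommGroup M] [Module R M] : Prop :=
  ∀ v : X → M, sat φ₀ v → sat ψ₀ v

theorem InD.redProd {X : Type} {φ₀ ψ₀ : PP R X} {I : Type} (l : Filter I) (M : I → Type)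
    [∀ i, AddCommGroup (M i)] [∀ i, Module R (M i)] (h : ∀ i, InD φ₀ ψ₀ (M i)) :
    InD φ₀ ψ₀ (RedProd R l M) := by
  intro v hv
  choose v' hv' using fun x => Submodule.Quotient.mk_surjective _ (v x)
  have : v = fun x => Submodule.Quotient.mk (v' x) := funext fun x => (hv' x).symm
  rw [this] at hv ⊢
  rw [sat_redProd] at hv ⊢
  filter_upwards [hv] with i hi
  exact h i _ hi

theorem InD.retract {X : Type} {φ₀ ψ₀ : PP R X} (hM : InD φ₀ ψ₀ M) (i : N →ₗ[R] M)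
    (p : M →ₗ[R] N) (h : ∀ x, p (i x) = x) : InD φ₀ ψ₀ N := by
  intro v hv
  have h1 := hM _ (sat_map φ₀ i hv)
  have h2 := sat_map ψ₀ p h1
  simpa [h] using h2

/-- The setting: `N` is the only indecomposable algebraically compact module with `φ₀ ≤ ψ₀`. -/
structure Setting (R : Type) [Ring R] {X : Type} (φ₀ ψ₀ : PP R X) (N : Type) [AddCommGroup N]
    [Module R N] : Prop where
  indec : Indec R N
  ac : AC R N
  inD : InD φ₀ ψ₀ N
  uniq : ∀ (M : Type) [AddCommGroup M] [Module R M], Indec R M → AC R M → InD φ₀ ψ₀ M →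
    Nonempty (M ≃ₗ[R] N)

theorem Setting.realize_aux {X : Type} {φ₀ ψ₀ : PP R X} (hN : Setting R φ₀ ψ₀ N)
    (I : Set (PP R Unit)) (hne : I.Nonempty)
    (hI : ∀ γ₁ ∈ I, ∀ γ₂ ∈ I, ∃ γ₃ ∈ I, ∀ (M : Type) [AddCommGroup M] [Module R M],
      InD φ₀ ψ₀ M → ∀ x y : M, sat1 γ₁ x → sat1 γ₂ y → sat1 γ₃ (x + y))
    (P : Type) [AddCommGroup P] [Module R P] (hPAC : AC R P) (hPD : InD φ₀ ψ₀ P) (d : P)
    (hdI : ∀ γ ∈ I, ¬ sat1 γ d)
    (hmax : ∀ (M' : Type) [AddCommGroup M'] [Module R M'], InD φ₀ ψ₀ M' → ∀ c' : M',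
        (∀ γ ∈ I, ¬ sat1 γ c') → (∀ φ : PP R Unit, sat1 φ d → sat1 φ c') →
        ∀ φ : PP R Unit, sat1 φ c' → sat1 φ d) :
    ∃ a : N, ∀ φ : PP R Unit, sat1 φ a ↔ sat1 φ d := by
  classical
  -- idempotent
  obtain ⟨u, huu, huΛ, _, humax⟩ := hPAC.exists_idem {eqF (Finsupp.single d (1:R))} LinearMap.id (by
    intro φ hφ
    rw [Set.mem_singleton_iff.1 hφ, sat_eqF]
    simp)
  have hud : u d = d := by
    have := huΛ _ (Set.mem_singleton _)
    rw [sat_eqF] at this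
    simpa [sub_eq_zero] using this
  obtain ⟨i, hi⟩ : ∃ i : LinearMap.range u →ₗ[R] P, ∀ x, i x = x.1 :=
    ⟨(LinearMap.range u).subtype, fun _ => rfl⟩
  obtain ⟨π, hπ⟩ : ∃ π : P →ₗ[R] LinearMap.range u, ∀ x, (π x).1 = u x :=
    ⟨u.rangeRestrict, fun _ => rfl⟩
  have hπi : ∀ x : LinearMap.range u, π (i x) = x := by
    rintro ⟨_, ⟨x, rfl⟩⟩
    apply Subtype.ext
    rw [hπ, hi]
    exact huu x
  have hiπ : ∀ x : P, i (π x) = u x := fun x => by rw [hi, hπ]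
  obtain ⟨d1, hid1⟩ : ∃ d1 : LinearMap.range u, i d1 = d := ⟨⟨d, ⟨d, hud⟩⟩, by rw [hi]⟩
  have hπd : π d = d1 := by rw [← hid1, hπi]
  have hd1c : ∀ φ : PP R Unit, sat1 φ d1 ↔ sat1 φ d := by
    intro φ
    constructor
    · intro h
      have := sat1_map φ i h
      rwa [hid1] at this
    · intro h
      have := sat1_map φ π h
      rwa [hπd] at this
  have hAC1 : AC R (LinearMap.range u) := hPAC.retract i π hπi
  have hD1 : InD φ₀ ψ₀ (LinearMap.range u) := hPD.retract i π hπi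
  obtain ⟨γ0, hγ0⟩ := hne
  -- key: any endomorphism `e` such that `e d1` omits `I` is injective
  have hinj : ∀ e : Module.End R (LinearMap.range u), (∀ γ ∈ I, ¬ sat1 γ (e d1)) →
      ∀ b, e b = 0 → b = 0 := by
    intro e he b hb
    obtain ⟨g, hg⟩ := hAC1.extend1 (e d1) d1 (by
      intro φ hφ
      rw [hd1c]
      exact hmax _ hD1 (e d1) he (fun φ hφ => sat1_map φ e ((hd1c φ).2 hφ)) φ hφ)
    have hv := humax (i ∘ₗ g ∘ₗ e ∘ₗ π) (by
      intro φ hφ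
      rw [Set.mem_singleton_iff.1 hφ, sat_eqF]
      simp only [ev_single, one_smul, LinearMap.comp_apply, hπd, hg, hid1, sub_self]) (by
      intro φ hφ
      have := sat_map φ (i ∘ₗ g ∘ₗ e ∘ₗ π) hφ
      convert this using 2 with x
      simp only [LinearMap.comp_apply]
      have h4 : π (u x) = π x := by
        rw [← hiπ, hπi]
      rw [h4]) (eqF (Finsupp.single (i b) (1:R))) (by
      rw [sat_eqF]
      simp only [ev_single, one_smul, LinearMap.comp_apply, hπi, hb, map_zero])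
    rw [sat_eqF] at hv
    simp only [ev_single, one_smul] at hv
    have h5 : u (i b) = i b := by
      rw [← hiπ, hπi]
    rw [h5] at hv
    rw [← hπi b, hv, map_zero]
  have hindec : Indec R (LinearMap.range u) := by
    constructor
    · refine ⟨d1, 0, fun h => ?_⟩
      apply hdI γ0 hγ0
      rw [← hd1c, h]
      exact sat1_zero γ0
    · intro A B hAB
      obtain ⟨eA, heA⟩ : ∃ eA : Module.End R (LinearMap.range u),
        ∀ x, eA x = (A.projectionOnto B hAB x : A) := ⟨A.subtype ∘ₗ A.projectionOnto B hAB, fun _ => rfl⟩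
      obtain ⟨eB, heB⟩ : ∃ eB : Module.End R (LinearMap.range u),
        ∀ x, eB x = (B.projectionOnto A hAB.symm x : B) :=
        ⟨B.subtype ∘ₗ B.projectionOnto A hAB.symm, fun _ => rfl⟩
      have hsum : ∀ x, eA x + eB x = x := by
        intro x
        rw [heA, heB, Submodule.coe_projectionOnto_apply, Submodule.coe_projectionOnto_apply]
        exact Submodule.projection_add_projection_eq_self hAB x
      by_cases hA : ∀ γ ∈ I, ¬ sat1 γ (eA d1)
      · right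
        rw [eq_bot_iff]
        intro b hb
        exact hinj eA hA b (by
          rw [heA, Submodule.projectionOnto_apply_of_mem_right hAB hb]
          rfl)
      · by_cases hB : ∀ γ ∈ I, ¬ sat1 γ (eB d1)
        · left
          rw [eq_bot_iff]
          intro b hb
          exact hinj eB hB b (by
            rw [heB, Submodule.projectionOnto_apply_of_mem_right hAB.symm hb]
            rfl)
        · exfalso
          push Not at hA hB
          obtain ⟨γ1, h1, h1'⟩ := hA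
          obtain ⟨γ2, h2, h2'⟩ := hB
          obtain ⟨γ3, h3, h3'⟩ := hI γ1 h1 γ2 h2
          have := h3' _ hD1 _ _ h1' h2'
          rw [hsum, hd1c] at this
          exact hdI γ3 h3 this
  obtain ⟨eqv⟩ := hN.uniq _ hindec hAC1 hD1
  refine ⟨eqv d1, fun φ => ?_⟩
  rw [← hd1c]
  constructor
  · intro h
    have := sat1_map φ eqv.symm.toLinearMap h
    simpa using this
  · intro h
    exact sat1_map φ eqv.toLinearMap h

theorem Setting.realize {X : Type} [Finite X] {φ₀ ψ₀ : PP R X} (hN : Setting R φ₀ ψ₀ N)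
    (I : Set (PP R Unit)) (hne : I.Nonempty)
    (hI : ∀ γ₁ ∈ I, ∀ γ₂ ∈ I, ∃ γ₃ ∈ I, ∀ (M : Type) [AddCommGroup M] [Module R M],
      InD φ₀ ψ₀ M → ∀ x y : M, sat1 γ₁ x → sat1 γ₂ y → sat1 γ₃ (x + y))
    (M₀ : Type) [AddCommGroup M₀] [Module R M₀] (hM₀ : InD φ₀ ψ₀ M₀) (c₀ : M₀)
    (hc₀ : ∀ γ ∈ I, ¬ sat1 γ c₀) :
    ∃ a : N, (∀ γ ∈ I, ¬ sat1 γ a) ∧ (∀ φ : PP R Unit, sat1 φ c₀ → sat1 φ a) ∧
      ∀ (M : Type) [AddCommGroup M] [Module R M], InD φ₀ ψ₀ M → ∀ c : M,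
        (∀ γ ∈ I, ¬ sat1 γ c) → (∀ φ : PP R Unit, sat1 φ a → sat1 φ c) →
        ∀ φ : PP R Unit, sat1 φ c → sat1 φ a := by
  classical
  let 𝒯 : Set (Set (PP R Unit)) := {p | ∃ (M : Type) (_ : AddCommGroup M) (_ : Module R M) (c : M),
    InD φ₀ ψ₀ M ∧ (∀ γ ∈ I, ¬ sat1 γ c) ∧ p = {φ | sat1 φ c}}
  obtain ⟨p, hp0, hp⟩ := zorn_subset_nonempty 𝒯 (by
    intro ch hch hchain hchne
    let ι := {p : Set (PP R Unit) // p ∈ ch}
    have hex : ∀ p : ι, ∃ (M : Type) (_ : AddCommGroup M) (_ : Module R M) (c : M),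
      InD φ₀ ψ₀ M ∧ (∀ γ ∈ I, ¬ sat1 γ c) ∧ p.1 = {φ | sat1 φ c} := fun p => hch p.2
    choose M i1 i2 c hD hc hpc using hex
    have : Nonempty ι := by
      obtain ⟨p, hp⟩ := hchne
      exact ⟨⟨p, hp⟩⟩
    have : IsDirectedOrder ι := ⟨fun a b => by
      rcases hchain.total a.2 b.2 with h | h
      · exact ⟨b, h, le_refl b⟩
      · exact ⟨a, le_refl a, h⟩⟩
    let M' := RedProd R (Filter.atTop : Filter ι) M
    let c' : M' := Submodule.Quotient.mk c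
    have hsat : ∀ φ : PP R Unit, sat1 φ c' ↔ φ ∈ ⋃₀ ch := by
      intro φ
      have h1 : sat1 φ c' ↔ ∀ᶠ p in (Filter.atTop : Filter ι), sat φ (fun _ : Unit => c p) :=
        sat_redProd (Filter.atTop : Filter ι) M φ (fun _ => c)
      rw [h1, Filter.eventually_atTop]
      constructor
      · rintro ⟨p, h⟩
        refine ⟨p.1, p.2, ?_⟩
        rw [hpc p]
        exact h p (le_refl p)
      · rintro ⟨p, hp, hφ⟩
        refine ⟨⟨p, hp⟩, fun q hq => ?_⟩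
        have : φ ∈ q.1 := hq hφ
        rw [hpc q] at this
        exact this
    refine ⟨⋃₀ ch, ⟨M', inferInstance, inferInstance, c', InD.redProd _ _ hD, ?_, ?_⟩,
      fun s hs => Set.subset_sUnion_of_mem hs⟩
    · intro γ hγ h
      rw [hsat] at h
      obtain ⟨p, hp, hγp⟩ := h
      have h2 : γ ∈ ({φ | sat1 φ (c ⟨p, hp⟩)} : Set (PP R Unit)) := by
        rw [← hpc ⟨p, hp⟩]; exact hγp
      exact hc ⟨p, hp⟩ γ hγ h2
    · ext φ
      exact (hsat φ).symm) {φ | sat1 φ c₀} ⟨M₀, inferInstance, inferInstance, c₀, hM₀, hc₀, rfl⟩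
  obtain ⟨M, i1, i2, c, hMD, hcI, hpc⟩ := hp.1
  -- maximality
  have hmax : ∀ (M' : Type) [AddCommGroup M'] [Module R M'], InD φ₀ ψ₀ M' → ∀ c' : M',
        (∀ γ ∈ I, ¬ sat1 γ c') → (∀ φ : PP R Unit, sat1 φ c → sat1 φ c') →
        ∀ φ : PP R Unit, sat1 φ c' → sat1 φ c := by
    intro M' _ _ hM' c' hc' hle φ hφ
    have := hp.2 (y := {φ | sat1 φ c'}) ⟨M', inferInstance, inferInstance, c', hM', hc', rfl⟩
      (by rw [hpc]; exact hle)
    have h2 := this hφ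
    rw [hpc] at h2
    exact h2
  -- embed in an algebraically compact module
  have hdc : ∀ φ : PP R Unit, sat1 φ (DD.iota R M c) ↔ sat1 φ c :=
    fun φ => ⟨fun h => DD.pure φ _ h, fun h => sat1_map φ _ h⟩
  obtain ⟨a, ha'⟩ := hN.realize_aux I hne hI (DD M) DD.ac (DD.imp φ₀ ψ₀ hMD) (DD.iota R M c)
    (fun γ hγ h => hcI γ hγ ((hdc γ).1 h)) (by
      intro M' _ _ hM' c' hc' hle φ hφ
      rw [hdc]
      exact hmax M' hM' c' hc' (fun φ hφ => hle φ ((hdc φ).2 hφ)) φ hφ)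
  have ha : ∀ φ : PP R Unit, sat1 φ a ↔ sat1 φ c := fun φ => (ha' φ).trans (hdc φ)
  refine ⟨a, ?_, ?_, ?_⟩
  · intro γ hγ h
    exact hcI γ hγ ((ha γ).1 h)
  · intro φ hφ
    rw [ha]
    have : φ ∈ p := hp0 hφ
    rw [hpc] at this
    exact this
  · intro M' _ _ hM' c' hc' hle φ hφ
    rw [ha]
    exact hmax M' hM' c' hc' (fun φ hφ => hle φ ((ha φ).2 hφ)) φ hφ

/-- implications between pp formulas true in `N` are true in the class -/
theorem Setting.imp {X : Type} [Finite X] {φ₀ ψ₀ : PP R X} (hN : Setting R φ₀ ψ₀ N)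
    (α β : PP R Unit) (h : ∀ x : N, sat1 α x → sat1 β x)
    (M : Type) [AddCommGroup M] [Module R M] (hM : InD φ₀ ψ₀ M) (x : M) (hx : sat1 α x) :
    sat1 β x := by
  by_contra hβ
  obtain ⟨a, ha, ha', _⟩ := hN.realize {β} ⟨β, rfl⟩ (by
    rintro _ rfl _ rfl
    exact ⟨_, rfl, fun M _ _ _ x y hx hy => sat1_add _ hx hy⟩) M hM x (by
    rintro _ rfl
    exact hβ)
  exact ha β rfl (h a (ha' α hx))

/-- realizing types given inside `N` -/
theorem Setting.realize' {X : Type} [Finite X] {φ₀ ψ₀ : PP R X} (hN : Setting R φ₀ ψ₀ N)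
    (q I : Set (PP R Unit)) (hne : I.Nonempty)
    (hI : ∀ γ₁ ∈ I, ∀ γ₂ ∈ I, ∃ γ₃ ∈ I, ∀ x y : N, sat1 γ₁ x → sat1 γ₂ y → sat1 γ₃ (x + y))
    (hq : ∀ F : Finset (PP R Unit), (↑F : Set (PP R Unit)) ⊆ q → ∀ γ ∈ I,
      ∃ c : N, (∀ φ ∈ F, sat1 φ c) ∧ ¬ sat1 γ c) :
    ∃ a : N, (∀ γ ∈ I, ¬ sat1 γ a) ∧ (∀ φ ∈ q, sat1 φ a) ∧
      ∀ χ : PP R Unit, ¬ sat1 χ a → ∃ α : PP R Unit, sat1 α a ∧ ∃ γ ∈ I,
        ∀ x : N, sat1 α x → sat1 χ x → sat1 γ x := by
  classical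
  -- sums
  have hsum : ∀ γ₁ γ₂ : PP R Unit, ∃ δ : PP R Unit, ∀ (M : Type) [AddCommGroup M] [Module R M]
      (x : M), sat1 δ x ↔ ∃ y z : M, sat1 γ₁ y ∧ sat1 γ₂ z ∧ x = y + z := by
    intro γ₁ γ₂
    -- variables: x, y ; formula γ₁ y ∧ γ₂ (x - y)
    obtain ⟨α, hα⟩ := exists_subst (Z := Unit ⊕ Unit) γ₁ (fun _ => Finsupp.single (Sum.inr ()) (1:R))
    obtain ⟨β, hβ⟩ := exists_subst (Z := Unit ⊕ Unit) γ₂
      (fun _ => Finsupp.single (Sum.inl ()) (1:R) - Finsupp.single (Sum.inr ()) (1:R))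
    obtain ⟨χ, hχ⟩ := exists_and α β
    obtain ⟨δ, hδ⟩ := exists_ex χ
    refine ⟨δ, fun M _ _ x => ?_⟩
    unfold sat1
    rw [hδ]
    constructor
    · rintro ⟨y, hy⟩
      rw [hχ, hα, hβ] at hy
      simp only [ev_sub, ev_single, Sum.elim_inl, Sum.elim_inr, one_smul] at hy
      exact ⟨y (), x - y (), hy.1, hy.2, by abel⟩
    · rintro ⟨y, z, hy, hz, rfl⟩
      refine ⟨fun _ => y, ?_⟩
      rw [hχ, hα, hβ]
      simp only [ev_sub, ev_single, Sum.elim_inl, Sum.elim_inr, one_smul, add_sub_cancel_left]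
      exact ⟨hy, hz⟩
  -- the directed index set
  let ι := {F : Finset (PP R Unit) // (↑F : Set (PP R Unit)) ⊆ q} × {γ : PP R Unit // γ ∈ I}
  have hI' : ∀ γ₁ ∈ I, ∀ γ₂ ∈ I, ∃ γ₃ ∈ I, ∀ (M : Type) [AddCommGroup M] [Module R M],
      InD φ₀ ψ₀ M → ∀ x y : M, sat1 γ₁ x → sat1 γ₂ y → sat1 γ₃ (x + y) := by
    intro γ₁ h₁ γ₂ h₂
    obtain ⟨γ₃, h₃, h⟩ := hI γ₁ h₁ γ₂ h₂
    refine ⟨γ₃, h₃, fun M _ _ hM x y hx hy => ?_⟩
    obtain ⟨δ, hδ⟩ := hsum γ₁ γ₂
    refine hN.imp δ γ₃ (fun z hz => ?_) M hM (x + y) ((hδ M _).2 ⟨x, y, hx, hy, rfl⟩)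
    obtain ⟨a, b, ha, hb, rfl⟩ := (hδ N z).1 hz
    exact h a b ha hb
  -- general consistency argument
  have hcons : ∀ q' : Set (PP R Unit), (∀ F : Finset (PP R Unit), (↑F : Set (PP R Unit)) ⊆ q' →
      ∀ γ ∈ I, ∃ c : N, (∀ φ ∈ F, sat1 φ c) ∧ ¬ sat1 γ c) →
      ∃ (M : Type) (_ : AddCommGroup M) (_ : Module R M) (c : M), InD φ₀ ψ₀ M ∧
        (∀ γ ∈ I, ¬ sat1 γ c) ∧ ∀ φ ∈ q', sat1 φ c := by
    intro q' hq'
    let ι := {F : Finset (PP R Unit) // (↑F : Set (PP R Unit)) ⊆ q'} × {γ : PP R Unit // γ ∈ I}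
    have hc : ∀ i : ι, ∃ c : N, (∀ φ ∈ i.1.1, sat1 φ c) ∧ ¬ sat1 i.2.1 c :=
      fun i => hq' i.1.1 i.1.2 i.2.1 i.2.2
    choose c hc1 hc2 using hc
    -- filter generated by tails
    let le : ι → ι → Prop := fun i j => i.1.1 ⊆ j.1.1 ∧ ∀ x : N, sat1 i.2.1 x → sat1 j.2.1 x
    have hdir : ∀ i j : ι, ∃ k : ι, le i k ∧ le j k := by
      intro i j
      obtain ⟨γ₃, h₃, h⟩ := hI i.2.1 i.2.2 j.2.1 j.2.2
      refine ⟨⟨⟨i.1.1 ∪ j.1.1, ?_⟩, ⟨γ₃, h₃⟩⟩, ⟨Finset.subset_union_left, fun x hx => ?_⟩,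
        ⟨Finset.subset_union_right, fun x hx => ?_⟩⟩
      · intro φ hφ
        rcases Finset.mem_union.1 (Finset.mem_coe.1 hφ) with h | h
        · exact i.1.2 h
        · exact j.1.2 h
      · have := h x 0 hx (sat1_zero _)
        simpa using this
      · have := h 0 x (sat1_zero _) hx
        simpa using this
    obtain ⟨γ0, hγ0⟩ := hne
    let i0 : ι := ⟨⟨∅, by simp⟩, ⟨γ0, hγ0⟩⟩
    let l : Filter ι := ⨅ i : ι, Filter.principal {j | le i j}
    have hlmem : ∀ s : Set ι, s ∈ l ↔ ∃ i, {j | le i j} ⊆ s := by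
      intro s
      have : Nonempty ι := ⟨i0⟩
      rw [Filter.mem_iInf_of_directed]
      · simp [Filter.mem_principal]
      · intro i j
        obtain ⟨k, h1, h2⟩ := hdir i j
        refine ⟨k, ?_, ?_⟩
        · change Filter.principal _ ≤ Filter.principal _
          rw [Filter.le_principal_iff, Filter.mem_principal]
          intro m hm
          exact ⟨h1.1.trans hm.1, fun x hx => hm.2 x (h1.2 x hx)⟩
        · change Filter.principal _ ≤ Filter.principal _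
          rw [Filter.le_principal_iff, Filter.mem_principal]
          intro m hm
          exact ⟨h2.1.trans hm.1, fun x hx => hm.2 x (h2.2 x hx)⟩
    refine ⟨RedProd R l (fun _ : ι => N), inferInstance, inferInstance, Submodule.Quotient.mk c,
      InD.redProd _ _ (fun _ => hN.inD), ?_, ?_⟩
    · intro γ hγ h
      have h1 : ∀ᶠ i in l, sat γ (fun _ : Unit => c i) :=
        (sat_redProd l (fun _ : ι => N) γ (fun _ => c)).1 h
      obtain ⟨i, hi⟩ := (hlmem _).1 h1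
      obtain ⟨k, h2, h3⟩ := hdir i ⟨⟨∅, by simp⟩, ⟨γ, hγ⟩⟩
      exact hc2 k (h3.2 _ (hi h2))
    · intro φ hφ
      have h1 : ∀ᶠ i in l, sat φ (fun _ : Unit => c i) := by
        change _ ∈ l
        rw [hlmem]
        refine ⟨⟨⟨{φ}, by simpa using hφ⟩, ⟨γ0, hγ0⟩⟩, fun j hj => ?_⟩
        exact hc1 j φ (hj.1 (Finset.mem_singleton_self φ))
      exact (sat_redProd l (fun _ : ι => N) φ (fun _ => c)).2 h1
  obtain ⟨M, i1, i2, c, hMD, hcI, hcq⟩ := hcons q hq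
  obtain ⟨a, haI, haq, hamax⟩ := hN.realize I hne hI' M hMD c hcI
  refine ⟨a, haI, fun φ hφ => haq φ (hcq φ hφ), fun χ hχ => ?_⟩
  by_contra hcon
  push Not at hcon
  obtain ⟨M', i1', i2', c', hMD', hcI', hcq'⟩ := hcons ({φ | sat1 φ a} ∪ {χ}) (by
    intro F hF γ hγ
    obtain ⟨δ, hδ⟩ := exists_conj (F.filter (fun φ => sat1 φ a)).toList
    obtain ⟨x, hx1, hx2, hx3⟩ := hcon δ (by
      unfold sat1
      rw [hδ]
      intro φ hφ
      exact (Finset.mem_filter.1 (Finset.mem_toList.1 hφ)).2) γ hγ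
    refine ⟨x, fun φ hφ => ?_, hx3⟩
    by_cases h : sat1 φ a
    · exact (hδ N _).1 hx1 φ (Finset.mem_toList.2 (Finset.mem_filter.2 ⟨hφ, h⟩))
    · rcases hF hφ with h' | h'
      · exact absurd h' h
      · rw [Set.mem_singleton_iff.1 h']
        exact hx2)
  exact hχ (hamax M' hMD' c' hcI' (fun φ hφ => hcq' φ (Or.inl hφ)) χ (hcq' χ (Or.inr rfl)))

end

end Pool.Agent.RZ
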